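import Pool.Agent.K3h53.UG.Stm5

/-! UG project (helper53, MP_209724_lc), brick DIR6: perturbation of nondegenerate directions
(helper93). -/

set_option autoImplicit false

namespace Pool.Agent.K3h93.UG.Dir6

open MvPolynomial Filter Topology Metric Pool.Agent.K3h53.UG

variable {n s r : ℕ}

theorem contDiff_xr (e : Fin s ⊕ Fin r ≃ Fin n) (σ : Fin s → Fin r → ℝ) (i : Fin n) :
    ContDiff ℂ 1 fun z : (Fin s → ℂ) × (Fin r → ℂ) => xr e σ z.1 z.2 i := by
  unfold xr
  rcases e.symm i with j | b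
  · simp only [Sum.elim_inl]
    refine ContDiff.add ((contDiff_apply ℂ ℂ j).comp contDiff_fst) ?_
    refine ContDiff.sum fun b _ => ?_
    exact contDiff_const.mul ((contDiff_apply ℂ ℂ b).comp contDiff_snd)
  · simp only [Sum.elim_inr]
    exact (contDiff_apply ℂ ℂ b).comp contDiff_snd

theorem contDiff_eval (e : Fin s ⊕ Fin r ≃ Fin n) (σ : Fin s → Fin r → ℝ)
    (q : MvPolynomial (Fin n) ℂ) :
    ContDiff ℂ 1 fun z : (Fin s → ℂ) × (Fin r → ℂ) => eval (xr e σ z.1 z.2) q := by
  induction q using MvPolynomial.induction_on with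
  | C a => simpa using contDiff_const
  | add p q hp hq => simpa using hp.add hq
  | mul_X p i hp => simpa using hp.mul (contDiff_xr e σ i)

theorem hasDeriv_path (γ : ℂ → Fin n → ℂ) (z v : Fin n → ℂ) (h0 : γ 0 = z)
    (h1 : ∀ i, HasDerivAt (fun t => γ t i) (v i) 0) (q : MvPolynomial (Fin n) ℂ) :
    HasDerivAt (fun t : ℂ => eval (γ t) q) (eval z (dd v q)) 0 := by
  induction q using MvPolynomial.induction_on with
  | C a =>
    have e : dd v (C a : MvPolynomial (Fin n) ℂ) = 0 := by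
      simp [dd]
    rw [e]
    simpa using hasDerivAt_const (0 : ℂ) a
  | add p q hp hq =>
    have e : dd v (p + q) = dd v p + dd v q := by
      simp only [dd, map_add, mul_add, Finset.sum_add_distrib]
    rw [e, map_add]
    simpa using hp.fun_add hq
  | mul_X p i hp =>
    have e2 : dd v (p * X i) = dd v p * X i + p * C (v i) := by
      unfold dd
      simp only [pderiv_mul, mul_add, Finset.sum_add_distrib]
      congr 1
      · rw [Finset.sum_mul]
        exact Finset.sum_congr rfl fun j _ => by ring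
      · rw [Finset.sum_eq_single i]
        · rw [pderiv_X_self]; ring
        · intro j _ hj
          rw [pderiv_X_of_ne (Ne.symm hj)]; ring
        · intro h
          exact absurd (Finset.mem_univ _) h
    rw [e2, map_add, map_mul, map_mul, eval_X, eval_C]
    have h2 := hp.fun_mul (h1 i)
    rw [h0] at h2
    simpa using h2

theorem xr_add (e : Fin s ⊕ Fin r ≃ Fin n) (σ : Fin s → Fin r → ℝ) (l : Fin s → ℂ)
    (θ v : Fin r → ℂ) (t : ℂ) (i : Fin n) :
    xr e σ l (θ + t • v) i = xr e σ l θ i + t * xr e σ 0 v i := by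
  unfold xr
  rcases e.symm i with j | b
  · simp only [Sum.elim_inl, Pi.add_apply, Pi.smul_apply, smul_eq_mul, Pi.zero_apply, zero_add]
    rw [Finset.mul_sum, add_assoc, ← Finset.sum_add_distrib]
    congr 1
    exact Finset.sum_congr rfl fun b _ => by ring
  · simp only [Sum.elim_inr, Pi.add_apply, Pi.smul_apply, smul_eq_mul]

theorem xr_sum (e : Fin s ⊕ Fin r ≃ Fin n) (σ : Fin s → Fin r → ℝ) (v : Fin r → ℂ) (i : Fin n) :
    xr e σ 0 v i = ∑ b, v b * xr e σ 0 (Pi.single b 1) i := by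
  unfold xr
  rcases e.symm i with j | c
  · simp only [Sum.elim_inl, Pi.zero_apply, zero_add]
    refine Finset.sum_congr rfl fun b _ => ?_
    rw [Finset.sum_eq_single b]
    · rw [Pi.single_eq_same]; ring
    · intro c _ hc
      rw [Pi.single_eq_of_ne hc, mul_zero]
    · intro h
      exact absurd (Finset.mem_univ _) h
  · simp only [Sum.elim_inr]
    rw [Finset.sum_eq_single c]
    · rw [Pi.single_eq_same, mul_one]
    · intro b _ hb
      rw [Pi.single_eq_of_ne (Ne.symm hb), mul_zero]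
    · intro h
      exact absurd (Finset.mem_univ _) h

theorem eval_dd_sum (e : Fin s ⊕ Fin r ≃ Fin n) (σ : Fin s → Fin r → ℝ) (v : Fin r → ℂ)
    (z : Fin n → ℂ) (q : MvPolynomial (Fin n) ℂ) :
    eval z (dd (xr e σ 0 v) q) = ∑ b, eval z (dd (xr e σ 0 (Pi.single b 1)) q) * v b := by
  unfold dd
  simp only [map_sum, map_mul, eval_C]
  simp only [Finset.sum_mul]
  rw [Finset.sum_comm]
  refine Finset.sum_congr rfl fun j _ => ?_
  rw [xr_sum, Finset.sum_mul]
  exact Finset.sum_congr rfl fun b _ => by ring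

/-- a nonzero polynomial is not zero at all purely imaginary points close to a given one -/
theorem exists_imag_near {p : MvPolynomial (Fin s) ℂ} (hp : p ≠ 0) (a : Fin s → ℝ) {δ : ℝ}
    (hδ : 0 < δ) :
    ∃ b : Fin s → ℝ, (∀ j, |b j - a j| < δ) ∧ eval (fun j => (b j : ℂ) * Complex.I) p ≠ 0 := by
  by_contra h
  push Not at h
  apply hp
  have hinj : Function.Injective fun x : ℝ => (x : ℂ) * Complex.I := by
    intro x y hxy
    exact Complex.ofReal_injective (mul_right_cancel₀ Complex.I_ne_zero hxy)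
  refine MvPolynomial.funext_set
    (fun j : Fin s => (fun x : ℝ => (x : ℂ) * Complex.I) '' Set.Ioo (a j - δ) (a j + δ))
    (fun j => (Set.Ioo_infinite (by linarith)).image hinj.injOn) fun x hx => ?_
  have h1 : ∀ j, ∃ b : ℝ, |b - a j| < δ ∧ (b : ℂ) * Complex.I = x j := by
    intro j
    obtain ⟨b, hb, hb2⟩ := hx j (Set.mem_univ _)
    exact ⟨b, abs_lt.2 ⟨by linarith [hb.1], by linarith [hb.2]⟩, hb2⟩
  choose b hb hb2 using h1
  have e : x = fun j => (b j : ℂ) * Complex.I := funext fun j => (hb2 j).symm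
  rw [e, h b hb, map_zero]

theorem t_DIR6 : S_DIR6 := by
  intro n s r e G τ lam θ hG Q hQ δ hδ
  -- the map
  set g : (Fin s → ℂ) × (Fin r → ℂ) → Fin r → ℂ :=
    fun z i => eval (xr e τ z.1 z.2) (G i) with hg
  have hgc : ContDiff ℂ 1 g := contDiff_pi.2 fun i => contDiff_eval e τ (G i)
  set z₀ : (Fin s → ℂ) × (Fin r → ℂ) := (lam, θ) with hz₀
  set D : (Fin s → ℂ) × (Fin r → ℂ) →L[ℂ] (Fin r → ℂ) := fderiv ℂ g z₀ with hD
  have hgs : HasStrictFDerivAt g D z₀ := hgc.contDiffAt.hasStrictFDerivAt one_ne_zero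
  set M : Matrix (Fin r) (Fin r) ℂ := Matrix.of fun i b : Fin r =>
    eval (xr e τ lam θ) (dd (xr e τ 0 (Pi.single b 1)) (G i)) with hM
  have hM0 : M.det ≠ 0 := hG.det
  have hDv : ∀ v : Fin r → ℂ, D (0, v) = M.mulVec v := by
    intro v
    have h1 : HasDerivAt (fun t : ℂ => ((lam, θ + t • v) : (Fin s → ℂ) × (Fin r → ℂ)))
        ((0, v) : (Fin s → ℂ) × (Fin r → ℂ)) 0 := by
      refine (hasDerivAt_const (0 : ℂ) lam).prodMk ?_
      simpa using ((hasDerivAt_id (0 : ℂ)).smul_const v).const_add θ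
    have h2 : HasFDerivAt g D ((lam, θ + (0 : ℂ) • v) : (Fin s → ℂ) × (Fin r → ℂ)) := by
      rw [zero_smul, add_zero]
      exact hgs.hasFDerivAt
    have h3 := h2.comp_hasDerivAt (0 : ℂ) h1
    have h4 : HasDerivAt (g ∘ fun t : ℂ => ((lam, θ + t • v) : (Fin s → ℂ) × (Fin r → ℂ)))
        (M.mulVec v) 0 := by
      rw [hasDerivAt_pi]
      intro i
      have h5 := hasDeriv_path (fun t : ℂ => xr e τ lam (θ + t • v)) (xr e τ lam θ)
        (xr e τ 0 v) (by simp) (fun i => by
          have : (fun t : ℂ => xr e τ lam (θ + t • v) i) =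
              fun t : ℂ => xr e τ lam θ i + t * xr e τ 0 v i :=
            funext fun t => xr_add e τ lam θ v t i
          rw [this]
          simpa using ((hasDerivAt_id (0 : ℂ)).mul_const (xr e τ 0 v i)).const_add
            (xr e τ lam θ i)) (G i)
      rw [eval_dd_sum] at h5
      exact h5
    exact h3.unique h4
  have hΦ : HasStrictFDerivAt (fun z : (Fin s → ℂ) × (Fin r → ℂ) => (z.1, g z))
      ((ContinuousLinearMap.fst ℂ (Fin s → ℂ) (Fin r → ℂ)).prod D) z₀ :=
    hasStrictFDerivAt_fst.prodMk hgs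
  have hsurj : ((ContinuousLinearMap.fst ℂ (Fin s → ℂ) (Fin r → ℂ)).prod D).range = ⊤ := by
    rw [LinearMap.range_eq_top]
    rintro ⟨a, b⟩
    refine ⟨(a, M⁻¹.mulVec (b - D (a, 0))), ?_⟩
    have h1 : ((a, M⁻¹.mulVec (b - D (a, 0))) : (Fin s → ℂ) × (Fin r → ℂ)) =
        (a, 0) + (0, M⁻¹.mulVec (b - D (a, 0))) := by
      ext <;> simp
    have h2 : D (a, M⁻¹.mulVec (b - D (a, 0))) = b := by
      rw [h1, map_add, hDv, Matrix.mulVec_mulVec, Matrix.mul_nonsing_inv M
        (isUnit_iff_ne_zero.2 hM0), Matrix.one_mulVec]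
      abel
    exact Prod.ext rfl h2
  have hmap := hΦ.map_nhds_eq_of_surj hsurj
  -- the neighbourhood
  have hcD : Continuous fun z : (Fin s → ℂ) × (Fin r → ℂ) => (Matrix.of fun i b : Fin r =>
      eval (xr e τ z.1 z.2) (dd (xr e τ 0 (Pi.single b 1)) (G i))).det := by
    refine Continuous.matrix_det ?_
    refine continuous_matrix fun i b => ?_
    exact (contDiff_eval e τ (dd (xr e τ 0 (Pi.single b 1)) (G i))).continuous
  have hNb : {z : (Fin s → ℂ) × (Fin r → ℂ) | ‖z.2 - θ‖ < δ ∧ (Matrix.of fun i b : Fin r =>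
      eval (xr e τ z.1 z.2) (dd (xr e τ 0 (Pi.single b 1)) (G i))).det ≠ 0} ∈ 𝓝 z₀ := by
    refine IsOpen.mem_nhds ?_ ⟨by simpa [hz₀] using hδ, hM0⟩
    exact (isOpen_lt (continuous_snd.sub continuous_const).norm continuous_const).inter
      (isOpen_ne_fun hcD continuous_const)
  have hIm := image_mem_map (m := fun z : (Fin s → ℂ) × (Fin r → ℂ) => (z.1, g z)) hNb
  rw [hmap] at hIm
  obtain ⟨ρ, hρ, hball⟩ := Metric.mem_nhds_iff.1 hIm
  obtain ⟨b, hb, hQb⟩ := exists_imag_near hQ (fun j => (lam j).im) hρ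
  have hmem : (((fun j => ((b j : ℝ) : ℂ) * Complex.I), 0) : (Fin s → ℂ) × (Fin r → ℂ)) ∈
      ball (z₀.1, g z₀) ρ := by
    rw [mem_ball, Prod.dist_eq, max_lt_iff]
    refine ⟨?_, ?_⟩
    · rw [dist_pi_lt_iff hρ]
      intro j
      rw [dist_eq_norm]
      have : ((b j : ℝ) : ℂ) * Complex.I - z₀.1 j = ((b j - (lam j).im : ℝ) : ℂ) * Complex.I := by
        have h1 : lam j = ((lam j).im : ℂ) * Complex.I := by
          apply Complex.ext
          · simp [hG.im j]
          · simp
        rw [hz₀]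
        simp only
        rw [h1]
        simp only [Complex.mul_im, Complex.ofReal_re, Complex.I_im, mul_one, Complex.ofReal_im,
          Complex.I_re, mul_zero, add_zero]
        push_cast
        ring
      show ‖((b j : ℝ) : ℂ) * Complex.I - z₀.1 j‖ < ρ
      rw [this, norm_mul, Complex.norm_real, Real.norm_eq_abs, Complex.norm_I, mul_one]
      exact hb j
    · have : g z₀ = 0 := funext fun i => hG.zero i
      rw [this, dist_self]
      exact hρ
  obtain ⟨⟨l, η⟩, ⟨hη, hdet⟩, hl⟩ := hball hmem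
  simp only [Prod.mk.injEq] at hl
  obtain ⟨rfl, hg0⟩ := hl
  simp only at hη hdet
  refine ⟨fun j => ((b j : ℝ) : ℂ) * Complex.I, η, ⟨fun j => ?_, fun i => congrFun hg0 i, hdet⟩,
    fun c => ?_, hQb⟩
  · simp
  · exact (norm_le_pi_norm (η - θ) c).trans hη.le

end Pool.Agent.K3h93.UG.Dir6
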