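import Pool.Agent.K3h93.UG.Lim

/-!
The dimension of sets which are modelled on a fixed set, for general types of visits.
-/

namespace K93G

open H974 Finset H342P H984P H984N H443P H443U K93U MeasureTheory Filter Topology
open scoped ENNReal

set_option maxRecDepth 8000 in
theorem det {D : ℂ → ℝ} (hD : ∀ x y : ℂ, D y ≤ D x + ‖y - x‖)
    {N : ℂ → ℝ → Set C(unitInterval, ℂ)} {η : ℝ} {f : C(unitInterval, ℂ)} {K : Set ℂ}
    {c C2 γ ε : ℝ} {Λ k M n Z : ℕ}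
    (hγ : 0 < γ) (hε : 0 < ε) (hΛ : 1 ≤ Λ) (hpar : Par c C2 γ ε Λ k M)
    (hη : 1 / ((n:ℝ) + 1) ≤ η)
    (hfew : Few D N K Λ M ⌈(M:ℝ) ^ (γ + ε)⌉₊ ε n Z f) {Y : Set ℂ} {κ : ℂ → ℂ}
    (hY : ∀ y ∈ Y, ∀ (z : ℂ) (s : ℝ), dist y z < s → 8 * s ≤ η → f ∈ N z s)
    (hdp : ∀ y ∈ Y, 1 / ((n:ℝ) + 1) ≤ D y) {X0 : ℝ}
    (hX : ∀ y ∈ Y, ‖y‖ ≤ X0 ∧ ‖κ y‖ ≤ X0) (hZ : X0 / rs Λ M n 0 ≤ Z)
    (hsmall : ∀ y ∈ Y, ∀ y' ∈ Y, dist y y' ≤ 8 * M * rs Λ M n 0)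
    (hmod : UMod K Λ M n Y κ) : dimH Y ≤ ENNReal.ofReal (γ + 6 * ε) := by
  classical
  have hM2 := hpar.two
  have hM : 1 ≤ M := by omega
  have hM0 : (0:ℝ) < M := by exact_mod_cast (by omega : 0 < M)
  have hM2' : (2:ℝ) ≤ M := by exact_mod_cast hM2
  have hM1 : (1:ℝ) ≤ M := by linarith
  have hΛ' : (1:ℝ) ≤ Λ := by exact_mod_cast hΛ
  have hN0 : (0:ℝ) ≤ n := Nat.cast_nonneg n
  set G : ℕ := ⌈(M:ℝ) ^ (γ + ε)⌉₊ with hG
  choose rd hrd1 hrd2 hrd3 using exists_round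
  have hr0 := fun j => rs_pos hΛ hM n j
  have hrsJ : ∀ J, rs Λ M n J = rs Λ M n 0 * (1 / (M:ℝ)) ^ J := by
    intro J
    unfold rs
    simp
  have h420 : ∀ j, 420 * (rs Λ M n j * M) ≤ 1 / ((n:ℝ) + 1) := by
    intro j
    have h2 := rs_bd hΛ hM n j
    have h3 := hr0 j
    have : rs Λ M n j * M ≤ Λ * (rs Λ M n j * M) := le_mul_of_one_le_left (by positivity) hΛ'
    linarith
  -- labels
  have hlab : ∀ (J : ℕ) (z : ℂ), ‖z - xi Λ M n J (rd (z / (rs Λ M n J : ℂ)))‖ ≤ rs Λ M n J := by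
    intro J z
    have hJ := hr0 J
    have hJ' : (rs Λ M n J : ℂ) ≠ 0 := by exact_mod_cast hJ.ne'
    have h1 := hrd1 (z / (rs Λ M n J : ℂ))
    have e : z - xi Λ M n J (rd (z / (rs Λ M n J : ℂ))) =
        (rs Λ M n J : ℂ) * (z / (rs Λ M n J : ℂ) - qc (rd (z / (rs Λ M n J : ℂ)))) := by
      unfold xi
      field_simp
    rw [e, norm_mul, Complex.norm_real, Real.norm_eq_abs, abs_of_pos hJ]
    calc rs Λ M n J * ‖z / (rs Λ M n J : ℂ) - qc (rd (z / (rs Λ M n J : ℂ)))‖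
        ≤ rs Λ M n J * 1 := mul_le_mul_of_nonneg_left h1 hJ.le
      _ = rs Λ M n J := mul_one _
  have hlabb : ∀ (J : ℕ) (z : ℂ), ‖z‖ ≤ X0 →
      b0 (rd (z / (rs Λ M n J : ℂ))) ≤ (Z * M ^ J : ℕ) := by
    intro J z hz
    have hJ := hr0 J
    have h1 : ‖z / (rs Λ M n J : ℂ)‖ ≤ Z * (M:ℝ) ^ J := by
      rw [norm_div, Complex.norm_real, Real.norm_eq_abs, abs_of_pos hJ, div_le_iff₀ hJ, hrsJ J]
      rw [div_le_iff₀ (hr0 0)] at hZ
      have e : (Z:ℝ) * (M:ℝ) ^ J * (rs Λ M n 0 * (1 / (M:ℝ)) ^ J) = Z * rs Λ M n 0 := by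
        rw [one_div, inv_pow]
        field_simp
      rw [e]
      linarith
    refine b0_le_of (a := Z * (M:ℝ) ^ J + 1 / 2) ((hrd2 _).trans (by linarith))
      ((hrd3 _).trans (by linarith)) ?_
    push_cast
    linarith
  set bad : ℕ → ℂ → ℕ → Prop := fun J y j =>
    Bad N f (xi Λ M n J (rd (y / (rs Λ M n J : ℂ)))) (rs Λ M n j)
      (qi K Λ M n J (rd (κ y / (rs Λ M n J : ℂ))) j) G with hbad
  set cell : ℕ → Set ℂ → Prop := fun j E => E ⊆ Y ∧ ∀ y ∈ E, ∀ y' ∈ E,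
    dist y y' ≤ 8 * M * rs Λ M n j with hcell
  have hpiece : ∀ (j : ℕ) (E : Set ℂ) (z : ℂ), E ⊆ Y →
      cell (j + 1) (E ∩ Metric.closedBall z (rs Λ M n j)) ∧
        E ∩ Metric.closedBall z (rs Λ M n j) ⊆ E := by
    intro j E z hE
    refine ⟨⟨Set.inter_subset_left.trans hE, fun y hy y' hy' => ?_⟩, Set.inter_subset_left⟩
    have h1 : dist y z ≤ rs Λ M n j := hy.2
    have h2 : dist y' z ≤ rs Λ M n j := hy'.2
    have h3 := dist_triangle y z y'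
    rw [dist_comm z y'] at h3
    have h4 := rs_succ (Λ := Λ) hM n j
    have h5 := hr0 j
    have h6 : 8 * M * rs Λ M n (j + 1) = 8 * rs Λ M n j := by rw [← h4]; ring
    rw [h6]
    linarith
  have hcov : ∀ᶠ J : ℕ in atTop, ∃ s : Finset (Set ℂ),
      s.card ≤ ((20 * M + 1) ^ 2) ^ ⌈ε * J⌉₊ * (G + 6241) ^ J ∧ Y ⊆ ⋃₀ (s : Set (Set ℂ)) ∧
      ∀ c ∈ s, cell J c := by
    filter_upwards [hfew] with J hJ
    refine tree J cell (bad J) (G := G + 6241) (M := (20 * M + 1) ^ 2) (by omega)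
      (Nat.one_le_pow _ _ (by omega)) ?_ ?_ J 0 (by omega) Y ⟨le_rfl, hsmall⟩ ⌈ε * J⌉₊ ?_
    · rintro j hj E ⟨hE1, hE2⟩ ⟨y0, hy0, hb⟩
      have hJj : rs Λ M n J ≤ rs Λ M n j := rs_le hM n hj.le
      have hj0 := hr0 j
      obtain ⟨L, hL1, hL2, hL3⟩ := hmod y0 (hE1 hy0) (8 * M * rs Λ M n j) (by positivity)
        (by have := h420 j; have := mul_pos hj0 hM0; linarith)
      obtain ⟨Q, hQ1, hQ2⟩ := cover_one (K := K) hΛ hM hj0
        (x := xi Λ M n J (rd (y0 / (rs Λ M n J : ℂ)))) (y0 := y0)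
        (k := xi Λ M n J (rd (κ y0 / (rs Λ M n J : ℂ)))) (κ0 := κ y0)
        ((hlab J y0).trans hJj) (by rw [norm_sub_rev]; exact (hlab J (κ y0)).trans hJj) L hL1 hL2
      set x := xi Λ M n J (rd (y0 / (rs Λ M n J : ℂ))) with hx
      have hcnt : cnt N f x (rs Λ M n j) Q < G := by
        by_contra hcon
        exact hb ⟨Q, hQ1, not_lt.mp hcon⟩
      obtain ⟨S0, hS0⟩ : ∃ S0 : Finset (ℤ × ℤ), S0 = bx 39 ∪
        Q.filter (fun q => f ∈ N (gp x (rs Λ M n j) q) (4 * rs Λ M n j)) := ⟨_, rfl⟩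
      refine ⟨S0.image (fun q => E ∩ Metric.closedBall (gp x (rs Λ M n j) q) (rs Λ M n j)),
        ?_, ?_, ?_⟩
      · rw [hS0]
        refine Finset.card_image_le.trans ((Finset.card_union_le _ _).trans ?_)
        rw [card_bx]
        have : (Q.filter (fun q => f ∈ N (gp x (rs Λ M n j) q) (4 * rs Λ M n j))).card =
            cnt N f x (rs Λ M n j) Q := by
          unfold cnt
          congr
        rw [this]
        omega
      · intro y hy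
        obtain ⟨q, hq1, hq2, hq3⟩ := hQ2 y (by
            have := hE2 y hy y0 hy0
            rwa [dist_eq_norm] at this) (by
            obtain ⟨κ', h1, h2⟩ := hL3 y (hE1 hy) (by
              have := hE2 y hy y0 hy0
              rwa [dist_eq_norm] at this)
            refine ⟨κ', h1, h2.trans (le_of_eq ?_)⟩
            field_simp
            norm_num)
        refine ⟨E ∩ Metric.closedBall (gp x (rs Λ M n j) q) (rs Λ M n j), ?_, hy, ?_⟩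
        · refine Finset.mem_image.mpr ⟨q, ?_, rfl⟩
          rw [hS0]
          rcases le_or_gt (b0 q) 39 with h | h
          · have h' : q ∈ bx 39 := (mem_bx (A := 39) (q := q)).mpr (by push_cast; exact h)
            exact Finset.mem_union_left _ h'
          · refine Finset.mem_union_right _ (Finset.mem_filter.mpr ⟨hq3 (by omega), ?_⟩)
            refine hY y (hE1 hy) _ _ ?_ ?_
            · rw [dist_eq_norm]
              linarith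
            · have h5 := h420 j
              have h6 : rs Λ M n j ≤ rs Λ M n j * M := le_mul_of_one_le_right hj0.le hM1
              linarith
        · rw [Metric.mem_closedBall, dist_eq_norm]
          exact hq2
      · intro c hc
        obtain ⟨q, -, rfl⟩ := Finset.mem_image.mp hc
        exact hpiece j E _ hE1
    · rintro j hj E ⟨hE1, hE2⟩ ⟨y0, hy0⟩
      have hj0 := hr0 j
      have hj0' : (rs Λ M n j : ℂ) ≠ 0 := by exact_mod_cast hj0.ne'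
      refine ⟨((bx (10 * M)).image
        (fun q => E ∩ Metric.closedBall (gp y0 (rs Λ M n j) q) (rs Λ M n j))), ?_, ?_, ?_⟩
      · refine Finset.card_image_le.trans ?_
        rw [card_bx]
        exact Nat.pow_le_pow_left (by omega) 2
      · intro y hy
        set q := rd ((y - y0) / (rs Λ M n j : ℂ)) with hq
        have hd : ‖y - y0‖ ≤ 8 * M * rs Λ M n j := by
          have := hE2 y hy y0 hy0
          rwa [dist_eq_norm] at this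
        have hn : ‖(y - y0) / (rs Λ M n j : ℂ)‖ ≤ 8 * M := by
          rw [norm_div, Complex.norm_real, Real.norm_eq_abs, abs_of_pos hj0, div_le_iff₀ hj0]
          exact hd
        refine ⟨E ∩ Metric.closedBall (gp y0 (rs Λ M n j) q) (rs Λ M n j), ?_, hy, ?_⟩
        · refine Finset.mem_image.mpr ⟨q, mem_bx.mpr ?_, rfl⟩
          refine b0_le_of (a := 8 * M + 1 / 2) ((hrd2 _).trans (by linarith))
            ((hrd3 _).trans (by linarith)) ?_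
          push_cast
          linarith
        · rw [Metric.mem_closedBall, dist_eq_norm, gp_eq]
          have e : y - (y0 + (rs Λ M n j : ℂ) * qc q) =
              (rs Λ M n j : ℂ) * ((y - y0) / (rs Λ M n j : ℂ) - qc q) := by
            field_simp
            ring
          rw [e, norm_mul, Complex.norm_real, Real.norm_eq_abs, abs_of_pos hj0]
          calc rs Λ M n j * ‖(y - y0) / (rs Λ M n j : ℂ) - qc q‖ ≤ rs Λ M n j * 1 :=
                mul_le_mul_of_nonneg_left (hrd1 _) hj0.le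
            _ = rs Λ M n j := mul_one _
      · intro c hc
        obtain ⟨q, -, rfl⟩ := Finset.mem_image.mp hc
        exact hpiece j E _ hE1
    · intro y hy
      have h1 := hJ (rd (y / (rs Λ M n J : ℂ))) (rd (κ y / (rs Λ M n J : ℂ)))
        (hlabb J y (hX y hy).1) (hlabb J (κ y) (hX y hy).2) (by
          have h2 := hD (xi Λ M n J (rd (y / (rs Λ M n J : ℂ)))) y
          have h3 := hlab J y
          have h4 := hdp y hy
          have h5 := h420 J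
          have h6 := hr0 J
          have h7 : (1:ℝ) / (2 * (n + 1)) = 1 / 2 * (1 / (n + 1)) := by field_simp
          have h8 : rs Λ M n J ≤ rs Λ M n J * M := le_mul_of_one_le_right h6.le hM1
          rw [h7]
          linarith)
      have h9 : nbd (bad J) y 0 J = nbad N f (xi Λ M n J (rd (y / (rs Λ M n J : ℂ)))) (rs Λ M n)
          (qi K Λ M n J (rd (κ y / (rs Λ M n J : ℂ)))) G J := by
        unfold nbd nbad nP
        rw [← Finset.range_eq_Ico]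
      rw [h9]
      exact h1.le
  refine dim_of_cover (ρ := 1 / (M:ℝ)) (by positivity) (by
      rw [div_lt_one hM0]; linarith) (a := 8 * M * rs Λ M n 0) (by have := hr0 0; positivity)
    (by positivity) (fun J => ((20 * M + 1) ^ 2) ^ ⌈ε * J⌉₊ * (G + 6241) ^ J) ?_ ?_
  · have hup : ∀ J : ℕ, ((((20 * M + 1) ^ 2) ^ ⌈ε * J⌉₊ * (G + 6241) ^ J : ℕ) : ℝ) *
        ((1 / (M:ℝ)) ^ J) ^ (γ + 6 * ε) ≤ (M:ℝ) ^ (3:ℝ) * ((M:ℝ) ^ (-ε)) ^ J := by
      intro J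
      have b1 : ((((20 * M + 1) ^ 2) ^ ⌈ε * J⌉₊ : ℕ) : ℝ) ≤ (M:ℝ) ^ (3 * (ε * J + 1)) := by
        push_cast
        have h1 := hpar.bd
        push_cast at h1
        have h2 : ((20 * (M:ℝ) + 1) ^ 2) ^ ⌈ε * J⌉₊ ≤ ((M:ℝ) ^ (3:ℝ)) ^ ⌈ε * J⌉₊ :=
          pow_le_pow_left₀ (by positivity) h1 _
        refine h2.trans ?_
        rw [← Real.rpow_natCast, ← Real.rpow_mul hM0.le]
        apply Real.rpow_le_rpow_of_exponent_le hM1
        have h3 : (⌈ε * J⌉₊ : ℝ) < ε * J + 1 := Nat.ceil_lt_add_one (by positivity)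
        linarith
      have b2 : (((G + 6241) ^ J : ℕ) : ℝ) ≤ (M:ℝ) ^ ((γ + 2 * ε) * J) := by
        have h1 := hpar.gd
        rw [Nat.cast_pow]
        refine (pow_le_pow_left₀ (Nat.cast_nonneg _) h1 J).trans (le_of_eq ?_)
        rw [← Real.rpow_natCast, ← Real.rpow_mul hM0.le]
      have b3 : ((1 / (M:ℝ)) ^ J) ^ (γ + 6 * ε) = (M:ℝ) ^ (-(J * (γ + 6 * ε))) := by
        rw [one_div, inv_pow, Real.inv_rpow (by positivity), ← Real.rpow_natCast,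
          ← Real.rpow_mul hM0.le, Real.rpow_neg hM0.le]
      rw [Nat.cast_mul, b3]
      calc ((((20 * M + 1) ^ 2) ^ ⌈ε * J⌉₊ : ℕ) : ℝ) * (((G + 6241) ^ J : ℕ) : ℝ) *
            (M:ℝ) ^ (-(J * (γ + 6 * ε)))
          ≤ (M:ℝ) ^ (3 * (ε * J + 1)) * (M:ℝ) ^ ((γ + 2 * ε) * J) *
            (M:ℝ) ^ (-(J * (γ + 6 * ε))) := by
            apply mul_le_mul_of_nonneg_right _ (by positivity)
            exact mul_le_mul b1 b2 (Nat.cast_nonneg _) (by positivity)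
        _ = (M:ℝ) ^ (3:ℝ) * ((M:ℝ) ^ (-ε)) ^ J := by
            rw [← Real.rpow_add hM0, ← Real.rpow_add hM0, ← Real.rpow_natCast ((M:ℝ) ^ (-ε)),
              ← Real.rpow_mul hM0.le, ← Real.rpow_add hM0]
            congr 1
            ring
    have hlim : Tendsto (fun J : ℕ => (M:ℝ) ^ (3:ℝ) * ((M:ℝ) ^ (-ε)) ^ J) atTop (𝓝 0) := by
      have h1 : (M:ℝ) ^ (-ε) < 1 := Real.rpow_lt_one_of_one_lt_of_neg (by linarith) (by linarith)
      have := (tendsto_pow_atTop_nhds_zero_of_lt_one (by positivity) h1).const_mul ((M:ℝ) ^ (3:ℝ))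
      rwa [mul_zero] at this
    exact squeeze_zero (fun J => by positivity) hup hlim
  · filter_upwards [hcov] with J hJ
    obtain ⟨s, h1, h2, h3⟩ := hJ
    refine ⟨s, h1, h2, fun c hc x hx y hy => ?_⟩
    refine ((h3 c hc).2 x hx y hy).trans (le_of_eq ?_)
    rw [hrsJ J]
    ring

/-- The deterministic part. -/
theorem det_all {D : ℂ → ℝ} (hD : ∀ x y : ℂ, D y ≤ D x + ‖y - x‖)
    {N : ℝ → ℂ → ℝ → Set C(unitInterval, ℂ)} {T : ℝ → C(unitInterval, ℂ) → Set ℂ}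
    (hTa : ∀ (f : C(unitInterval, ℂ)) (η η' : ℝ), η ≤ η' → T η' f ⊆ T η f)
    (hT : ∀ (f : C(unitInterval, ℂ)) (η s : ℝ) (w z : ℂ), 0 < η → w ∈ T η f → dist w z < s →
      8 * s ≤ η → f ∈ N η z s)
    {f : C(unitInterval, ℂ)} {K : Set ℂ} {c : ℕ → ℝ} {γ ε : ℝ}
    (hγ : 0 < γ) (hε : 0 < ε) (C2 : ℕ → ℝ) (k M : ℕ → ℕ)
    (hpar : ∀ Λ, 1 ≤ Λ → Par (c (k Λ)) (C2 Λ) γ ε Λ (k Λ) (M Λ))
    (hfew : ∀ Λ n Z : ℕ, 1 ≤ Λ → Few D (N (1 / ((n:ℝ) + 1))) K Λ (M Λ)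
      ⌈(M Λ:ℝ) ^ (γ + ε)⌉₊ ε n Z f) {A : Set ℂ}
    (hA : ∃ κ : ℂ → ℂ, ∀ x ∈ A, ∃ Λ n : ℕ, 1 ≤ Λ ∧ x ∈ Good K A Λ (M Λ) n κ) :
    dimH ((⋃ i : ℕ, T (1 / ((i:ℝ) + 1)) f) ∩ {x | 0 < D x} ∩ A) ≤
      ENNReal.ofReal (γ + 6 * ε) := by
  obtain ⟨κ, hκ⟩ := hA
  set Y : ℕ → ℕ → ℕ → (ℤ × ℤ) → Set ℂ := fun Λ N n q =>
    T (1 / ((n:ℝ) + 1)) f ∩ Good K A Λ (M Λ) N κ ∩
      {y | 1 / ((n:ℝ) + 1) ≤ D y ∧ ‖y‖ ≤ n} ∩
      {y | ‖y - (rs Λ (M Λ) (max N n) 0 : ℂ) * qc q‖ ≤ rs Λ (M Λ) (max N n) 0} with hY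
  have hsub : (⋃ i : ℕ, T (1 / ((i:ℝ) + 1)) f) ∩ {x | 0 < D x} ∩ A ⊆
      ⋃ Λ : ℕ, ⋃ N : ℕ, ⋃ n : ℕ, ⋃ q : ℤ × ℤ, Y (Λ + 1) N n q := by
    rintro y ⟨⟨h1, h2⟩, h3⟩
    obtain ⟨Λ, N, hΛ, hG⟩ := hκ y h3
    obtain ⟨i, hi⟩ := Set.mem_iUnion.mp h1
    obtain ⟨n1, hn1⟩ := exists_nat_one_div_lt (show 0 < D y from h2)
    obtain ⟨n2, hn2⟩ := exists_nat_ge ‖y‖
    obtain ⟨n, hn⟩ : ∃ n : ℕ, i ≤ n ∧ n1 ≤ n ∧ n2 ≤ n :=
      ⟨max i (max n1 n2), le_max_left _ _, (le_max_left _ _).trans (le_max_right _ _),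
        (le_max_right _ _).trans (le_max_right _ _)⟩
    have hM : 1 ≤ M Λ := by have := (hpar Λ hΛ).two; omega
    have hr := rs_pos hΛ hM (max N n) 0
    have hr' : (rs Λ (M Λ) (max N n) 0 : ℂ) ≠ 0 := by exact_mod_cast hr.ne'
    obtain ⟨q, hq, -, -⟩ := exists_round (y / (rs Λ (M Λ) (max N n) 0 : ℂ))
    simp only [Set.mem_iUnion]
    refine ⟨Λ - 1, N, n, q, ?_⟩
    have e : Λ - 1 + 1 = Λ := by omega
    rw [e]
    refine ⟨⟨⟨hTa f _ _ (Nat.one_div_le_one_div hn.1) hi, hG⟩, ?_, ?_⟩, ?_⟩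
    · exact (Nat.one_div_le_one_div hn.2.1).trans hn1.le
    · exact hn2.trans (by exact_mod_cast hn.2.2)
    · show ‖y - (rs Λ (M Λ) (max N n) 0 : ℂ) * qc q‖ ≤ rs Λ (M Λ) (max N n) 0
      have e2 : y - (rs Λ (M Λ) (max N n) 0 : ℂ) * qc q = (rs Λ (M Λ) (max N n) 0 : ℂ) *
          (y / (rs Λ (M Λ) (max N n) 0 : ℂ) - qc q) := by field_simp
      rw [e2, norm_mul, Complex.norm_real, Real.norm_eq_abs, abs_of_pos hr]
      calc rs Λ (M Λ) (max N n) 0 * ‖y / (rs Λ (M Λ) (max N n) 0 : ℂ) - qc q‖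
          ≤ rs Λ (M Λ) (max N n) 0 * 1 := mul_le_mul_of_nonneg_left hq hr.le
        _ = _ := mul_one _
  refine (dimH_mono hsub).trans ?_
  rw [dimH_iUnion]
  refine iSup_le fun Λ => ?_
  rw [dimH_iUnion]
  refine iSup_le fun N0 => ?_
  rw [dimH_iUnion]
  refine iSup_le fun n => ?_
  rw [dimH_iUnion]
  refine iSup_le fun q => ?_
  have hΛ : 1 ≤ Λ + 1 := by omega
  have hM2 := (hpar (Λ + 1) hΛ).two
  have hM : 1 ≤ M (Λ + 1) := by omega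
  have hM1 : (1:ℝ) ≤ M (Λ + 1) := by exact_mod_cast hM
  have hr := rs_pos hΛ hM (max N0 n) 0
  set N' := max N0 n with hN'
  have hNN : (N0:ℝ) ≤ N' := by exact_mod_cast le_max_left N0 n
  have hnN : (n:ℝ) ≤ N' := by exact_mod_cast le_max_right N0 n
  have hnN' : 1 / ((N':ℝ) + 1) ≤ 1 / ((n:ℝ) + 1) := Nat.one_div_le_one_div (le_max_right N0 n)
  obtain ⟨Z, hZ⟩ := exists_nat_ge (((n:ℝ) + N0) / rs (Λ + 1) (M (Λ + 1)) N' 0)
  refine det hD (N := N (1 / ((N':ℝ) + 1))) (η := 1 / ((N':ℝ) + 1)) hγ hε hΛ (hpar (Λ + 1) hΛ)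
    (n := N') (Z := Z) le_rfl (hfew (Λ + 1) N' Z hΛ) (κ := κ)
    (fun y hy z s h1 h2 => hT f _ s y z (by positivity)
      (hTa f _ _ hnN' hy.1.1.1) h1 h2) (fun y hy => hnN'.trans hy.1.2.1)
    (X0 := (n:ℝ) + N0) (fun y hy => ?_) hZ
    (fun y hy y' hy' => ?_) ?_
  · have h1 : ‖y‖ ≤ n := hy.1.2.2
    have h2 : ‖κ y‖ ≤ N0 := hy.1.1.2.2.1
    have hn0 : (0:ℝ) ≤ n := Nat.cast_nonneg n
    have hN0 : (0:ℝ) ≤ N0 := Nat.cast_nonneg N0
    constructor <;> linarith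
  · have h1 : ‖y - (rs (Λ + 1) (M (Λ + 1)) N' 0 : ℂ) * qc q‖ ≤ rs (Λ + 1) (M (Λ + 1)) N' 0 := hy.2
    have h2 : ‖y' - (rs (Λ + 1) (M (Λ + 1)) N' 0 : ℂ) * qc q‖ ≤ rs (Λ + 1) (M (Λ + 1)) N' 0 := hy'.2
    have h3 : dist y y' ≤ dist y ((rs (Λ + 1) (M (Λ + 1)) N' 0 : ℂ) * qc q) +
        dist y' ((rs (Λ + 1) (M (Λ + 1)) N' 0 : ℂ) * qc q) := by
      have := dist_triangle y ((rs (Λ + 1) (M (Λ + 1)) N' 0 : ℂ) * qc q) y'
      rwa [dist_comm ((rs (Λ + 1) (M (Λ + 1)) N' 0 : ℂ) * qc q) y'] at this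
    rw [dist_eq_norm y ((rs (Λ + 1) (M (Λ + 1)) N' 0 : ℂ) * qc q),
      dist_eq_norm y' ((rs (Λ + 1) (M (Λ + 1)) N' 0 : ℂ) * qc q)] at h3
    have h4 : rs (Λ + 1) (M (Λ + 1)) N' 0 ≤ M (Λ + 1) * rs (Λ + 1) (M (Λ + 1)) N' 0 :=
      le_mul_of_one_le_left hr.le hM1
    linarith
  · intro y hy ρ hρ hρ'
    obtain ⟨L, h1, h2, h3⟩ := hy.1.1.2.2.2 ρ hρ (hρ'.trans (by
      apply one_div_le_one_div_of_le (by positivity)
      linarith))
    exact ⟨L, h1, h2, fun y' hy' h => h3 y' hy'.1.1.2.1 h⟩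

/-- The uniform bound for all the modelled sets. -/
theorem modelled_ae {μ : Measure C(unitInterval, ℂ)} {D : ℂ → ℝ}
    (hD : ∀ x y : ℂ, D y ≤ D x + ‖y - x‖)
    {N : ℝ → ℂ → ℝ → Set C(unitInterval, ℂ)} {T : ℝ → C(unitInterval, ℂ) → Set ℂ}
    (hTa : ∀ (f : C(unitInterval, ℂ)) (η η' : ℝ), η ≤ η' → T η' f ⊆ T η f)
    (hT : ∀ (f : C(unitInterval, ℂ)) (η s : ℝ) (w z : ℂ), 0 < η → w ∈ T η f → dist w z < s →
      8 * s ≤ η → f ∈ N η z s)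
    {α C : ℝ} (hα : 0 ≤ α) (hC : 0 < C) (hmesh : ∀ η : ℝ, 0 < η → MeshB μ (N η) D η α C)
    {K : Set ℂ} {s : ℝ} (hK : ∀ s', s < s' → Hom K s') :
    ∀ᵐ f ∂μ, ∀ A : Set ℂ, Modelled K A →
      dimH ((⋃ i : ℕ, T (1 / ((i:ℝ) + 1)) f) ∩ {x | 0 < D x} ∩ A) ≤ ENNReal.ofReal (s - α) := by
  set s0 : ℝ := max s α with hs0
  have key : ∀ e : ℕ, ∃ (C2 : ℕ → ℝ) (k M : ℕ → ℕ), ∀ Λ, 1 ≤ Λ →
      Par (cg C (k Λ)) (C2 Λ) (s0 + 1 / ((e:ℝ) + 1) - α) (1 / ((e:ℝ) + 1)) Λ (k Λ) (M Λ) ∧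
      0 < C2 Λ ∧ ∀ (r : ℝ) (k : ℂ), 0 < r → 420 * Λ * r * M Λ ≤ 1 →
        OkF α (fam K Λ (M Λ) r k) 20 (10 * M Λ)
          (C2 Λ * (M Λ : ℝ) ^ (s0 + 1 / ((e:ℝ) + 1) - α)) := by
    intro e
    have he : (0:ℝ) < 1 / ((e:ℝ) + 1) := by positivity
    have h1 : s < s0 + 1 / ((e:ℝ) + 1) := by
      have := le_max_left s α
      linarith
    have h2 : α < s0 + 1 / ((e:ℝ) + 1) := by
      have := le_max_right s α
      linarith
    have hch : ∀ Λ : ℕ, ∃ (C2 : ℝ) (k M : ℕ), 1 ≤ Λ →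
        Par (cg C k) C2 (s0 + 1 / ((e:ℝ) + 1) - α) (1 / ((e:ℝ) + 1)) Λ k M ∧ 0 < C2 ∧
        ∀ (r : ℝ) (k : ℂ), 0 < r → 420 * Λ * r * M ≤ 1 →
          OkF α (fam K Λ M r k) 20 (10 * M)
            (C2 * (M : ℝ) ^ (s0 + 1 / ((e:ℝ) + 1) - α)) := by
      intro Λ
      by_cases hΛ : 1 ≤ Λ
      · obtain ⟨C2, hC2, h3⟩ := fam_ok hα h2 (hK _ h1) hΛ
        obtain ⟨k, M, hp⟩ := exists_par (c := cg C)
          (fun k => lt_of_lt_of_le one_pos (cg_one hC k)) hC2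
          (γ := s0 + 1 / ((e:ℝ) + 1) - α) (by linarith) he Λ
        exact ⟨C2, k, M, fun _ => ⟨hp, hC2, fun r k hr h4 => h3 M r k
          (by have := hp.two; omega) hr h4⟩⟩
      · exact ⟨0, 0, 0, fun h => absurd h hΛ⟩
    choose C2 k M h using hch
    exact ⟨C2, k, M, h⟩
  choose C2 k M hkey using key
  have hae : ∀ᵐ f ∂μ, ∀ e Λ n Z : ℕ, 1 ≤ Λ → Few D (N (1 / ((n:ℝ) + 1))) K Λ (M e Λ)
      ⌈(M e Λ:ℝ) ^ (s0 + 1 / ((e:ℝ) + 1) - α + 1 / ((e:ℝ) + 1))⌉₊ (1 / ((e:ℝ) + 1)) n Z f := by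
    rw [ae_all_iff]; intro e
    rw [ae_all_iff]; intro Λ
    rw [ae_all_iff]; intro n
    rw [ae_all_iff]; intro Z
    by_cases hΛ : 1 ≤ Λ
    · obtain ⟨h1, h2, h3⟩ := hkey e Λ hΛ
      filter_upwards [few_ae hC (hmesh (1 / ((n:ℝ) + 1)) (by positivity)) h2 (by positivity)
        hΛ h3 h1 n Z le_rfl] with f hf _
      exact hf
    · exact Filter.Eventually.of_forall fun f h => absurd h hΛ
  filter_upwards [hae] with f hf A hAm
  have hb : ∀ e : ℕ, dimH ((⋃ i : ℕ, T (1 / ((i:ℝ) + 1)) f) ∩ {x | 0 < D x} ∩ A) ≤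
      ENNReal.ofReal ((s0 - α) + 7 * (1 / ((e:ℝ) + 1))) := by
    intro e
    have he : (0:ℝ) < 1 / ((e:ℝ) + 1) := by positivity
    have hγ : 0 < s0 + 1 / ((e:ℝ) + 1) - α := by
      have := le_max_right s α
      linarith
    have h1 := det_all hD hTa hT (f := f) (K := K) (A := A) (c := cg C) hγ he (C2 e) (k e) (M e)
      (fun Λ hΛ => (hkey e Λ hΛ).1) (fun Λ n Z hΛ => hf e Λ n Z hΛ)
      (modelled_good hAm (M e) (fun Λ hΛ => by have := (hkey e Λ hΛ).1.two; omega))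
    refine h1.trans (ENNReal.ofReal_le_ofReal (le_of_eq ?_))
    ring
  have hlim2 : Tendsto (fun e : ℕ => ENNReal.ofReal ((s0 - α) + 7 * (1 / ((e:ℝ) + 1)))) atTop
      (𝓝 (ENNReal.ofReal (s0 - α))) := by
    refine ENNReal.tendsto_ofReal ?_
    have h1 := (tendsto_one_div_add_atTop_nhds_zero_nat (𝕜 := ℝ)).const_mul (7:ℝ)
    have h2 := h1.const_add (s0 - α)
    simpa using h2
  refine (ge_of_tendsto' hlim2 hb).trans (le_of_eq ?_)
  rcases le_or_gt s α with h | h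
  · rw [hs0, max_eq_right h, sub_self, ENNReal.ofReal_zero, ENNReal.ofReal_of_nonpos (by linarith)]
  · rw [hs0, max_eq_left h.le]

end K93G
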