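import Pool.Agent.K3h60.EX.Der
import Pool.Agent.K3h53.UG.Stm4

/-!
# The dimension count for a variety over a hypersurface
-/

set_option autoImplicit false
set_option linter.style.haveILetI false

namespace Pool.Agent.K3h93.UG

open MvPolynomial Set Pool.Agent.K3h22.EX Pool.Agent.K3h53.UG

/-- the names of the variables: `y_i`, `y_k` and the `x_j`, `j ≠ m` -/
def nm {n : ℕ} (m k i : Fin n) : Option (Option {j : Fin n // j ≠ m}) → Fin n ⊕ Fin n
  | none => Sum.inr i
  | some none => Sum.inr k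
  | some (some j) => Sum.inl j.1

theorem nm_inj {n : ℕ} {m k i : Fin n} (h : i ≠ k) : Function.Injective (nm m k i) := by
  rintro (_ | _ | ⟨a, ha⟩) (_ | _ | ⟨b, hb⟩) hab
  · rfl
  · exact absurd (Sum.inr_injective hab) h
  · exact absurd hab (by simp [nm])
  · exact absurd (Sum.inr_injective hab).symm h
  · rfl
  · exact absurd hab (by simp [nm])
  · exact absurd hab (by simp [nm])
  · exact absurd hab (by simp [nm])
  · have : a = b := Sum.inl_injective hab
    subst this
    rfl

/-- the polynomial in two variables over the ring of polynomials in `x` -/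
noncomputable def two {n : ℕ} (m : Fin n) :
    MvPolynomial (Option (Option {j : Fin n // j ≠ m})) ℂ →+*
      Polynomial (Polynomial (MvPolynomial (Fin n) ℂ)) :=
  (Polynomial.mapRingHom (Polynomial.mapRingHom
    (rename (Subtype.val : {j : Fin n // j ≠ m} → Fin n)).toRingHom)).comp
    ((Polynomial.mapRingHom (optionEquivLeft ℂ {j : Fin n // j ≠ m}).toRingHom).comp
      (optionEquivLeft ℂ (Option {j : Fin n // j ≠ m})).toRingHom)

theorem two_eval {n : ℕ} (m k i : Fin n)
    (f : MvPolynomial (Option (Option {j : Fin n // j ≠ m})) ℂ) :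
    (two m f).eval₂ (Polynomial.eval₂RingHom
        ((rename (Sum.inl : Fin n → Fin n ⊕ Fin n) :
          MvPolynomial (Fin n) ℂ →ₐ[ℂ] MvPolynomial (Fin n ⊕ Fin n) ℂ) :
          MvPolynomial (Fin n) ℂ →+* MvPolynomial (Fin n ⊕ Fin n) ℂ)
        (X (Sum.inr k))) (X (Sum.inr i)) = rename (nm m k i) f := by
  have h : (Polynomial.eval₂RingHom (Polynomial.eval₂RingHom
        ((rename (Sum.inl : Fin n → Fin n ⊕ Fin n) :
          MvPolynomial (Fin n) ℂ →ₐ[ℂ] MvPolynomial (Fin n ⊕ Fin n) ℂ) :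
          MvPolynomial (Fin n) ℂ →+* MvPolynomial (Fin n ⊕ Fin n) ℂ)
        (X (Sum.inr k))) (X (Sum.inr i))).comp (two m) =
      ((rename (nm m k i) : _ →ₐ[ℂ] MvPolynomial (Fin n ⊕ Fin n) ℂ) : _ →+* _) := by
    refine MvPolynomial.ringHom_ext (fun r => ?_) ?_
    · simp [two]
    · rintro (_ | _ | ⟨j, hj⟩)
      · simp [two, nm]
      · simp [two, nm]
      · simp [two, nm]
  exact congrArg (fun g => g f) h

theorem two_coeff {n : ℕ} (m : Fin n)
    {f : MvPolynomial (Option (Option {j : Fin n // j ≠ m})) ℂ} (hf : f ≠ 0) :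
    ∃ (a b : ℕ) (c : MvPolynomial {j : Fin n // j ≠ m} ℂ), c ≠ 0 ∧
      ((two m f).coeff a).coeff b = rename Subtype.val c := by
  have h1 : optionEquivLeft ℂ (Option {j : Fin n // j ≠ m}) f ≠ 0 := by
    intro h
    exact hf ((map_eq_zero_iff _ (AlgEquiv.injective _)).1 h)
  obtain ⟨a, ha⟩ : ∃ a, (optionEquivLeft ℂ (Option {j : Fin n // j ≠ m}) f).coeff a ≠ 0 := by
    by_contra hcon
    push Not at hcon
    exact h1 (Polynomial.ext fun a => by rw [hcon a, Polynomial.coeff_zero])
  have h2 : optionEquivLeft ℂ {j : Fin n // j ≠ m}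
      ((optionEquivLeft ℂ (Option {j : Fin n // j ≠ m}) f).coeff a) ≠ 0 := by
    intro h
    exact ha ((map_eq_zero_iff _ (AlgEquiv.injective _)).1 h)
  obtain ⟨b, hb⟩ : ∃ b, (optionEquivLeft ℂ {j : Fin n // j ≠ m}
      ((optionEquivLeft ℂ (Option {j : Fin n // j ≠ m}) f).coeff a)).coeff b ≠ 0 := by
    by_contra hcon
    push Not at hcon
    exact h2 (Polynomial.ext fun a => by rw [hcon a, Polynomial.coeff_zero])
  refine ⟨a, b, _, hb, ?_⟩
  simp [two, Polynomial.coeff_map]

/-- a nonzero polynomial without the variable `x_m` is not a multiple of `F` -/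
theorem not_dvd {n : ℕ} {m : Fin n} {F G : MvPolynomial (Fin n) ℂ} (hm : m ∈ F.vars)
    (hG : m ∉ G.vars) (h0 : G ≠ 0) : ¬ F ∣ G := by
  rintro ⟨H, rfl⟩
  have hF : F ≠ 0 := left_ne_zero_of_mul h0
  have hH : H ≠ 0 := right_ne_zero_of_mul h0
  rw [mem_vars_iff_degreeOf_ne_zero, not_not, degreeOf_mul_eq hF hH] at hG
  rw [mem_vars_iff_degreeOf_ne_zero] at hm
  omega

theorem vars_rename_val {n : ℕ} {m : Fin n} (c : MvPolynomial {j : Fin n // j ≠ m} ℂ) :
    m ∉ (rename (Subtype.val : {j : Fin n // j ≠ m} → Fin n) c).vars := by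
  classical
  intro h
  have := vars_rename (Subtype.val : {j : Fin n // j ≠ m} → Fin n) c h
  rw [Finset.mem_image] at this
  obtain ⟨j, -, hj⟩ := this
  exact j.2 hj

theorem exists_var {n : ℕ} {F : MvPolynomial (Fin n) ℂ} (h0 : F ≠ 0) (hu : ¬ IsUnit F) :
    ∃ m, m ∈ F.vars := by
  by_contra hcon
  push Not at hcon
  have h1 : F ∈ MvPolynomial.supported ℂ (∅ : Set (Fin n)) := by
    rw [MvPolynomial.mem_supported]
    intro m hm
    exact absurd hm (hcon m)
  rw [MvPolynomial.supported_empty, Algebra.mem_bot] at h1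
  obtain ⟨a, rfl⟩ := h1
  apply hu
  have ha : a ≠ 0 := by
    rintro rfl
    exact h0 (map_zero _)
  exact (IsUnit.mk0 a ha).map _

theorem t_FIB : S_FIB := by
  classical
  intro s P V hP hV hne hK hK2 F hF0 hFG
  haveI := hP
  have hD := Pool.Agent.K3h60.EX.t_DER (s + 1) 0 P V hP hV hne Fin.elim0
    (fun a => Fin.elim0 a)
  -- the ideal of `V`
  have hI : ∀ f : MvPolynomial (Fin (s + 1) ⊕ Fin (s + 1)) ℂ,
      (∀ p ∈ V, eval p f = 0) ↔ f ∈ P := by
    intro f
    refine ⟨hD.1 f, fun hf p hp => ?_⟩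
    rw [hV] at hp
    exact hp.1 f hf
  obtain ⟨φ, hφ⟩ : ∃ φ : MvPolynomial (Fin (s + 1)) ℂ →ₐ[ℂ]
      MvPolynomial (Fin (s + 1) ⊕ Fin (s + 1)) ℂ, φ = rename Sum.inl := ⟨_, rfl⟩
  have hker : ∀ G, φ G ∈ P ↔ F ∣ G := by
    intro G
    rw [← hFG, ← hI]
    refine forall₂_congr fun u _ => ?_
    rw [hφ, eval_rename]
    rfl
  have hunit : ¬ IsUnit F := by
    intro h
    have h1 := (hker 1).2 h.dvd
    rw [map_one] at h1
    exact hP.ne_top ((Ideal.eq_top_iff_one _).2 h1)
  have hprime : Prime F := by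
    refine ⟨hF0, hunit, fun a b hab => ?_⟩
    rw [← hker, map_mul] at hab
    rcases hP.mem_or_mem hab with h | h
    · exact Or.inl ((hker a).1 h)
    · exact Or.inr ((hker b).1 h)
  obtain ⟨m, hm⟩ := exists_var hF0 hunit
  -- the coordinate ring
  obtain ⟨z, hz⟩ : ∃ z : Fin (s + 1) ⊕ Fin (s + 1) →
      (MvPolynomial (Fin (s + 1) ⊕ Fin (s + 1)) ℂ ⧸ P), z = fun c => Ideal.Quotient.mk P (X c) :=
    ⟨_, rfl⟩
  have haev : ∀ f, aeval z f = Ideal.Quotient.mk P f := by
    intro f
    have h1 : (aeval z : _ →ₐ[ℂ] _) = Ideal.Quotient.mkₐ ℂ P := by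
      refine MvPolynomial.algHom_ext fun c => ?_
      rw [aeval_X, hz]
      rfl
    rw [h1]
    rfl
  have haev0 : ∀ f, aeval z f = 0 ↔ f ∈ P := by
    intro f
    rw [haev, Ideal.Quotient.eq_zero_iff_mem]
  -- independence
  have hind : ∀ J : Finset (Fin (s + 1) ⊕ Fin (s + 1)),
      AlgebraicIndepOn ℂ z (J : Set _) ↔ ∀ f : MvPolynomial (Fin (s + 1) ⊕ Fin (s + 1)) ℂ,
        f.vars ⊆ J → f ∈ P → f = 0 := by
    intro J
    unfold AlgebraicIndepOn
    rw [algebraicIndependent_iff]
    constructor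
    · intro h f hf hfP
      obtain ⟨g, rfl⟩ := exists_rename_eq_of_vars_subset_range f
        (Subtype.val : ↥(J : Set (Fin (s + 1) ⊕ Fin (s + 1))) → _) Subtype.val_injective
        (by rw [Subtype.range_coe]; exact_mod_cast hf)
      rw [← haev0, aeval_rename] at hfP
      rw [h g hfP, map_zero]
    · intro h g hg
      have h1 : rename (Subtype.val : ↥(J : Set (Fin (s + 1) ⊕ Fin (s + 1))) → _) g = 0 := by
        refine h _ ?_ ?_
        · refine (vars_rename _ _).trans ?_
          intro c hc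
          rw [Finset.mem_image] at hc
          obtain ⟨d, -, rfl⟩ := hc
          exact d.2
        · rw [← haev0, aeval_rename]
          exact hg
      exact (rename_injective _ Subtype.val_injective) (h1.trans (map_zero _).symm)
  -- the coordinates `x_i`, `i ≠ m`
  obtain ⟨S, hS⟩ : ∃ S : Finset (Fin (s + 1) ⊕ Fin (s + 1)),
      S = (Finset.univ.erase m).image Sum.inl := ⟨_, rfl⟩
  have hmemS : ∀ c, c ∈ S ↔ ∃ j, j ≠ m ∧ c = Sum.inl j := by
    intro c
    rw [hS, Finset.mem_image]
    constructor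
    · rintro ⟨j, hj, rfl⟩
      exact ⟨j, (Finset.mem_erase.1 hj).1, rfl⟩
    · rintro ⟨j, hj, rfl⟩
      exact ⟨j, Finset.mem_erase.2 ⟨hj, Finset.mem_univ _⟩, rfl⟩
  have hcardS : S.card = s := by
    rw [hS, Finset.card_image_of_injective _ Sum.inl_injective, Finset.card_erase_of_mem
      (Finset.mem_univ m), Finset.card_univ, Fintype.card_fin, Nat.add_sub_cancel]
  have hSind : AlgebraicIndepOn ℂ z (S : Set _) := by
    rw [hind]
    intro f hf hfP
    obtain ⟨G, rfl⟩ := exists_rename_eq_of_vars_subset_range f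
      (Sum.inl : Fin (s + 1) → Fin (s + 1) ⊕ Fin (s + 1)) Sum.inl_injective (by
        intro c hc
        obtain ⟨j, -, rfl⟩ := (hmemS c).1 (hf hc)
        exact ⟨j, rfl⟩)
    rw [← hφ, hker] at hfP
    by_contra h0
    have hG0 : G ≠ 0 := by
      rintro rfl
      exact h0 (map_zero _)
    refine not_dvd hm ?_ hG0 hfP
    intro hmG
    have h1 : (Sum.inl m : Fin (s + 1) ⊕ Fin (s + 1)) ∈
        (rename (Sum.inl : Fin (s + 1) → Fin (s + 1) ⊕ Fin (s + 1)) G).vars := by
      rw [mem_vars_iff_degreeOf_ne_zero] at hmG ⊢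
      rwa [degreeOf_rename_of_injective Sum.inl_injective]
    obtain ⟨j, hj, hj'⟩ := (hmemS _).1 (hf h1)
    exact hj (Sum.inl_injective hj').symm
  -- `x_m` is algebraic over them
  have halgm : IsAlgebraic (Algebra.adjoin ℂ (z '' (S : Set _))) (z (Sum.inl m)) := by
    by_contra htr
    have h1 := AlgebraicIndepOn.insert hSind htr
    have h2 : AlgebraicIndepOn ℂ z ((insert (Sum.inl m) S : Finset _) : Set _) := by
      rw [Finset.coe_insert]
      exact h1
    rw [hind] at h2
    have h3 : φ F = 0 := by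
      refine h2 _ ?_ ((hker F).2 dvd_rfl)
      rw [hφ]
      refine (vars_rename _ _).trans ?_
      intro c hc
      obtain ⟨j, -, rfl⟩ := Finset.mem_image.1 hc
      rw [Finset.mem_insert]
      by_cases hj : j = m
      · left; rw [hj]
      · right
        exact (hmemS _).2 ⟨j, hj, rfl⟩
    rw [hφ] at h3
    exact hF0 (rename_injective _ Sum.inl_injective (h3.trans (map_zero _).symm))
  have halgx : ∀ j, IsAlgebraic (Algebra.adjoin ℂ (z '' (S : Set _))) (z (Sum.inl j)) := by
    intro j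
    by_cases hj : j = m
    · rw [hj]; exact halgm
    · exact isAlgebraic_algebraMap (⟨z (Sum.inl j), Algebra.subset_adjoin
        ⟨Sum.inl j, (hmemS _).2 ⟨j, hj, rfl⟩, rfl⟩⟩ : Algebra.adjoin ℂ (z '' (S : Set _)))
  -- some `y_k` is transcendental over them
  obtain ⟨k, hk⟩ : ∃ k, Transcendental (Algebra.adjoin ℂ (z '' (S : Set _))) (z (Sum.inr k)) := by
    by_contra hcon
    have hcon' : ∀ k, IsAlgebraic (Algebra.adjoin ℂ (z '' (S : Set _))) (z (Sum.inr k)) := by
      intro k
      by_contra h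
      exact hcon ⟨k, h⟩
    have hall : Algebra.IsAlgebraic (Algebra.adjoin ℂ (z '' (S : Set _)))
        (MvPolynomial (Fin (s + 1) ⊕ Fin (s + 1)) ℂ ⧸ P) := by
      constructor
      intro a
      refine IsAlgebraic.adjoin_of_forall_isAlgebraic (R := ℂ) (s := range z) ?_ ?_
      · rintro _ ⟨⟨c, rfl⟩, -⟩
        rcases c with j | k
        · exact halgx j
        · exact hcon' k
      · have hmem : a ∈ Algebra.adjoin ℂ (range z) := by
          obtain ⟨f, rfl⟩ := Ideal.Quotient.mk_surjective a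
          rw [← haev, Algebra.adjoin_range_eq_range_aeval]
          exact ⟨f, rfl⟩
        exact isAlgebraic_algebraMap (⟨a, hmem⟩ : Algebra.adjoin ℂ (range z))
    have h1 := Algebra.IsAlgebraic.trdeg_le_cardinalMk ℂ (z '' (S : Set _))
    obtain ⟨K, hKc, hKi⟩ := hK
    have hKi' : AlgebraicIndepOn ℂ z (K : Set _) := by
      rw [hind]
      intro f hf hfP
      exact hKi f hf ((hI f).2 hfP)
    have h2 := AlgebraicIndependent.cardinalMk_le_trdeg hKi'
    have h3 := h2.trans h1
    have h4 : Cardinal.mk (z '' (S : Set (Fin (s + 1) ⊕ Fin (s + 1)))) ≤ (s : Cardinal) := by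
      refine Cardinal.mk_image_le.trans ?_
      rw [Finset.coe_sort_coe, Cardinal.mk_coe_finset, hcardS]
    have h5 := h3.trans h4
    rw [Finset.coe_sort_coe, Cardinal.mk_coe_finset, hKc] at h5
    exact absurd (Nat.cast_le.1 h5) (by omega)
  refine ⟨hprime, k, ?_, ?_⟩
  · -- the first property
    intro g hg i
    rw [← hφ] at hg
    rw [← hker, ← haev0]
    by_contra hne0
    apply hk
    refine IsAlgebraic.adjoin_of_forall_isAlgebraic (R := ℂ)
      (s := z '' range (Sum.inl : Fin (s + 1) → Fin (s + 1) ⊕ Fin (s + 1))) ?_ ?_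
    · rintro _ ⟨⟨_, ⟨j, rfl⟩, rfl⟩, -⟩
      exact halgx j
    · have hmem : ∀ G, aeval z (φ G) ∈ Algebra.adjoin ℂ
          (z '' range (Sum.inl : Fin (s + 1) → Fin (s + 1) ⊕ Fin (s + 1))) := by
        intro G
        rw [hφ, aeval_rename, ← range_comp, Algebra.adjoin_range_eq_range_aeval]
        exact ⟨G, rfl⟩
      obtain ⟨ψ, hψ⟩ : ∃ ψ : MvPolynomial (Fin (s + 1)) ℂ →+* Algebra.adjoin ℂ
          (z '' range (Sum.inl : Fin (s + 1) → Fin (s + 1) ⊕ Fin (s + 1))),
          ∀ G, (ψ G : MvPolynomial (Fin (s + 1) ⊕ Fin (s + 1)) ℂ ⧸ P) = aeval z (φ G) :=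
        ⟨(((aeval z).comp φ).codRestrict _ hmem : _ →ₐ[ℂ] _), fun G => rfl⟩
      refine ⟨g.map ψ, ?_, ?_⟩
      · intro h0
        apply hne0
        have h1 := congrArg (fun q => Polynomial.coeff q i) h0
        simp only [Polynomial.coeff_map, Polynomial.coeff_zero] at h1
        rw [← hψ, h1]
        rfl
      · rw [Polynomial.aeval_def, Polynomial.eval₂_map]
        have h1 : (algebraMap (Algebra.adjoin ℂ
            (z '' range (Sum.inl : Fin (s + 1) → Fin (s + 1) ⊕ Fin (s + 1))))
            (MvPolynomial (Fin (s + 1) ⊕ Fin (s + 1)) ℂ ⧸ P)).comp ψ =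
            (Ideal.Quotient.mk P).comp (φ : _ →+* _) := by
          refine RingHom.ext fun G => ?_
          rw [RingHom.comp_apply, RingHom.comp_apply]
          exact (hψ G).trans (haev _)
        rw [h1, hz, ← Polynomial.hom_eval₂]
        exact Ideal.Quotient.eq_zero_iff_mem.2 hg
  · -- the second property
    intro i
    by_cases hik : i = k
    · subst hik
      refine ⟨Polynomial.X - Polynomial.C Polynomial.X, ⟨1, 0, ?_⟩, ?_⟩
      · intro h
        rw [Polynomial.coeff_sub, Polynomial.coeff_X_one, Polynomial.coeff_C_of_ne_zero one_ne_zero,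
          sub_zero, Polynomial.coeff_one_zero] at h
        exact hunit (isUnit_of_dvd_one h)
      · rw [Polynomial.eval₂_sub, Polynomial.eval₂_X, Polynomial.eval₂_C,
          Polynomial.coe_eval₂RingHom, Polynomial.eval₂_X, sub_self]
        exact P.zero_mem
    · obtain ⟨J, hJ⟩ : ∃ J : Finset (Fin (s + 1) ⊕ Fin (s + 1)),
          J = insert (Sum.inr i) (insert (Sum.inr k) S) := ⟨_, rfl⟩
      have hnS : ∀ j, (Sum.inr j : Fin (s + 1) ⊕ Fin (s + 1)) ∉ S := by
        intro j hj
        obtain ⟨l, -, hl⟩ := (hmemS _).1 hj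
        exact absurd hl (by simp)
      have hJc : J.card = s + 2 := by
        rw [hJ, Finset.card_insert_of_notMem, Finset.card_insert_of_notMem (hnS k), hcardS]
        rw [Finset.mem_insert]
        rintro (h | h)
        · exact hik (Sum.inr_injective h)
        · exact hnS i h
      have h1 := hK2 J hJc
      unfold Indep at h1
      push Not at h1
      obtain ⟨f, hf1, hf2, hf3⟩ := h1
      obtain ⟨f', rfl⟩ := exists_rename_eq_of_vars_subset_range f (nm m k i) (nm_inj hik) (by
        intro c hc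
        have hc' := hf1 hc
        rw [hJ, Finset.mem_insert, Finset.mem_insert, hmemS] at hc'
        rcases hc' with rfl | rfl | ⟨j, hj, rfl⟩
        · exact ⟨none, rfl⟩
        · exact ⟨some none, rfl⟩
        · exact ⟨some (some ⟨j, hj⟩), rfl⟩)
      have hf0 : f' ≠ 0 := by
        rintro rfl
        exact hf3 (map_zero _)
      refine ⟨two m f', ?_, ?_⟩
      · obtain ⟨a, b, c, hc, hab⟩ := two_coeff m hf0
        refine ⟨a, b, ?_⟩
        rw [hab]
        refine not_dvd hm (vars_rename_val c) fun h => hc ?_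
        exact rename_injective _ Subtype.val_injective (h.trans (map_zero _).symm)
      · rw [two_eval]
        exact (hI _).1 hf2

end Pool.Agent.K3h93.UG
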