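import Pool.Agent.K3h93.UR.Fam

/-!
A sharp bound for the probability that there are arms around several boxes, for a general type of
arms.
-/

namespace K93G

open H974 Finset H342P H984P H984N H443P H443U K93U

/-- The weight `m ^ (-α)`. -/
noncomputable def wt (α : ℝ) (m : ℤ) : ℝ := if m ≤ 0 then 1 else (m : ℝ) ^ (-α)

theorem wt_pos (α : ℝ) (m : ℤ) : 0 < wt α m := by
  unfold wt
  split_ifs with h
  · exact one_pos
  · exact Real.rpow_pos_of_pos (by exact_mod_cast (by omega : 0 < m)) _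

theorem wt_le_one {α : ℝ} (hα : 0 ≤ α) (m : ℤ) : wt α m ≤ 1 := by
  unfold wt
  split_ifs with h
  · exact le_rfl
  · exact Real.rpow_le_one_of_one_le_of_nonpos (by exact_mod_cast (by omega : 1 ≤ m)) (by linarith)

theorem wt_anti {α : ℝ} (hα : 0 ≤ α) {m m' : ℤ} (h : m ≤ m') : wt α m' ≤ wt α m := by
  rcases le_or_gt m 0 with h0 | h0
  · have e : wt α m = 1 := by unfold wt; rw [if_pos h0]
    rw [e]
    exact wt_le_one hα _
  · unfold wt
    rw [if_neg (by omega), if_neg (by omega)]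
    exact Real.rpow_le_rpow_of_nonpos (by exact_mod_cast h0) (by exact_mod_cast h) (by linarith)

theorem wt_cast (α : ℝ) {n : ℕ} (h : 0 < n) : wt α (n : ℤ) = (n : ℝ) ^ (-α) := by
  unfold wt
  rw [if_neg (by omega), Int.cast_natCast]

/-- A type of arms across annuli: local, and unlikely. -/
structure ArmSys (α C : ℝ) (Cx : Vtx → ℕ → ℕ → Finset Edg → Prop) : Prop where
  loc : ∀ (v : Vtx) (a b : ℕ) (F : Finset Edg), Cx v a b F ↔ Cx v a b (F ∩ sh v a b)
  pr : ∀ (S : Finset Edg) (v : Vtx) (a b : ℕ), a + 2 ≤ b → sh v a b ⊆ S →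
    P S (Cx v a b) ≤ C * (((a : ℝ) + 1) / b) ^ α

theorem ArmSys.loc' {α C : ℝ} {Cx : Vtx → ℕ → ℕ → Finset Edg → Prop} (h : ArmSys α C Cx)
    {v : Vtx} {a b : ℕ} {Y : Finset Edg} (hY : sh v a b ⊆ Y) (F : Finset Edg) :
    Cx v a b F ↔ Cx v a b (F ∩ Y) := by
  rw [h.loc v a b F, h.loc v a b (F ∩ Y), Finset.inter_assoc, Finset.inter_eq_right.mpr hY]

/-- Arms across all the annuli with radii between `a` and `b` which avoid the intervals. -/
def EA (Cx : Vtx → ℕ → ℕ → Finset Edg → Prop) (v : Vtx) (L a b : ℕ) (ℬ : List (ℕ × ℕ))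
    (F : Finset Edg) : Prop :=
  ∀ s t : ℕ, a ≤ s → s + 2 ≤ t → t ≤ b → av ℬ s t → Cx v (L * s) (L * t) F

theorem EA_local {α C : ℝ} {Cx : Vtx → ℕ → ℕ → Finset Edg → Prop} (h : ArmSys α C Cx)
    {v : Vtx} {L a b : ℕ} {ℬ : List (ℕ × ℕ)} {Y : Finset Edg}
    (hY : ∀ s t : ℕ, a ≤ s → s + 2 ≤ t → t ≤ b → av ℬ s t → sh v (L * s) (L * t) ⊆ Y)
    (F : Finset Edg) : EA Cx v L a b ℬ F ↔ EA Cx v L a b ℬ (F ∩ Y) := by
  unfold EA
  refine forall_congr' fun s => forall_congr' fun t => forall_congr' fun h1 =>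
    forall_congr' fun h2 => forall_congr' fun h3 => forall_congr' fun h4 => ?_
  exact h.loc' (hY s t h1 h2 h3 h4) F

/-- The constants. -/
noncomputable def cg (C : ℝ) : ℕ → ℝ
  | 0 => C + 1
  | n + 1 => 9 * cg C n ^ 2

theorem cg_one {C : ℝ} (hC : 0 < C) (n : ℕ) : 1 ≤ cg C n := by
  induction n with
  | zero => simp only [cg]; linarith
  | succ n ih => simp only [cg]; nlinarith

theorem cg_mono1 {C : ℝ} (hC : 0 < C) (n : ℕ) : cg C n ≤ cg C (n + 1) := by
  have := cg_one hC n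
  simp only [cg]
  nlinarith

theorem cg_mono {C : ℝ} (hC : 0 < C) {m n : ℕ} (h : m ≤ n) : cg C m ≤ cg C n :=
  monotone_nat_of_le_succ (cg_mono1 hC) h

/-- The one-point bound with excluded intervals. -/
theorem EA_pr {α C : ℝ} (hα : 0 ≤ α) (hα2 : α ≤ 2) (hC : 0 < C)
    {Cx : Vtx → ℕ → ℕ → Finset Edg → Prop} (hA : ArmSys α C Cx) {S : Finset Edg} {v : Vtx} {L : ℕ}
    (hL : 1 ≤ L) (ℬ : List (ℕ × ℕ)) (hℬ : ∀ p ∈ ℬ, p.2 ≤ 2 * p.1 ∧ p.1 ≤ p.2) (a b : ℕ)
    (hb : 1 ≤ b) (hS : sh v (L * a) (L * b) ⊆ S) :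
    P S (EA Cx v L a b ℬ) ≤ cg C ℬ.length * (((a : ℝ) + 1) / b) ^ α := by
  have hL0 : (0:ℝ) < L := by exact_mod_cast hL
  have hL1 : (1:ℝ) ≤ L := by exact_mod_cast hL
  have triv : ∀ (n a b : ℕ), 1 ≤ b → b ≤ a + 1 → ∀ A : Finset Edg → Prop,
      P S A ≤ cg C n * (((a : ℝ) + 1) / b) ^ α := by
    intro n a b hb hba A
    have h1 : P S A ≤ 1 := Pr_le_one okh _ _
    have hb0 : (0:ℝ) < b := by exact_mod_cast hb
    have h2 : 1 ≤ ((a : ℝ) + 1) / b := by
      rw [le_div_iff₀ hb0, one_mul]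
      exact_mod_cast hba
    have h3 : 1 ≤ (((a : ℝ) + 1) / b) ^ α := Real.one_le_rpow h2 hα
    have h4 := cg_one hC n
    nlinarith
  induction ℬ generalizing a b with
  | nil =>
    rcases Nat.lt_or_ge b (a + 2) with h | h
    · exact triv _ a b hb (by omega) _
    · have h1 : P S (EA Cx v L a b []) ≤ P S (Cx v (L * a) (L * b)) :=
        Pr_mono okh fun F _ hF => hF a b le_rfl h le_rfl (fun p hp => absurd hp (by simp))
      have hlt : L * a + 2 ≤ L * b := by nlinarith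
      have h2 := hA.pr S v (L * a) (L * b) hlt hS
      refine h1.trans (h2.trans ?_)
      have hb0 : (0:ℝ) < b := by exact_mod_cast hb
      have h3 : ((((L * a : ℕ) : ℝ) + 1) / (L * b : ℕ)) ≤ ((a : ℝ) + 1) / b := by
        push_cast
        rw [div_le_div_iff₀ (by positivity) hb0]
        nlinarith [mul_nonneg (Nat.cast_nonneg (α := ℝ) a) hb0.le, mul_pos hL0 hb0]
      have h4 : ((((L * a : ℕ) : ℝ) + 1) / (L * b : ℕ)) ^ α ≤
          (((a : ℝ) + 1) / b) ^ α :=
        Real.rpow_le_rpow (by positivity) h3 hα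
      have h5 : 0 ≤ (((a : ℝ) + 1) / b) ^ α := by positivity
      simp only [List.length_nil, cg]
      nlinarith
  | cons p ℬ ih =>
    obtain ⟨l, u⟩ := p
    have hlu := hℬ (l, u) List.mem_cons_self
    simp only at hlu
    have ih' := ih (fun p hp => hℬ p (List.mem_cons_of_mem _ hp))
    have hpos : 0 ≤ (((a : ℝ) + 1) / b) ^ α := by positivity
    by_cases hc : b ≤ l ∨ u ≤ a
    · have h1 : P S (EA Cx v L a b ((l, u) :: ℬ)) ≤ P S (EA Cx v L a b ℬ) := by
        refine Pr_mono okh fun F _ hF s t h1 h2 h3 h4 => hF s t h1 h2 h3 ?_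
        intro p hp
        rcases List.mem_cons.mp hp with h5 | h5
        · rw [h5]
          simp only
          omega
        · exact h4 p h5
      refine h1.trans ((ih' a b hb hS).trans ?_)
      exact mul_le_mul_of_nonneg_right (cg_mono1 hC _) hpos
    · push Not at hc
      have hl1 : 1 ≤ l := by omega
      have e1 : P S (EA Cx v L a b ((l, u) :: ℬ)) ≤
          P S (fun F => EA Cx v L a l ℬ F ∧ EA Cx v L u b ℬ F) := by
        refine Pr_mono okh fun F _ hF => ⟨fun s t h1 h2 h3 h4 => ?_, fun s t h1 h2 h3 h4 => ?_⟩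
        · refine hF s t h1 h2 (by omega) ?_
          intro p hp
          rcases List.mem_cons.mp hp with h5 | h5
          · rw [h5]; exact Or.inl h3
          · exact h4 p h5
        · refine hF s t (by omega) h2 h3 ?_
          intro p hp
          rcases List.mem_cons.mp hp with h5 | h5
          · rw [h5]; exact Or.inr h1
          · exact h4 p h5
      have s1 : sh v (L * a) (L * l) ⊆ S :=
        (sh_mono le_rfl (Nat.mul_le_mul_left _ hc.1.le)).trans hS
      have s2 : sh v (L * u) (L * b) ⊆ S :=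
        (sh_mono (Nat.mul_le_mul_left _ hc.2.le) le_rfl).trans hS
      have hd : Disjoint (sh v (L * a) (L * l)) (sh v (L * u) (L * b)) := by
        rw [Finset.disjoint_left]
        intro e he he'
        unfold sh at he he'
        rw [Finset.mem_sdiff] at he he'
        refine he'.2 (bxe_mono ?_ he.1)
        have : L * l ≤ L * u := Nat.mul_le_mul_left _ hlu.2
        exact_mod_cast this
      have e2 : P S (fun F => EA Cx v L a l ℬ F ∧ EA Cx v L u b ℬ F) =
          P S (EA Cx v L a l ℬ) * P S (EA Cx v L u b ℬ) :=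
        Pr_indep s1 s2 hd
          (fun F _ => EA_local hA (fun s t h1 _ h3 _ => sh_mono (Nat.mul_le_mul_left _ h1)
            (Nat.mul_le_mul_left _ h3)) F)
          (fun F _ => EA_local hA (fun s t h1 _ h3 _ => sh_mono (Nat.mul_le_mul_left _ h1)
            (Nat.mul_le_mul_left _ h3)) F)
      have i1 := ih' a l hl1 s1
      have i2 := ih' u b hb s2
      refine e1.trans ?_
      rw [e2]
      refine (mul_le_mul i1 i2 (Pr_nonneg okh _ _) ?_).trans ?_
      · exact (Pr_nonneg okh _ _).trans i1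
      · have hl0 : (0:ℝ) < l := by exact_mod_cast hl1
        have hb0 : (0:ℝ) < b := by exact_mod_cast hb
        have e3 : (((a : ℝ) + 1) / l) ^ α * (((u : ℝ) + 1) / b) ^ α =
            (((a : ℝ) + 1) / b) ^ α * (((u : ℝ) + 1) / l) ^ α := by
          rw [← Real.mul_rpow (by positivity) (by positivity),
            ← Real.mul_rpow (by positivity) (by positivity)]
          congr 1
          field_simp
        have e4 : (((u : ℝ) + 1) / l) ^ α ≤ 9 := by
          have h1 : ((u : ℝ) + 1) / l ≤ 3 := by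
            rw [div_le_iff₀ hl0]
            have : u + 1 ≤ 3 * l := by omega
            exact_mod_cast this
          calc (((u : ℝ) + 1) / l) ^ α ≤ (3:ℝ) ^ α :=
                Real.rpow_le_rpow (by positivity) h1 hα
            _ ≤ (3:ℝ) ^ (2 : ℝ) := Real.rpow_le_rpow_of_exponent_le (by norm_num) hα2
            _ = 9 := by norm_num
        have hc1 := cg_one hC ℬ.length
        simp only [List.length_cons, cg]
        calc cg C ℬ.length * (((a : ℝ) + 1) / l) ^ α *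
              (cg C ℬ.length * (((u : ℝ) + 1) / b) ^ α)
            = cg C ℬ.length ^ 2 * ((((a : ℝ) + 1) / l) ^ α *
              (((u : ℝ) + 1) / b) ^ α) := by ring
          _ = cg C ℬ.length ^ 2 * (((((a : ℝ) + 1) / b) ^ α) *
              (((u : ℝ) + 1) / l) ^ α) := by rw [e3]
          _ ≤ cg C ℬ.length ^ 2 * (((((a : ℝ) + 1) / b) ^ α) * 9) := by
              gcongr
          _ = 9 * cg C ℬ.length ^ 2 * (((a : ℝ) + 1) / b) ^ α := by ring

variable {k : ℕ}

/-- The upper bound for the weight of a radius. -/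
noncomputable def gz (α : ℝ) (z : Fin k → ℤ × ℤ) (i : Fin k) : ℝ :=
  wt α (b0 (z i)) + ∑ j, if i < j then wt α (H443U.sd (z i) (z j)) else 0

theorem w_rz (α : ℝ) (z : Fin k → ℤ × ℤ) (i : Fin k) : wt α (rz z i) ≤ gz α z i := by
  have h0 : ∀ j : Fin k, 0 ≤ (if i < j then wt α (H443U.sd (z i) (z j)) else 0) := by
    intro j
    split_ifs
    · exact (wt_pos α _).le
    · exact le_rfl
  unfold gz
  rcases rz_cases z i with h | ⟨j, hj, h⟩
  · rw [h]
    have := Finset.sum_nonneg (fun j (_ : j ∈ (univ : Finset (Fin k))) => h0 j)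
    linarith
  · rw [h]
    have h1 := Finset.single_le_sum
      (f := fun j => if i < j then wt α (H443U.sd (z i) (z j)) else 0)
      (fun j _ => h0 j) (Finset.mem_univ j)
    simp only [hj, if_true] at h1
    have h2 := (wt_pos α (b0 (z i))).le
    linarith

/-- Arms around all the points. -/
def AZ (Cx : Vtx → ℕ → ℕ → Finset Edg → Prop) (V : Vtx) (L : ℕ) (z : Fin k → ℤ × ℤ)
    (F : Finset Edg) : Prop :=
  ∀ i, 22 ≤ rz z i → EA Cx (vq V L (z i)) L 20 (rz z i) (bl z i) F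

theorem AZ_local {α C : ℝ} {Cx : Vtx → ℕ → ℕ → Finset Edg → Prop} (hA : ArmSys α C Cx)
    {V : Vtx} {L : ℕ} (hL : 1 ≤ L) {z : Fin k → ℤ × ℤ} {h0 W : ℕ}
    (hh0 : 1 ≤ h0) (hz : ∀ i, 2 * (h0 : ℤ) ≤ b0 (z i) ∧ b0 (z i) ≤ W) (F : Finset Edg) :
    AZ Cx V L z F ↔ AZ Cx V L z (F ∩ An V (4 * L * h0) (8 * L * W)) := by
  unfold AZ
  refine forall_congr' fun i => forall_congr' fun h22 => ?_
  exact EA_local hA (fun s t _ _ ht hav => (sh_sub_Uz hL h22 ht hav).trans
    (Uz_sub_An hL hh0 (hz i))) F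

theorem An_sub' {S : Finset Edg} {V : Vtx} {I O : ℕ} (h : bxe V O ⊆ S) : An V I O ⊆ S :=
  Finset.sdiff_subset.trans h

/-- The sharp bound for `k` points. -/
theorem AZ_pr {α C : ℝ} (hα : 0 ≤ α) (hα2 : α ≤ 2) (hC : 0 < C)
    {Cx : Vtx → ℕ → ℕ → Finset Edg → Prop} (hA : ArmSys α C Cx)
    {S : Finset Edg} {V : Vtx} {L : ℕ} (hL : 1 ≤ L)
    {h0 W : ℕ} (hh0 : 1 ≤ h0) (hbd : bxe V ((8 * L * W : ℕ) : ℤ) ⊆ S) {z : Fin k → ℤ × ℤ}
    (hz : ∀ i, 2 * (h0 : ℤ) ≤ b0 (z i) ∧ b0 (z i) ≤ W) :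
    P S (AZ Cx V L z) ≤ ∏ i, (484 * cg C k * wt α (rz z i)) := by
  classical
  have hUS : ∀ i, Uz V L z i ⊆ S := fun i =>
    (Uz_sub_An hL hh0 (hz i)).trans (An_sub' hbd)
  have key := indep_le (S := S) (Uz V L z)
    (fun i F => 22 ≤ rz z i → EA Cx (vq V L (z i)) L 20 (rz z i) (bl z i) F)
    (fun i => 484 * cg C k * wt α (rz z i)) univ (fun i _ => hUS i) ?_ ?_ ?_
  · refine le_trans (Pr_mono okh fun F _ hF => ?_) key
    exact fun i _ => hF i
  · have main : ∀ i j : Fin k, j < i → Disjoint (Uz V L z i) (Uz V L z j) := by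
      intro i j hij
      unfold Uz
      split_ifs with h1 h2
      · rw [Finset.disjoint_left]
        intro e he he'
        rw [Finset.mem_sdiff] at he he'
        apply he.2
        refine Finset.mem_biUnion.mpr ⟨j, ?_, he'.1⟩
        unfold lt
        exact Finset.mem_filter.mpr ⟨Finset.mem_univ _, hij, h2⟩
      · exact Finset.disjoint_empty_right _
      · exact Finset.disjoint_empty_left _
      · exact Finset.disjoint_empty_left _
    intro i _ j _ hne
    rcases lt_or_gt_of_ne hne with h | h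
    · exact (main j i h).symm
    · exact main i j h
  · intro i _ F
    refine forall_congr' fun h22 => ?_
    exact EA_local hA (fun s t _ _ ht hav => sh_sub_Uz hL h22 ht hav) F
  · intro i _
    have hcc := cg_one hC k
    have hw := wt_pos α (rz z i)
    by_cases h22 : 22 ≤ rz z i
    · have h1 : P S (fun F => 22 ≤ rz z i → EA Cx (vq V L (z i)) L 20 (rz z i) (bl z i) F) ≤
          P S (EA Cx (vq V L (z i)) L 20 (rz z i) (bl z i)) :=
        Pr_mono okh fun F _ hF => hF h22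
      have hsub : sh (vq V L (z i)) (L * 20) (L * rz z i) ⊆ S := by
        have h2 := rz_le_b0 z i
        have hL' : (0:ℤ) < L := by exact_mod_cast hL
        have h3 : (L:ℤ) * rz z i ≤ L * b0 (z i) := mul_le_mul_of_nonneg_left h2 hL'.le
        have h4 : (L:ℤ) * b0 (z i) ≤ L * W := mul_le_mul_of_nonneg_left (hz i).2 hL'.le
        have h5 : bxe (vq V L (z i)) ((L * rz z i : ℕ) : ℤ) ⊆ bxe V ((8 * L * W : ℕ) : ℤ) := by
          apply bxe_sub
          rw [sd_vq0]
          push_cast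
          have : (0:ℤ) ≤ L * W := by positivity
          linarith
        exact (Finset.sdiff_subset.trans h5).trans hbd
      have h2 := EA_pr hα hα2 hC hA hL (bl z i) (bl_ok z i) 20 (rz z i) (by omega) hsub
      refine h1.trans (h2.trans ?_)
      have hr0 : (0:ℝ) < rz z i := by exact_mod_cast (by omega : 0 < rz z i)
      have e1 : ((((20:ℕ) : ℝ) + 1) / (rz z i : ℝ)) ^ α ≤ 441 * wt α (rz z i) := by
        rw [wt_cast α (by omega), div_eq_mul_inv, Real.mul_rpow (by positivity) (by positivity),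
          Real.inv_rpow hr0.le, ← Real.rpow_neg hr0.le]
        apply mul_le_mul_of_nonneg_right _ (by positivity)
        calc (((20:ℕ) : ℝ) + 1) ^ α ≤ (((20:ℕ) : ℝ) + 1) ^ (2:ℝ) :=
              Real.rpow_le_rpow_of_exponent_le (by norm_num) hα2
          _ = 441 := by norm_num
      have e3 : cg C (bl z i).length ≤ cg C k := cg_mono hC (bl_length z i)
      have e4 := cg_one hC (bl z i).length
      calc cg C (bl z i).length * ((((20:ℕ) : ℝ) + 1) / (rz z i : ℝ)) ^ α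
          ≤ cg C k * (441 * wt α (rz z i)) := mul_le_mul e3 e1 (by positivity) (by positivity)
        _ ≤ 484 * cg C k * wt α (rz z i) := by
          nlinarith [mul_pos (lt_of_lt_of_le one_pos hcc) hw]
    · refine (Pr_le_one okh _ _).trans ?_
      have h2 : (1:ℝ) ≤ 484 * wt α (rz z i) := by
        rcases Nat.eq_zero_or_pos (rz z i) with h | h
        · rw [h]
          have : wt α ((0:ℕ) : ℤ) = 1 := by unfold wt; simp
          rw [this]; norm_num
        · rw [wt_cast α h]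
          have h3 : (0:ℝ) < rz z i := by exact_mod_cast h
          have h4 : (rz z i : ℝ) ≤ 22 := by exact_mod_cast (by omega : rz z i ≤ 22)
          have h5 : (22:ℝ) ^ (-α) ≤ (rz z i : ℝ) ^ (-α) :=
            Real.rpow_le_rpow_of_nonpos h3 h4 (by linarith)
          have h6 : (22:ℝ) ^ (-2 : ℝ) ≤ (22:ℝ) ^ (-α) :=
            Real.rpow_le_rpow_of_exponent_le (by norm_num) (by linarith)
          have h7 : (22:ℝ) ^ (-2 : ℝ) = 1 / 484 := by
            rw [Real.rpow_neg (by norm_num)]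
            norm_num
          rw [h7] at h6
          linarith
      nlinarith

/-- The sum over tuples. -/
theorem tuple_sum (α : ℝ) {Q : Finset (ℤ × ℤ)} {H : ℝ} (hH : 0 ≤ H)
    (h1 : ∑ v ∈ Q, wt α (b0 v) ≤ H) (h2 : ∀ u ∈ Q, ∑ v ∈ Q, wt α (H443U.sd v u) ≤ H) (n k : ℕ)
    (hk : k ≤ n) :
    ∑ z : Fin k → Q, ∏ i, gz α (fun j => (z j : ℤ × ℤ)) i ≤ ((n + 1) * H) ^ k := by
  induction k with
  | zero => simp
  | succ k ih =>
    have ih' := ih (by omega)
    rw [← (Fin.consEquiv (fun _ : Fin (k + 1) => Q)).sum_comp, Fintype.sum_prod_type]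
    have e : ∀ (v : Q) (z : Fin k → Q),
        ∏ i, gz α (fun j =>
          (((Fin.consEquiv (fun _ : Fin (k + 1) => Q)) (v, z) j : Q) : ℤ × ℤ)) i =
          (wt α (b0 v) + ∑ j, wt α (H443U.sd (v : ℤ × ℤ) (z j : ℤ × ℤ))) *
            ∏ i, gz α (fun j => (z j : ℤ × ℤ)) i := by
      intro v z
      rw [Fin.prod_univ_succ]
      congr 1
      · unfold gz
        rw [Fin.sum_univ_succ]
        simp [Fin.consEquiv]
      · refine Finset.prod_congr rfl fun i _ => ?_
        unfold gz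
        rw [Fin.sum_univ_succ]
        simp [Fin.consEquiv]
    simp_rw [e]
    rw [Finset.sum_comm]
    have hg0 : ∀ z : Fin k → Q, 0 ≤ ∏ i, gz α (fun j => (z j : ℤ × ℤ)) i := by
      intro z
      refine Finset.prod_nonneg fun i _ => ?_
      exact (wt_pos α _).le.trans (w_rz α (fun j => (z j : ℤ × ℤ)) i)
    calc ∑ z : Fin k → Q, ∑ v : Q,
          (wt α (b0 v) + ∑ j, wt α (H443U.sd (v : ℤ × ℤ) (z j : ℤ × ℤ))) *
            ∏ i, gz α (fun j => (z j : ℤ × ℤ)) i
        = ∑ z : Fin k → Q, (∑ v : Q, (wt α (b0 v) +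
            ∑ j, wt α (H443U.sd (v : ℤ × ℤ) (z j : ℤ × ℤ)))) *
            ∏ i, gz α (fun j => (z j : ℤ × ℤ)) i := by
          refine Finset.sum_congr rfl fun z _ => ?_
          rw [Finset.sum_mul]
      _ ≤ ∑ z : Fin k → Q, ((n + 1) * H) * ∏ i, gz α (fun j => (z j : ℤ × ℤ)) i := by
          refine Finset.sum_le_sum fun z _ => mul_le_mul_of_nonneg_right ?_ (hg0 z)
          rw [Finset.sum_add_distrib, Finset.sum_comm]
          have a1 : ∑ v : Q, wt α (b0 v) ≤ H := by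
            rw [Finset.sum_coe_sort Q (fun v => wt α (b0 v))]
            exact h1
          have a2 : ∑ j : Fin k, ∑ v : Q, wt α (H443U.sd (v : ℤ × ℤ) (z j : ℤ × ℤ)) ≤ k * H := by
            calc ∑ j : Fin k, ∑ v : Q, wt α (H443U.sd (v : ℤ × ℤ) (z j : ℤ × ℤ))
                ≤ ∑ j : Fin k, H := by
                  refine Finset.sum_le_sum fun j _ => ?_
                  rw [Finset.sum_coe_sort Q (fun v => wt α (H443U.sd v (z j : ℤ × ℤ)))]
                  exact h2 _ (z j).2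
              _ = k * H := by simp
          have a3 : (k:ℝ) ≤ n := by exact_mod_cast (by omega : k ≤ n)
          nlinarith
      _ = ((n + 1) * H) * ∑ z : Fin k → Q, ∏ i, gz α (fun j => (z j : ℤ × ℤ)) i := by
          rw [Finset.mul_sum]
      _ ≤ ((n + 1) * H) * ((n + 1) * H) ^ k := by
          apply mul_le_mul_of_nonneg_left ih' (by positivity)
      _ = ((n + 1) * H) ^ (k + 1) := by ring

/-- Many `k`-tuples with arms. -/
def Ev (Cx : Vtx → ℕ → ℕ → Finset Edg → Prop) (V : Vtx) (L : ℕ) (Q : Finset (ℤ × ℤ)) (k G : ℕ)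
    (F : Finset Edg) : Prop :=
  (G : ℝ) ^ k ≤ ∑ z : Fin k → Q, ind (AZ Cx V L (fun j => (z j : ℤ × ℤ)) F)

theorem Ev_local {α C : ℝ} {Cx : Vtx → ℕ → ℕ → Finset Edg → Prop} (hA : ArmSys α C Cx)
    {V : Vtx} {L : ℕ} (hL : 1 ≤ L) {h0 W : ℕ} (hh0 : 1 ≤ h0)
    {Q : Finset (ℤ × ℤ)} (hQ : ∀ q ∈ Q, 2 * (h0 : ℤ) ≤ b0 q ∧ b0 q ≤ W)
    (k G : ℕ) (F : Finset Edg) :
    Ev Cx V L Q k G F ↔ Ev Cx V L Q k G (F ∩ An V (4 * L * h0) (8 * L * W)) := by
  unfold Ev
  have : ∑ z : Fin k → Q, ind (AZ Cx V L (fun j => (z j : ℤ × ℤ)) F) =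
      ∑ z : Fin k → Q, ind (AZ Cx V L (fun j => (z j : ℤ × ℤ))
        (F ∩ An V (4 * L * h0) (8 * L * W))) := by
    refine Finset.sum_congr rfl fun z _ => ind_congr ?_
    exact AZ_local hA hL hh0 (fun i => hQ _ (z i).2) F
  rw [this]

theorem Ev_pr {α C : ℝ} (hα : 0 ≤ α) (hα2 : α ≤ 2) (hC : 0 < C)
    {Cx : Vtx → ℕ → ℕ → Finset Edg → Prop} (hA : ArmSys α C Cx)
    {S : Finset Edg} {V : Vtx} {L : ℕ} (hL : 1 ≤ L)
    {h0 W : ℕ} (hh0 : 1 ≤ h0) (hbd : bxe V ((8 * L * W : ℕ) : ℤ) ⊆ S)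
    {Q : Finset (ℤ × ℤ)} (hQ : ∀ q ∈ Q, 2 * (h0 : ℤ) ≤ b0 q ∧ b0 q ≤ W)
    {k G : ℕ} (hG : 1 ≤ G) {H : ℝ} (hH : 0 ≤ H)
    (h1 : ∑ v ∈ Q, wt α (b0 v) ≤ H) (h2 : ∀ u ∈ Q, ∑ v ∈ Q, wt α (H443U.sd v u) ≤ H) :
    P S (Ev Cx V L Q k G) ≤ (484 * cg C k * ((k + 1) * H) / G) ^ k := by
  have hG0 : (0:ℝ) < G := by exact_mod_cast hG
  have hm := markov (S := S) (X := fun F => ∑ z : Fin k → Q,
      ind (AZ Cx V L (fun j => (z j : ℤ × ℤ)) F))
    (fun F => Finset.sum_nonneg fun _ _ => ind_nonneg _) (t := (G:ℝ) ^ k) (by positivity)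
  refine hm.trans ?_
  rw [div_pow]
  apply div_le_div_of_nonneg_right _ (by positivity)
  rw [Ex_sum]
  have hcc := cg_one hC k
  calc ∑ z : Fin k → Q, Ex (fun _ => (1/2:ℝ)) S
        (fun F => ind (AZ Cx V L (fun j => (z j : ℤ × ℤ)) F))
      ≤ ∑ z : Fin k → Q, (484 * cg C k) ^ k * ∏ i, gz α (fun j => (z j : ℤ × ℤ)) i := by
        refine Finset.sum_le_sum fun z _ => ?_
        have h3 := AZ_pr hα hα2 hC hA (S := S) hL hh0 hbd (z := fun j => (z j : ℤ × ℤ))
          (fun i => hQ _ (z i).2)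
        refine le_trans h3 ?_
        rw [Finset.prod_mul_distrib, Finset.prod_const, Finset.card_univ, Fintype.card_fin]
        apply mul_le_mul_of_nonneg_left _ (by positivity)
        exact Finset.prod_le_prod (fun i _ => (wt_pos α _).le) fun i _ => w_rz α _ i
    _ = (484 * cg C k) ^ k * ∑ z : Fin k → Q, ∏ i, gz α (fun j => (z j : ℤ × ℤ)) i := by
        rw [Finset.mul_sum]
    _ ≤ (484 * cg C k) ^ k * ((k + 1) * H) ^ k := by
        apply mul_le_mul_of_nonneg_left _ (by positivity)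
        exact tuple_sum α hH h1 h2 k k le_rfl
    _ = (484 * cg C k * ((k + 1) * H)) ^ k := by rw [← mul_pow]

/-- The points of the configuration are hit only if there are arms around them. -/
def HitArm (Cx : Vtx → ℕ → ℕ → Finset Edg → Prop) (V : Vtx) (L W : ℕ)
    (Ht : (ℤ × ℤ) → Finset Edg → Prop) (F : Finset Edg) : Prop :=
  ∀ q : ℤ × ℤ, b0 q ≤ W → Ht q F → ∀ s t : ℕ, 20 ≤ s → s + 2 ≤ t → t ≤ W →
    Cx (vq V L q) (L * s) (L * t) F

theorem AZ_of_hit {Cx : Vtx → ℕ → ℕ → Finset Edg → Prop} {F : Finset Edg} {V : Vtx} {L W : ℕ}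
    {Ht : (ℤ × ℤ) → Finset Edg → Prop} (hH : HitArm Cx V L W Ht F) {z : Fin k → ℤ × ℤ}
    (hz : ∀ i, b0 (z i) ≤ W) (hit : ∀ i, Ht (z i) F) : AZ Cx V L z F := by
  intro i _ s t hs hst ht _
  refine hH (z i) (hz i) (hit i) s t hs hst ?_
  have h1 := rz_le_b0 z i
  have h2 := hz i
  omega

open Classical in
/-- The number of hit points of the configuration `Q`. -/
noncomputable def nh (Ht : (ℤ × ℤ) → Finset Edg → Prop) (Q : Finset (ℤ × ℤ)) (F : Finset Edg) :
    ℕ := (Q.filter (fun q => Ht q F)).card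

theorem Ev_of_nh {Cx : Vtx → ℕ → ℕ → Finset Edg → Prop} {F : Finset Edg} {V : Vtx} {L W : ℕ}
    {Ht : (ℤ × ℤ) → Finset Edg → Prop} (hH : HitArm Cx V L W Ht F)
    {Q : Finset (ℤ × ℤ)} (hQ : ∀ q ∈ Q, b0 q ≤ W) {k G : ℕ} (h : G ≤ nh Ht Q F) :
    Ev Cx V L Q k G F := by
  classical
  unfold Ev
  set T := Q.filter (fun q => Ht q F) with hT
  have hTc : G ≤ T.card := by
    have : nh Ht Q F = T.card := by
      unfold nh
      rw [hT]
    rw [← this]
    exact h
  set A : Finset (Fin k → Q) := univ.filter (fun z => ∀ i, (z i : ℤ × ℤ) ∈ T) with hA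
  have hcard : T.card ^ k ≤ A.card := by
    have h1 : (univ : Finset (Fin k → T)).card = T.card ^ k := by
      rw [Finset.card_univ]
      simp
    rw [← h1]
    have hTQ : ∀ q ∈ T, q ∈ Q := fun q hq => (Finset.mem_filter.mp hq).1
    refine Finset.card_le_card_of_injOn (fun z i => (⟨z i, hTQ _ (z i).2⟩ : Q)) ?_ ?_
    · intro z _
      rw [hA]
      simp only [Finset.coe_filter, Finset.mem_univ, true_and, Set.mem_setOf_eq]
      exact fun i => (z i).2
    · intro z _ z' _ hzz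
      funext i
      have := congrFun hzz i
      simp only [Subtype.mk.injEq] at this
      exact Subtype.ext this
  have h2 : (A.card : ℝ) ≤ ∑ z : Fin k → Q, ind (AZ Cx V L (fun j => (z j : ℤ × ℤ)) F) := by
    have h3 : (A.card : ℝ) = ∑ z ∈ A, ind (AZ Cx V L (fun j => (z j : ℤ × ℤ)) F) := by
      rw [Finset.card_eq_sum_ones]
      push_cast
      refine Finset.sum_congr rfl fun z hz => ?_
      rw [ind_of]
      rw [hA, Finset.mem_filter] at hz
      exact AZ_of_hit hH (fun i => hQ _ (z i).2)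
        (fun i => (Finset.mem_filter.mp (hz.2 i)).2)
    rw [h3]
    exact Finset.sum_le_sum_of_subset_of_nonneg (Finset.subset_univ _) fun _ _ _ => ind_nonneg _
  have h4 : (G:ℝ) ^ k ≤ A.card := by
    have : G ^ k ≤ A.card := (Nat.pow_le_pow_left hTc k).trans hcard
    exact_mod_cast this
  exact h4.trans h2

/-- A configuration of the family has many hit points. -/
def BadL (Ht : (ℤ × ℤ) → Finset Edg → Prop) (𝒬 : Finset (Finset (ℤ × ℤ))) (G : ℕ)
    (F : Finset Edg) : Prop := ∃ Q ∈ 𝒬, G ≤ nh Ht Q F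

/-- A family of configurations with small sums. -/
def OkF (α : ℝ) (𝒬 : Finset (Finset (ℤ × ℤ))) (h0 W : ℕ) (H : ℝ) : Prop :=
  ∀ Q ∈ 𝒬, (∀ v ∈ Q, 2 * (h0 : ℤ) ≤ b0 v ∧ b0 v ≤ W) ∧ ∑ v ∈ Q, wt α (b0 v) ≤ H ∧
    ∀ u ∈ Q, ∑ v ∈ Q, wt α (H443U.sd v u) ≤ H

/-- Many scales: the probability of `m` bad scales around one centre. -/
theorem multi {α C : ℝ} (hα : 0 ≤ α) (hα2 : α ≤ 2) (hC : 0 < C)
    {Cx : Vtx → ℕ → ℕ → Finset Edg → Prop} (hA : ArmSys α C Cx) {S : Finset Edg} {V : Vtx}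
    {n m h0 W k G : ℕ} (L : ℕ → ℕ) (hL : ∀ j < n, 1 ≤ L j)
    (hh0 : 1 ≤ h0) (hbd : ∀ j < n, bxe V ((8 * L j * W : ℕ) : ℤ) ⊆ S)
    (hch : ∀ i j : ℕ, i < j → j < n → 8 * L j * W ≤ 4 * L i * h0)
    (𝒬 : ℕ → Finset (Finset (ℤ × ℤ))) {q : ℕ} (hq : ∀ j < n, (𝒬 j).card ≤ q)
    (hG : 1 ≤ G) {H : ℝ} (hH : 0 ≤ H) (hQ : ∀ j < n, OkF α (𝒬 j) h0 W H)
    {p : ℝ} (hp : (q : ℝ) * (484 * cg C k * ((k + 1) * H) / G) ^ k ≤ p) :
    P S (fun F => m ≤ nP n (fun j => ∃ Q ∈ 𝒬 j, Ev Cx V (L j) Q k G F)) ≤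
      2 ^ n * p ^ m := by
  have hcc := cg_one hC k
  have hc0 : 0 ≤ (484 * cg C k * ((k + 1) * H) / G) ^ k := by positivity
  have hp0 : 0 ≤ p := le_trans (mul_nonneg (Nat.cast_nonneg q) hc0) hp
  set A : ℕ → Finset Edg → Prop := fun j F => ∃ Q ∈ 𝒬 j, Ev Cx V (L j) Q k G F with hAdef
  refine count_le A ?_ hp0
  intro T hT hTm
  have hTn : ∀ i ∈ T, i < n := fun i hi => Finset.mem_range.mp (hT hi)
  have key := indep_le (S := S) (fun j => An V (4 * L j * h0) (8 * L j * W)) A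
    (fun _ => p) T ?_ ?_ ?_ ?_
  · rw [Finset.prod_const, hTm] at key
    exact key
  · intro i hi
    exact An_sub' (hbd i (hTn i hi))
  · have main : ∀ i j : ℕ, i < j → j < n →
        Disjoint (An V (4 * L i * h0) (8 * L i * W)) (An V (4 * L j * h0) (8 * L j * W)) := by
      intro i j hij hj
      have h3 : bxe V ((8 * L j * W : ℕ) : ℤ) ⊆ bxe V ((4 * L i * h0 : ℕ) : ℤ) := by
        apply bxe_mono
        exact_mod_cast hch i j hij hj
      rw [Finset.disjoint_left]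
      intro e he he'
      unfold An at he he'
      rw [Finset.mem_sdiff] at he he'
      exact he.2 (h3 he'.1)
    intro i hi j hj hne
    rcases Nat.lt_or_gt_of_ne hne with h | h
    · exact main i j h (hTn j hj)
    · exact (main j i h (hTn i hi)).symm
  · intro i hi F
    show (∃ Q ∈ 𝒬 i, Ev Cx V (L i) Q k G F) ↔
      ∃ Q ∈ 𝒬 i, Ev Cx V (L i) Q k G (F ∩ An V (4 * L i * h0) (8 * L i * W))
    constructor
    · rintro ⟨Q, h2, h3⟩
      exact ⟨Q, h2, (Ev_local hA (hL i (hTn i hi)) hh0 ((hQ i (hTn i hi) Q h2).1) k G F).mp h3⟩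
    · rintro ⟨Q, h2, h3⟩
      exact ⟨Q, h2, (Ev_local hA (hL i (hTn i hi)) hh0 ((hQ i (hTn i hi) Q h2).1) k G F).mpr h3⟩
  · intro i hi
    refine le_trans (Pr_exists_le okh S (𝒬 i) (fun Q F => Ev Cx V (L i) Q k G F)) ?_
    calc ∑ Q ∈ 𝒬 i, Pr (fun _ => (1/2:ℝ)) S (fun F => Ev Cx V (L i) Q k G F)
        ≤ ∑ Q ∈ 𝒬 i, (484 * cg C k * ((k + 1) * H) / G) ^ k := by
          refine Finset.sum_le_sum fun Q h2 => ?_
          obtain ⟨g1, g2, g3⟩ := hQ i (hTn i hi) Q h2
          exact Ev_pr hα hα2 hC hA (hL i (hTn i hi)) hh0 (hbd i (hTn i hi)) g1 hG hH g2 g3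
      _ = ((𝒬 i).card : ℝ) * (484 * cg C k * ((k + 1) * H) / G) ^ k := by
          rw [Finset.sum_const, nsmul_eq_mul]
      _ ≤ (q : ℝ) * (484 * cg C k * ((k + 1) * H) / G) ^ k := by
          apply mul_le_mul_of_nonneg_right _ hc0
          exact_mod_cast hq i (hTn i hi)
      _ ≤ p := hp

end K93G
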