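import Pool.Agent.K3h93.UG.Types
import Pool.Agent.TH990.HP.Fix

/-!
Special visits of the exploration path of the half-plane give arms around all the boxes.
-/

set_option autoImplicit false

namespace K93G

open H974 H12S Finset H342P H984P K93U H389NS
open Pool.Agent.W92.DP Pool.Agent.W424.OD Pool.Agent.TH990.FU Pool.Agent.TH990.HP
open MeasureTheory Filter Topology Pool.Agent.W462.DPL
open H984H (Conf perc opn path place gam curve cut lawH)

/-- The position of a lattice vertex at mesh `sc n`. -/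
noncomputable def zv (n : ℕ) (v : Vtx) : ℂ := zp (sc n) 0 v

theorem zv_re (n : ℕ) (v : Vtx) : (zv n v).re = sc n * v.1 := by
  show 0 + sc n * (v.1 : ℝ) = _
  rw [zero_add]

theorem zv_im (n : ℕ) (v : Vtx) : (zv n v).im = sc n * v.2 := by
  show 0 + sc n * (v.2 : ℝ) = _
  rw [zero_add]

theorem vz_zv {n : ℕ} (hn : 0 < n) (v : Vtx) : vz (sc n) 0 (zv n v) = v := by
  have hδ := sc_pos hn
  unfold vz
  rw [zv_re, zv_im, Complex.zero_re, Complex.zero_im, sub_zero, sub_zero,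
    mul_div_cancel_left₀ _ hδ.ne', mul_div_cancel_left₀ _ hδ.ne', Int.floor_intCast,
    Int.floor_intCast]

/-- The conditions for the annulus with radii `a` and `b` around `v`, a disc with centre `z` and
radius `s` inside and the outer scale `η`. -/
structure Cond (n : ℕ) (z : ℂ) (s η : ℝ) (v : Vtx) (a b : ℕ) (ρ : ℤ) : Prop where
  near : dist z (zv n v) + s + 4 * sc n ≤ sc n * a
  ab : a + 2 ≤ b
  far : 64 * sc n * b ≤ η
  up : 32 * (b : ℤ) ≤ v.2
  big : (n : ℤ) + 2 ≤ ρ ∧ -ρ < v.1 - (5 * b + 9 : ℕ) ∧ v.1 + (5 * b + 9 : ℕ) < ρ ∧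
    v.2 + (5 * b + 9 : ℕ) < ρ

theorem ball_sub {n : ℕ} (hn : 0 < n) {v : Vtx} {b : ℕ} {d : ℝ} (hd : d ≤ 32 * sc n * b)
    (hv : 32 * (b : ℤ) ≤ v.2) : Metric.ball (zv n v) d ⊆ {w : ℂ | 0 < w.im} := by
  intro w hw
  rw [Metric.mem_ball, dist_eq_norm] at hw
  have h1 := Complex.abs_im_le_norm (w - zv n v)
  rw [Complex.sub_im, zv_im, abs_le] at h1
  have hδ := sc_pos hn
  have h2 : (32:ℝ) * b ≤ v.2 := by exact_mod_cast hv
  have h3 : sc n * (32 * b) ≤ sc n * v.2 := mul_le_mul_of_nonneg_left h2 hδ.le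
  show 0 < w.im
  linarith [h1.1]

theorem fl_eq {δ : ℝ} (hδ : 0 < δ) (b : ℕ) : ⌊(8 * δ * b) / (8 * δ)⌋₊ = b := by
  rw [mul_div_cancel_left₀ _ (by positivity : (8:ℝ) * δ ≠ 0)]
  exact Nat.floor_natCast b

theorem cl_eq {δ : ℝ} (hδ : 0 < δ) (a : ℕ) : ⌈(δ * a) / δ⌉₊ = a := by
  rw [mul_div_cancel_left₀ _ hδ.ne']
  exact Nat.ceil_natCast a

/-- two visits -/
theorem hdet4 {n : ℕ} (hn : 0 < n) {z : ℂ} {s η : ℝ} {ω : Conf}
    (hE : curve n ω ∈ E4 z s (η / 2)) {v : Vtx} {a b : ℕ} {ρ : ℤ}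
    (hc : Cond n z s η v a b ρ) : C4 v a b (cut ω ρ) := by
  intro hab hb4
  obtain ⟨s1, u, t, h1, h2, h3, h4⟩ := hE
  obtain ⟨c1, c2, c3, c4, c5⟩ := hc
  have hδ := sc_pos hn
  set δ := sc n with hδdef
  have hd0 := dist_nonneg (x := z) (y := zv n v)
  have hs0 : 0 < s := lt_of_le_of_lt dist_nonneg h2
  have ha4 : 4 ≤ a := by
    have : (4:ℝ) ≤ a := by
      have h5 : 4 * δ ≤ δ * a := by linarith
      nlinarith
    exact_mod_cast this
  obtain ⟨a', ha'⟩ : ∃ a', a = a' + 3 := ⟨a - 3, by omega⟩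
  have ha1 : (1:ℝ) ≤ a' := by exact_mod_cast (by omega : 1 ≤ a')
  have hacast : (a:ℝ) = a' + 3 := by rw [ha']; push_cast; ring
  have habR : 32 * (a:ℝ) ≤ b := by exact_mod_cast hab
  have hr : δ ≤ δ * a' := le_mul_of_one_le_right hδ.le ha1
  have hr' : 256 * (δ * a') ≤ 8 * δ * b := by nlinarith
  have key := det4 (ρ := ρ) hn (z := zv n v) (r := δ * a') (d := 8 * δ * b) hr hr'
    (ball_sub hn (b := b) (by nlinarith) c4) (ω := ω) ⟨s1, u, t, h1, ?_, ?_, ?_⟩ ?_
  · rw [vz_zv hn, ← hδdef, fl_eq hδ, cl_eq hδ] at key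
    have e1 : a' + 3 + 2 = a + 2 := by omega
    rw [e1] at key
    exact key
  · have := dist_triangle (curve n ω s1) z (zv n v)
    nlinarith
  · have := dist_triangle (curve n ω t) z (zv n v)
    nlinarith
  · have := dist_triangle (curve n ω u) (zv n v) z
    rw [dist_comm (zv n v) z] at this
    nlinarith
  · rw [vz_zv hn, ← hδdef, fl_eq hδ]
    unfold Pool.Agent.TH990.HP.Big
    push_cast at c5
    omega

/-- a visit of an accessible point -/
theorem hdet3 {n : ℕ} (hn : 0 < n) {z : ℂ} {s η ζ : ℝ} (hζ : 8 * sc n ≤ ζ) {ω : Conf}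
    (hE : curve n ω ∈ E3 z s η ζ) {v : Vtx} {a b : ℕ} {ρ : ℤ}
    (hc : Cond n z s η v a b ρ) : C3 v a b (cut ω ρ) := by
  intro hab hb4
  obtain ⟨t, ⟨⟨s1, hs1⟩, ⟨s2, hs2⟩, g, hg0, hg1, hg⟩, htip⟩ := hE
  obtain ⟨c1, c2, c3, c4, c5⟩ := hc
  have hδ := sc_pos hn
  set δ := sc n with hδdef
  have hd0 := dist_nonneg (x := z) (y := zv n v)
  have hs0 : 0 < s := lt_of_le_of_lt dist_nonneg hs1
  have ha4 : 4 ≤ a := by
    have : (4:ℝ) ≤ a := by
      have h5 : 4 * δ ≤ δ * a := by linarith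
      nlinarith
    exact_mod_cast this
  obtain ⟨a', ha'⟩ : ∃ a', a = a' + 3 := ⟨a - 3, by omega⟩
  have ha1 : (1:ℝ) ≤ a' := by exact_mod_cast (by omega : 1 ≤ a')
  have hacast : (a:ℝ) = a' + 3 := by rw [ha']; push_cast; ring
  have habR : 32 * (a:ℝ) ≤ b := by exact_mod_cast hab
  have hr : δ ≤ δ * a' := le_mul_of_one_le_right hδ.le ha1
  have hr' : 1024 * (δ * a') ≤ 32 * δ * b := by nlinarith
  have e4 : 32 * δ * b / 4 = 8 * δ * b := by ring
  have e8 : 32 * δ * b / 8 = δ * ((4 * b : ℕ) : ℝ) := by push_cast; ring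
  have key := det3 (ρ := ρ) hn (z := zv n v) (r := δ * a') (d := 32 * δ * b) (ζ := ζ) hr hr' hζ
    (ball_sub hn (b := b) le_rfl c4) (ω := ω) (t := t) ⟨⟨s1, ?_⟩, ⟨s2, ?_⟩, g, ?_, ?_, hg⟩ ?_ ?_
  · rw [vz_zv hn, ← hδdef, e4, fl_eq hδ, cl_eq hδ] at key
    have e1 : a' + 3 + 2 = a + 2 := by omega
    rw [e1] at key
    exact key
  · have := dist_triangle ((curve n ω).comp (mT t) s1) z (zv n v)
    nlinarith
  · have := dist_triangle ((curve n ω).comp (mT t) s2) (zv n v) z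
    rw [dist_comm (zv n v) z] at this
    rw [e8]
    push_cast
    nlinarith
  · have := dist_triangle (g 0) z (zv n v)
    nlinarith
  · have := dist_triangle (g 1) (zv n v) z
    rw [dist_comm (zv n v) z] at this
    rw [e8]
    push_cast
    nlinarith
  · have := dist_triangle (curve n ω t) (zv n v) z
    rw [dist_comm (zv n v) z] at this
    nlinarith
  · rw [vz_zv hn, ← hδdef, e4, fl_eq hδ, e8, cl_eq hδ]
    unfold Pool.Agent.TH990.HP.Big
    push_cast at c5 ⊢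
    omega

/-- one visit -/
theorem hdet2 {n : ℕ} (hn : 0 < n) {z : ℂ} {s η : ℝ} {ω : Conf}
    (hE : curve n ω ∈ E2 z s) {v : Vtx} {a b : ℕ} {ρ : ℤ}
    (hc : Cond n z s η v a b ρ) : Cx v a b (cut ω ρ) := by
  obtain ⟨s1, h1⟩ := hE
  obtain ⟨c1, c2, c3, c4, c5⟩ := hc
  have hδ := sc_pos hn
  set δ := sc n with hδdef
  have hst : ∀ k < n, dist (((δ : ℝ) : ℂ) * gam ω k) (((δ : ℝ) : ℂ) * gam ω (k + 1)) ≤ δ / 2 :=
    fun k _ => gstep hδ.le ω k
  rw [curve_eq, ← hδdef] at h1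
  obtain ⟨i, hiN, -, hi⟩ := pl_close' hn hst s1
  have h4 := place_near hδ.le (path ω i)
  have h6 : dist (((δ : ℝ) : ℂ) * gam ω i) (zp δ 0 (path ω i).1) ≤ δ / 2 := h4
  have pz : dist (zp δ 0 (path ω i).1) (zv n v) ≤ δ * a := by
    have q1 := dist_triangle_left (zp δ 0 (path ω i).1) z (((δ : ℝ) : ℂ) * gam ω i)
    have q2 := dist_triangle_left (((δ : ℝ) : ℂ) * gam ω i) z
      ((H984N.pl n fun k => ((δ : ℝ) : ℂ) * gam ω k) s1)
    have q3 := dist_triangle (zp δ 0 (path ω i).1) z (zv n v)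
    linarith
  have hcoord : ∀ (x y : ℤ) (c : ℕ), |δ * (x:ℝ) - δ * y| ≤ δ * c → y - c ≤ x ∧ x ≤ y + c := by
    intro x y c h
    rw [← mul_sub, abs_mul, abs_of_pos hδ] at h
    have h2 : |(x:ℝ) - y| ≤ c := le_of_mul_le_mul_left h hδ
    rw [abs_le] at h2
    constructor
    · have : ((y - c : ℤ) : ℝ) ≤ x := by push_cast; linarith [h2.1]
      exact_mod_cast this
    · have : (x : ℝ) ≤ ((y + c : ℤ) : ℝ) := by push_cast; linarith [h2.2]
      exact_mod_cast this
  have hin : inR (v.1 - a) (v.1 + a) (v.2 - a) (v.2 + a) (path ω i).1 := by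
    have g1 : |δ * ((path ω i).1.1:ℝ) - δ * v.1| ≤ δ * a := by
      have := (Complex.abs_re_le_norm (zp δ 0 (path ω i).1 - zv n v))
      rw [Complex.sub_re, zv_re, ← hδdef, ← dist_eq_norm] at this
      have e : (zp δ 0 (path ω i).1).re = δ * ((path ω i).1.1:ℝ) := by
        show 0 + δ * ((path ω i).1.1:ℝ) = _
        rw [zero_add]
      rw [e] at this
      exact this.trans pz
    have g2 : |δ * ((path ω i).1.2:ℝ) - δ * v.2| ≤ δ * a := by
      have := (Complex.abs_im_le_norm (zp δ 0 (path ω i).1 - zv n v))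
      rw [Complex.sub_im, zv_im, ← hδdef, ← dist_eq_norm] at this
      have e : (zp δ 0 (path ω i).1).im = δ * ((path ω i).1.2:ℝ) := by
        show 0 + δ * ((path ω i).1.2:ℝ) = _
        rw [zero_add]
      rw [e] at this
      exact this.trans pz
    have k1 := hcoord _ _ _ g1
    have k2 := hcoord _ _ _ g2
    unfold inR
    omega
  have hc := H984H.couple (ρ := ρ) (by omega) ω (k := i)
    (fun j hj => stay (n := n) (by omega) ω (by omega))
  have hv : (H984H.bx ρ).Vis (cut ω ρ) (path ω i) := ⟨_, by omega, hc.2⟩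
  obtain ⟨p1, p2, p3, p4⟩ := c5
  push_cast at p2 p3 p4
  obtain ⟨⟨x, y, hx, hy, hp⟩, ⟨x', y', hx', hy', hp'⟩⟩ :=
    H984H.vis_ann (H984H.bx_ok (ρ := ρ) (by omega)) (H984H.Couple_cut_sub ω ρ) hv
      (c1 := v.1) (c2 := v.2) (k := a) (R := b) hin c2 (by show -ρ ≤ _; omega)
      (by show _ ≤ ρ; omega) (by omega) (by show _ ≤ ρ; omega)
  constructor
  · obtain ⟨z, hz, hq⟩ := H984N.arms_reach (X := (↑(H443P.bxe v b) : Set Edg))
      (G := (↑(cut ω ρ ∩ sh v a b) : Set Edg))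
      (fun z => (v.1 - b < z.1 ∧ z.1 < v.1 + b) ∧ (v.2 - b < z.2 ∧ z.2 < v.2 + b))
      (fun e _ hB => by
        show e ∈ H443P.bxe v b
        unfold H443P.bxe
        obtain ⟨x, y, _ | _⟩ := e
        · simp only [src_mk, tgt_false] at hB
          rw [mem_RE_false]
          omega
        · simp only [src_mk, tgt_true] at hB
          rw [mem_RE_true]
          omega)
      (fun e he => by
        have h1 : e ∈ cut ω ρ \ RE (v.1 - a) (v.1 + a) (v.2 - a) (v.2 + a) := he.1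
        have h2 : e ∈ H443P.bxe v b := he.2
        rw [Finset.mem_sdiff] at h1
        show e ∈ cut ω ρ ∩ sh v a b
        unfold sh
        rw [Finset.mem_inter, Finset.mem_sdiff]
        exact ⟨h1.1, h2, h1.2⟩) hp (by omega)
    refine ⟨x, z, hx, ?_, hq⟩
    omega
  · obtain ⟨z, hz, hq⟩ := H984N.arms_dreach (X := (↑(H443P.bxe v b) : Set Edg))
      (G := (↑(sh v a b \ cut ω ρ) : Set Edg))
      (fun z => (v.1 - b < z.1 ∧ z.1 < v.1 + b) ∧ (v.2 - b < z.2 ∧ z.2 < v.2 + b))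
      (fun e _ hB => by
        show e ∈ H443P.bxe v b
        unfold H443P.bxe
        obtain ⟨x, y, _ | _⟩ := e
        · simp only [dsrc_false, dtgt_mk] at hB
          rw [mem_RE_false]
          omega
        · simp only [dsrc_true, dtgt_mk] at hB
          rw [mem_RE_true]
          omega)
      (fun e he => by
        have h1 : e ∈ ((H984H.bx ρ).edges \ RE (v.1 - a) (v.1 + a) (v.2 - a) (v.2 + a)) \
          cut ω ρ := he.1
        have h2 : e ∈ H443P.bxe v b := he.2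
        rw [Finset.mem_sdiff, Finset.mem_sdiff] at h1
        show e ∈ sh v a b \ cut ω ρ
        unfold sh
        rw [Finset.mem_sdiff, Finset.mem_sdiff]
        exact ⟨⟨h2, h1.1.2⟩, h1.2⟩) hp' (by omega)
    refine ⟨x', z, hx', ?_, hq⟩
    omega

end K93G
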