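import Pool.Agent.K3h93.UG.HMesh
import Pool.Agent.K3h93.UG.Det

/-!
The exploration path of the half-plane: uniform bounds for the trace, the double points and the
sides of the past in all the sets which are modelled on a fixed set.
-/

set_option autoImplicit false

namespace K93G

open H974 H12S Finset H342P H984P K93U H389NS
open Pool.Agent.W92.DP Pool.Agent.W424.OD Pool.Agent.TH990.FU Pool.Agent.TH990.HP
open MeasureTheory Filter Topology Pool.Agent.W462.DPL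
open H984H (Conf perc opn path place gam curve cut lawH)
open scoped ENNReal

theorem depth_lip (x y : ℂ) : y.im ≤ x.im + ‖y - x‖ := by
  have h := Complex.abs_im_le_norm (y - x)
  rw [Complex.sub_im, abs_le] at h
  linarith [h.2]

theorem DPt_anti (f : C(unitInterval, ℂ)) (η η' : ℝ) (h : η ≤ η') : DPt η' f ⊆ DPt η f := by
  rintro w ⟨s, u, t, h1, h2, h3, h4, h5⟩
  exact ⟨s, u, t, h1, h2, h3, h4, h.trans h5⟩

theorem AccT_anti (f : C(unitInterval, ℂ)) (η η' : ℝ) (h : η ≤ η') : AccT η' f ⊆ AccT η f := by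
  rintro w ⟨t, h1, h2⟩
  exact ⟨t, Acc_anti h _ h1, h.trans h2⟩

theorem mem4 (f : C(unitInterval, ℂ)) (η s : ℝ) (w z : ℂ) (hη : 0 < η) (hw : w ∈ DPt η f)
    (hz : dist w z < s) (hs : 8 * s ≤ η) : f ∈ ⋃ _i : ℕ, E4 z s (η / 2) := by
  obtain ⟨s1, u, t, h1, h2, h3, h4, h5⟩ := hw
  refine Set.mem_iUnion.mpr ⟨0, s1, u, t, ⟨h1, h2⟩, by rw [h3]; exact hz, by rw [h4]; exact hz, ?_⟩
  have h6 := dist_triangle (f u) z w
  rw [dist_comm z w] at h6
  linarith

theorem mem3 (f : C(unitInterval, ℂ)) (η s : ℝ) (w z : ℂ) (hη : 0 < η) (hw : w ∈ AccT η f)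
    (hz : dist w z < s) (hs : 8 * s ≤ η) : f ∈ ⋃ i : ℕ, E3 z s η (1 / ((i:ℝ) + 1)) := by
  obtain ⟨t, hw, hw1⟩ := hw
  have h6 := dist_triangle (f t) z w
  rw [dist_comm z w] at h6
  have hs0 : 0 < s := lt_of_le_of_lt dist_nonneg hz
  obtain ⟨j, hj⟩ := Set.mem_iUnion.1 (E3U_of (ρ := η / 8) hw hz (by linarith))
  exact Set.mem_iUnion.2 ⟨j, t, hj, by linarith⟩

variable {φ : ℕ → ℕ} {μ : ProbabilityMeasure C(unitInterval, ℂ)} {K : Set ℂ} {s : ℝ}

theorem ae2 (hφ : Tendsto φ atTop atTop) (hμ : Tendsto (fun i => lawH (φ i)) atTop (𝓝 μ))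
    (hK : ∀ s', s < s' → Hom K s') :
    ∀ᵐ f : C(unitInterval, ℂ) ∂(μ : Measure C(unitInterval, ℂ)), ∀ A : Set ℂ, Modelled K A →
      dimH (Set.range f ∩ {x | 0 < x.im} ∩ A) ≤ ENNReal.ofReal (s - 1 / 4) := by
  obtain ⟨C, hC, hA⟩ : ∃ C : ℝ, 0 < C ∧ H984N.AnnUp C := by
    obtain ⟨C, hC, h⟩ := H985T.st_A
    exact ⟨C, hC, fun r R hr hR c1 c2 S => h r R hr hR c1 c2 S⟩
  have key := modelled_ae (μ := (μ : Measure C(unitInterval, ℂ))) (D := fun x => x.im)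
    depth_lip (N := fun _ z r => ⋃ _i : ℕ, E2 z r) (T := fun _ f => Set.range f)
    (fun f _ _ _ => le_rfl)
    (fun f η r w z _ hw hz _ => by
      obtain ⟨t, rfl⟩ := hw
      exact Set.mem_iUnion.mpr ⟨0, t, hz⟩)
    (by norm_num : (0:ℝ) ≤ 1 / 4) hC
    (fun η _ => meshH (by norm_num) (by norm_num) hC (armsys2 hA) (N := fun _ z r => E2 z r)
      (fun _ z r => E2_open z r) (fun z r i j _ => le_rfl)
      (fun i => (eventually_gt_atTop 0).mono fun n hn z r ω hE v a b ρ hc => hdet2 hn hE hc)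
      hφ hμ) hK
  filter_upwards [key] with f hf A hA
  have e : (⋃ i : ℕ, (fun (_ : ℝ) (f : C(unitInterval, ℂ)) => Set.range f)
      (1 / ((i:ℝ) + 1)) f) = Set.range f := Set.iUnion_const _
  have h1 := hf A hA
  rw [e] at h1
  exact h1

theorem ae4 (hφ : Tendsto φ atTop atTop) (hμ : Tendsto (fun i => lawH (φ i)) atTop (𝓝 μ))
    (hK : ∀ s', s < s' → Hom K s') :
    ∀ᵐ f : C(unitInterval, ℂ) ∂(μ : Measure C(unitInterval, ℂ)), ∀ A : Set ℂ, Modelled K A →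
      dimH ((⋃ i : ℕ, DPt (1 / ((i:ℝ) + 1)) f) ∩ {x | 0 < x.im} ∩ A) ≤
        ENNReal.ofReal (s - 5 / 4) := by
  obtain ⟨C, hC, hA⟩ := armsys4
  exact modelled_ae (μ := (μ : Measure C(unitInterval, ℂ))) (D := fun x => x.im)
    depth_lip (N := fun η z r => ⋃ _i : ℕ, E4 z r (η / 2)) (T := DPt) DPt_anti mem4
    (by norm_num : (0:ℝ) ≤ 5 / 4) hC
    (fun η _ => meshH (by norm_num) (by norm_num) hC hA (N := fun _ z r => E4 z r (η / 2))
      (fun _ z r => E4_open z r _) (fun z r i j _ => le_rfl)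
      (fun i => (eventually_gt_atTop 0).mono fun n hn z r ω hE v a b ρ hc => hdet4 hn hE hc)
      hφ hμ) hK

theorem ae3 (hφ : Tendsto φ atTop atTop) (hμ : Tendsto (fun i => lawH (φ i)) atTop (𝓝 μ))
    (hK : ∀ s', s < s' → Hom K s') :
    ∀ᵐ f : C(unitInterval, ℂ) ∂(μ : Measure C(unitInterval, ℂ)), ∀ A : Set ℂ, Modelled K A →
      dimH ((⋃ i : ℕ, AccT (1 / ((i:ℝ) + 1)) f) ∩ {x | 0 < x.im} ∩ A) ≤
        ENNReal.ofReal (s - 2 / 3) := by
  obtain ⟨C, hC, hA⟩ := armsys3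
  refine modelled_ae (μ := (μ : Measure C(unitInterval, ℂ))) (D := fun x => x.im)
    depth_lip (N := fun η z r => ⋃ i : ℕ, E3 z r η (1 / ((i:ℝ) + 1))) (T := AccT) AccT_anti mem3
    (by norm_num : (0:ℝ) ≤ 2 / 3) hC
    (fun η _ => meshH (by norm_num) (by norm_num) hC hA
      (N := fun i z r => E3 z r η (1 / ((i:ℝ) + 1)))
      (fun _ z r => E3_open z r _ _) (fun z r i j hij => ?_) (fun i => ?_) hφ hμ) hK
  · rintro f ⟨t, hf, hf'⟩
    exact ⟨t, Ev3_anti (Nat.one_div_le_one_div hij) hf, hf'⟩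
  · have hpos : (0:ℝ) < 1 / ((i:ℝ) + 1) / 8 := by positivity
    filter_upwards [eventually_gt_atTop 0,
      (sc_tendsto tendsto_id).eventually (ge_mem_nhds hpos)] with n hn hn2
    intro z r ω hE v a b ρ hc
    have hn3 : sc n ≤ 1 / ((i:ℝ) + 1) / 8 := hn2
    exact hdet3 hn (by linarith) hE hc

end K93G
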