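import Pool.Agent.K3h93.UG.Sum
import Pool.Agent.K3h93.UR.Main

/-!
The number of bad scales for a random curve, and the dimension of sets which are modelled on a
fixed set, for general types of visits.
-/

namespace K93G

open H974 Finset H342P H984P H984N H443P H443U K93U MeasureTheory Filter Topology
open scoped ENNReal

open Classical in
/-- The number of balls of the configuration with a special visit of the curve. -/
noncomputable def cnt (N : ℂ → ℝ → Set C(unitInterval, ℂ)) (f : C(unitInterval, ℂ)) (x : ℂ)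
    (r : ℝ) (Q : Finset (ℤ × ℤ)) : ℕ :=
  (Q.filter (fun q => f ∈ N (gp x r q) (4 * r))).card

/-- Some configuration of the family has at least `G` balls with a special visit. -/
def Bad (N : ℂ → ℝ → Set C(unitInterval, ℂ)) (f : C(unitInterval, ℂ)) (x : ℂ) (r : ℝ)
    (𝒬 : Finset (Finset (ℤ × ℤ))) (G : ℕ) : Prop :=
  ∃ Q ∈ 𝒬, G ≤ cnt N f x r Q

/-- The number of bad scales. -/
noncomputable def nbad (N : ℂ → ℝ → Set C(unitInterval, ℂ)) (f : C(unitInterval, ℂ)) (x : ℂ)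
    (r : ℕ → ℝ) (𝒬 : ℕ → Finset (Finset (ℤ × ℤ))) (G n : ℕ) : ℕ :=
  nP n (fun j => Bad N f x (r j) (𝒬 j) G)

theorem cnt_mono {N N' : ℂ → ℝ → Set C(unitInterval, ℂ)} {f f' : C(unitInterval, ℂ)} {x : ℂ}
    {r : ℝ} {Q : Finset (ℤ × ℤ)}
    (h : ∀ q ∈ Q, f ∈ N (gp x r q) (4 * r) → f' ∈ N' (gp x r q) (4 * r)) :
    cnt N f x r Q ≤ cnt N' f' x r Q := by
  classical
  unfold cnt
  refine Finset.card_le_card fun q hq => ?_
  rw [Finset.mem_filter] at hq ⊢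
  exact ⟨hq.1, h q hq.1 hq.2⟩

theorem nbad_mono {N N' : ℂ → ℝ → Set C(unitInterval, ℂ)} {f f' : C(unitInterval, ℂ)} {x : ℂ}
    {r : ℕ → ℝ} {𝒬 : ℕ → Finset (Finset (ℤ × ℤ))} {G n : ℕ}
    (h : ∀ j < n, ∀ Q ∈ 𝒬 j, ∀ q ∈ Q, f ∈ N (gp x (r j) q) (4 * r j) →
      f' ∈ N' (gp x (r j) q) (4 * r j)) :
    nbad N f x r 𝒬 G n ≤ nbad N' f' x r 𝒬 G n := by
  refine nP_mono fun j hj hB => ?_
  obtain ⟨Q, hQ, hB⟩ := hB
  exact ⟨Q, hQ, hB.trans (cnt_mono (h j hj Q hQ))⟩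

/-- The finitely many conditions in the count of bad scales. -/
theorem nbad_fin (n : ℕ) (𝒬 : ℕ → Finset (Finset (ℤ × ℤ))) {β : Type*} {l : Filter β}
    (A B : β → ℕ → (ℤ × ℤ) → Prop)
    (h : ∀ j < n, ∀ Q ∈ 𝒬 j, ∀ q ∈ Q, ∀ᶠ b in l, A b j q → B b j q) :
    ∀ᶠ b in l, ∀ j < n, ∀ Q ∈ 𝒬 j, ∀ q ∈ Q, A b j q → B b j q := by
  have h1 : ∀ᶠ b in l, ∀ j ∈ Finset.range n, ∀ Q ∈ 𝒬 j, ∀ q ∈ Q, A b j q → B b j q := by
    rw [Filter.eventually_all_finset]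
    intro j hj
    rw [Filter.eventually_all_finset]
    intro Q hQ
    rw [Filter.eventually_all_finset]
    intro q hq
    exact h j (Finset.mem_range.mp hj) Q hQ q hq
  exact h1.mono fun b hb j hj => hb j (Finset.mem_range.mpr hj)

/-- The count is lower semicontinuous. -/
theorem open_nbad {N : ℂ → ℝ → Set C(unitInterval, ℂ)} (hN : ∀ z s, IsOpen (N z s)) (x : ℂ)
    (r : ℕ → ℝ) (𝒬 : ℕ → Finset (Finset (ℤ × ℤ))) (G n m : ℕ) :
    IsOpen {f : C(unitInterval, ℂ) | m ≤ nbad N f x r 𝒬 G n} := by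
  rw [isOpen_iff_mem_nhds]
  intro f hf
  have h := nbad_fin n 𝒬 (l := 𝓝 f) (fun _ j q => f ∈ N (gp x (r j) q) (4 * r j))
    (fun g j q => g ∈ N (gp x (r j) q) (4 * r j)) (fun j _ Q _ q _ => by
      by_cases hq : f ∈ N (gp x (r j) q) (4 * r j)
      · filter_upwards [(hN _ _).mem_nhds hq] with g hg _
        exact hg
      · exact Filter.Eventually.of_forall fun g h => absurd h hq)
  filter_upwards [h] with g hg
  exact le_trans hf (nbad_mono hg)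

/-- The count for a union of events. -/
theorem nbad_iUnion {N : ℕ → ℂ → ℝ → Set C(unitInterval, ℂ)}
    (hN : ∀ z s, Monotone fun i => N i z s) (f : C(unitInterval, ℂ)) (x : ℂ)
    (r : ℕ → ℝ) (𝒬 : ℕ → Finset (Finset (ℤ × ℤ))) (G n m : ℕ) :
    m ≤ nbad (fun z s => ⋃ i, N i z s) f x r 𝒬 G n ↔ ∃ i, m ≤ nbad (N i) f x r 𝒬 G n := by
  constructor
  · intro h
    have h1 := nbad_fin n 𝒬 (l := (atTop : Filter ℕ))
      (fun _ j q => f ∈ ⋃ i, N i (gp x (r j) q) (4 * r j))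
      (fun i j q => f ∈ N i (gp x (r j) q) (4 * r j)) (fun j _ Q _ q _ => by
        by_cases hq : f ∈ ⋃ i, N i (gp x (r j) q) (4 * r j)
        · obtain ⟨i, hi⟩ := Set.mem_iUnion.mp hq
          filter_upwards [eventually_ge_atTop i] with i' hi' _
          exact hN _ _ hi' hi
        · exact Filter.Eventually.of_forall fun g h => absurd h hq)
    obtain ⟨i, hi⟩ := h1.exists
    exact ⟨i, h.trans (nbad_mono hi)⟩
  · rintro ⟨i, hi⟩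
    exact hi.trans (nbad_mono fun j _ Q _ q _ h => Set.mem_iUnion.mpr ⟨i, h⟩)

/-- The bound for the number of bad scales around one point. -/
def MeshB (μ : Measure C(unitInterval, ℂ)) (N : ℂ → ℝ → Set C(unitInterval, ℂ)) (D : ℂ → ℝ)
    (η α C : ℝ) : Prop :=
  ∀ (x : ℂ) (n M h0 W k G : ℕ) (r : ℕ → ℝ), (∀ j < n, 0 < r j) →
    (∀ i j, i < j → j < n → r j * M ≤ r i) → 1 ≤ h0 → 1 ≤ W → 2 * W ≤ h0 * M →
    (∀ j < n, 9 * r j * W ≤ D x) → (∀ j < n, 36 * r j * W ≤ η) →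
    ∀ (𝒬 : ℕ → Finset (Finset (ℤ × ℤ))) (q : ℕ), (∀ j < n, (𝒬 j).card ≤ q) → 1 ≤ G →
    ∀ H : ℝ, 0 ≤ H → (∀ j < n, OkF α (𝒬 j) h0 W H) →
    ∀ p : ℝ, (q : ℝ) * (484 * cg C k * ((k + 1) * H) / G) ^ k ≤ p → ∀ m : ℕ,
      μ {f | m ≤ nbad N f x r 𝒬 G n} ≤ ENNReal.ofReal (2 ^ n * p ^ m)

/-- Almost surely there are few bad scales around all the points of the systems. -/
theorem limit_bad {μ : Measure C(unitInterval, ℂ)} {N : ℂ → ℝ → Set C(unitInterval, ℂ)}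
    {D : ℂ → ℝ} {η α C : ℝ} (hC : 0 < C) (hmesh : MeshB μ N D η α C)
    {ι : Type*} (I : ℕ → Finset ι) (x : ι → ℂ) (𝒬 : ι → ℕ → Finset (Finset (ℤ × ℤ)))
    {M h0 W k G : ℕ} (r : ℕ → ℝ) (hr : ∀ j, 0 < r j)
    (hch : ∀ i j : ℕ, i < j → r j * M ≤ r i)
    (hh0 : 1 ≤ h0) (hW : 1 ≤ W) (hM : 2 * W ≤ h0 * M)
    (hdp : ∀ J, ∀ i ∈ I J, ∀ j, 9 * r j * W ≤ D (x i)) (hη : ∀ j, 36 * r j * W ≤ η)
    {q : ℕ} (hq : ∀ J, ∀ i ∈ I J, ∀ j, (𝒬 i j).card ≤ q)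
    (hG : 1 ≤ G) {H : ℝ} (hH : 0 ≤ H) (hQ : ∀ J, ∀ i ∈ I J, ∀ j, OkF α (𝒬 i j) h0 W H)
    {p : ℝ} (hp : (q : ℝ) * (484 * cg C k * ((k + 1) * H) / G) ^ k ≤ p)
    (m : ℕ → ℕ) (hsum : Summable (fun J => ((I J).card : ℝ) * (2 ^ J * p ^ m J))) :
    ∀ᵐ f ∂μ, ∀ᶠ J in atTop, ∀ i ∈ I J, nbad N f (x i) r (𝒬 i) G J < m J := by
  classical
  have hcc := cg_one hC k
  have hc0 : 0 ≤ (484 * cg C k * ((k + 1) * H) / G) ^ k := by positivity
  have hp0 : 0 ≤ p := le_trans (mul_nonneg (Nat.cast_nonneg q) hc0) hp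
  set B : ℕ → Set C(unitInterval, ℂ) := fun J =>
    ⋃ i ∈ I J, {f | m J ≤ nbad N f (x i) r (𝒬 i) G J} with hB
  have hBm : ∀ J, μ (B J) ≤ ENNReal.ofReal (((I J).card : ℝ) * (2 ^ J * p ^ m J)) := by
    intro J
    calc μ (B J) ≤ ∑ i ∈ I J, μ {f | m J ≤ nbad N f (x i) r (𝒬 i) G J} :=
          measure_biUnion_finset_le _ _
      _ ≤ ∑ i ∈ I J, ENNReal.ofReal (2 ^ J * p ^ m J) := by
          refine Finset.sum_le_sum fun i hi => ?_
          exact hmesh (x i) J M h0 W k G r (fun j _ => hr j) (fun i j hij _ => hch i j hij) hh0 hW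
            hM (fun j _ => hdp J i hi j) (fun j _ => hη j) (𝒬 i) q (fun j _ => hq J i hi j) hG H hH
            (fun j _ => hQ J i hi j) p hp (m J)
      _ = ENNReal.ofReal (((I J).card : ℝ) * (2 ^ J * p ^ m J)) := by
          rw [Finset.sum_const, nsmul_eq_mul, ENNReal.ofReal_mul (Nat.cast_nonneg _),
            ENNReal.ofReal_natCast]
  have hfin : ∑' J, μ (B J) ≠ ⊤ := by
    apply ne_top_of_le_ne_top _ (ENNReal.tsum_le_tsum hBm)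
    exact hsum.tsum_ofReal_ne_top
  have h2 := ae_eventually_notMem hfin
  filter_upwards [h2] with ω hω
  filter_upwards [hω] with J hJ i hi
  by_contra hcon
  exact hJ (Set.mem_iUnion₂.mpr ⟨i, hi, not_lt.mp hcon⟩)

/-- Few bad scales at all the points. -/
def Few (D : ℂ → ℝ) (N : ℂ → ℝ → Set C(unitInterval, ℂ)) (K : Set ℂ) (Λ M G : ℕ) (ε : ℝ)
    (n Z : ℕ) (f : C(unitInterval, ℂ)) : Prop :=
  ∀ᶠ J in atTop, ∀ a b : ℤ × ℤ, b0 a ≤ (Z * M ^ J : ℕ) → b0 b ≤ (Z * M ^ J : ℕ) →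
    1 / (2 * ((n:ℝ) + 1)) ≤ D (xi Λ M n J a) →
    nbad N f (xi Λ M n J a) (rs Λ M n) (qi K Λ M n J b) G J < ⌈ε * J⌉₊

theorem few_ae {μ : Measure C(unitInterval, ℂ)} {N : ℂ → ℝ → Set C(unitInterval, ℂ)}
    {D : ℂ → ℝ} {η α C : ℝ} (hC : 0 < C) (hmesh : MeshB μ N D η α C) {K : Set ℂ} {γ C2 ε : ℝ}
    (hC2 : 0 < C2) (hε : 0 < ε) {Λ k M : ℕ} (hΛ : 1 ≤ Λ)
    (hfam : ∀ (r : ℝ) (k : ℂ), 0 < r → 420 * Λ * r * M ≤ 1 →
      OkF α (fam K Λ M r k) 20 (10 * M) (C2 * (M : ℝ) ^ γ))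
    (hpar : Par (cg C k) C2 γ ε Λ k M) (n Z : ℕ) (hη : 1 / ((n:ℝ) + 1) ≤ η) :
    ∀ᵐ f ∂μ, Few D N K Λ M ⌈(M:ℝ) ^ (γ + ε)⌉₊ ε n Z f := by
  classical
  have hM2 := hpar.two
  have hM : 1 ≤ M := by omega
  have hM0 : (0:ℝ) < M := by exact_mod_cast (by omega : 0 < M)
  have hM2' : (2:ℝ) ≤ M := by exact_mod_cast hM2
  have hN0 : (0:ℝ) ≤ n := Nat.cast_nonneg n
  set I : ℕ → Finset (ℕ × ((ℤ × ℤ) × (ℤ × ℤ))) := fun J =>
    ((bx (Z * M ^ J) ×ˢ bx (Z * M ^ J)).image (fun p => (J, p))).filter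
      (fun i => 1 / (2 * ((n:ℝ) + 1)) ≤ D (xi Λ M n i.1 i.2.1)) with hI
  have hcard : ∀ J, ((I J).card : ℝ) ≤ (2 * (Z:ℝ) + 1) ^ 4 * ((M:ℝ) ^ 4) ^ J := by
    intro J
    have h1 : (I J).card ≤ ((2 * (Z * M ^ J) + 1) ^ 2) * ((2 * (Z * M ^ J) + 1) ^ 2) := by
      rw [hI]
      refine (Finset.card_filter_le _ _).trans (Finset.card_image_le.trans ?_)
      rw [Finset.card_product, card_bx]
    have h2 : 2 * (Z * M ^ J) + 1 ≤ (2 * Z + 1) * M ^ J := by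
      have : 1 ≤ M ^ J := Nat.one_le_pow _ _ hM
      nlinarith
    have h3 : (I J).card ≤ (2 * Z + 1) ^ 4 * (M ^ 4) ^ J := by
      refine h1.trans ?_
      calc ((2 * (Z * M ^ J) + 1) ^ 2) * ((2 * (Z * M ^ J) + 1) ^ 2)
          = (2 * (Z * M ^ J) + 1) ^ 4 := by ring
        _ ≤ ((2 * Z + 1) * M ^ J) ^ 4 := Nat.pow_le_pow_left h2 4
        _ = (2 * Z + 1) ^ 4 * (M ^ 4) ^ J := by ring
    exact_mod_cast h3
  set p : ℝ := (M:ℝ) ^ (-(6 / ε)) with hp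
  have hp0 : 0 < p := by positivity
  have hpm : ∀ J : ℕ, p ^ ⌈ε * J⌉₊ ≤ ((M:ℝ)⁻¹ ^ 6) ^ J := by
    intro J
    have h1 : ε * J ≤ ⌈ε * J⌉₊ := Nat.le_ceil _
    have h2 : p ^ ⌈ε * J⌉₊ = (M:ℝ) ^ (-(6 / ε) * ⌈ε * J⌉₊) := by
      rw [hp, ← Real.rpow_natCast, ← Real.rpow_mul hM0.le]
    have h3 : ((M:ℝ)⁻¹ ^ 6) ^ J = (M:ℝ) ^ (-(6 * (J:ℝ))) := by
      rw [← pow_mul, inv_pow, Real.rpow_neg hM0.le, ← Real.rpow_natCast]
      push_cast
      rfl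
    rw [h2, h3]
    apply Real.rpow_le_rpow_of_exponent_le (by linarith)
    have h4 : 6 / ε * (ε * J) ≤ 6 / ε * ⌈ε * J⌉₊ := mul_le_mul_of_nonneg_left h1 (by positivity)
    have h5 : 6 / ε * (ε * J) = 6 * J := by field_simp
    linarith
  have hsum : Summable (fun J => ((I J).card : ℝ) * (2 ^ J * p ^ ⌈ε * J⌉₊)) := by
    have hq : (M:ℝ) ^ 4 * 2 * (M:ℝ)⁻¹ ^ 6 ≤ 1 / 2 := by
      have e : (M:ℝ) ^ 4 * 2 * (M:ℝ)⁻¹ ^ 6 = 2 / (M:ℝ) ^ 2 := by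
        field_simp
      rw [e, div_le_div_iff₀ (by positivity) (by norm_num)]
      nlinarith
    have hg : Summable (fun J : ℕ => (2 * (Z:ℝ) + 1) ^ 4 * ((M:ℝ) ^ 4 * 2 * (M:ℝ)⁻¹ ^ 6) ^ J) :=
      (summable_geometric_of_lt_one (by positivity) (by linarith)).mul_left _
    refine Summable.of_nonneg_of_le (fun J => by positivity) (fun J => ?_) hg
    calc ((I J).card : ℝ) * (2 ^ J * p ^ ⌈ε * J⌉₊)
        ≤ ((2 * (Z:ℝ) + 1) ^ 4 * ((M:ℝ) ^ 4) ^ J) * (2 ^ J * ((M:ℝ)⁻¹ ^ 6) ^ J) := by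
          apply mul_le_mul (hcard J) _ (by positivity) (by positivity)
          exact mul_le_mul_of_nonneg_left (hpm J) (by positivity)
      _ = (2 * (Z:ℝ) + 1) ^ 4 * ((M:ℝ) ^ 4 * 2 * (M:ℝ)⁻¹ ^ 6) ^ J := by
          rw [mul_pow, mul_pow]
          ring
  have hγε : 0 < (M:ℝ) ^ (γ + ε) := by positivity
  have hG1 : 1 ≤ ⌈(M:ℝ) ^ (γ + ε)⌉₊ := Nat.one_le_iff_ne_zero.mpr (by
    have := Nat.ceil_pos.mpr hγε
    omega)
  have hΛ' : (1:ℝ) ≤ Λ := by exact_mod_cast hΛ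
  have hsm : ∀ j, 9 * rs Λ M n j * ((10 * M : ℕ) : ℝ) ≤ 1 / 4 * (1 / (n + 1)) := by
    intro j
    have h2 := rs_bd hΛ hM n j
    have h3 := rs_pos hΛ hM n j
    push_cast
    have h4 : 420 * (rs Λ M n j * M) ≤ 1 / (n + 1) := by
      have : rs Λ M n j * M ≤ Λ * (rs Λ M n j * M) :=
        le_mul_of_one_le_left (by positivity) hΛ'
      linarith
    have h6 : (0:ℝ) < 1 / (n + 1) := by positivity
    have h7 : 0 < rs Λ M n j * M := by positivity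
    linarith
  have key := limit_bad hC hmesh I (fun i => xi Λ M n i.1 i.2.1)
    (fun i => qi K Λ M n i.1 i.2.2) (M := M) (h0 := 20) (W := 10 * M) (k := k)
    (G := ⌈(M:ℝ) ^ (γ + ε)⌉₊) (rs Λ M n) (rs_pos hΛ hM n)
    (fun i j hij => by
      have h1 := rs_le (Λ := Λ) hM n (show i + 1 ≤ j from hij)
      calc rs Λ M n j * M ≤ rs Λ M n (i + 1) * M := mul_le_mul_of_nonneg_right h1 hM0.le
        _ = rs Λ M n i := rs_succ hM n i)
    (by norm_num) (by omega) (by omega)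
    (fun J i hi j => by
      rw [hI] at hi
      have h1 := (Finset.mem_filter.mp hi).2
      refine le_trans ?_ h1
      have h5 : (1:ℝ) / (2 * (n + 1)) = 1 / 2 * (1 / (n + 1)) := by field_simp
      have h6 : (0:ℝ) < 1 / (n + 1) := by positivity
      rw [h5]
      have := hsm j
      linarith)
    (fun j => by
      have h6 : (0:ℝ) < 1 / (n + 1) := by positivity
      have := hsm j
      linarith)
    (q := qM Λ M) (fun J i _ j => fam_card K hΛ hM _ _) hG1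
    (H := C2 * (M : ℝ) ^ γ) (by positivity)
    (fun J i _ j => hfam _ _ (rs_pos hΛ hM n j) (by
      refine (rs_bd hΛ hM n j).trans ?_
      rw [div_le_one (by positivity)]
      linarith))
    (p := p) hpar.pr (fun J => ⌈ε * J⌉₊) hsum
  filter_upwards [key] with ω hω
  unfold Few
  filter_upwards [hω] with J hJ a b ha hb hd
  have hmem : (J, (a, b)) ∈ I J :=
    Finset.mem_filter.mpr ⟨Finset.mem_image.mpr ⟨(a, b),
      Finset.mem_product.mpr ⟨mem_bx.mpr ha, mem_bx.mpr hb⟩, rfl⟩, hd⟩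
  exact hJ (J, (a, b)) hmem

end K93G
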