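import Pool.Agent.K3h93.UG.HDet
import Pool.Agent.K3h93.UG.Lim

/-!
The number of bad scales for the limits of the exploration path of the half-plane.
-/

set_option autoImplicit false

namespace K93G

open H974 H12S Finset H342P H984P K93U H389NS
open Pool.Agent.W92.DP Pool.Agent.W424.OD Pool.Agent.TH990.FU Pool.Agent.TH990.HP
open MeasureTheory Filter Topology Pool.Agent.W462.DPL
open H984H (Conf perc opn path place gam curve cut lawH)
open scoped ENNReal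

/-- Special visits of the lattice path give arms. -/
def Arm (Cx : Vtx → ℕ → ℕ → Finset Edg → Prop) (N : ℂ → ℝ → Set C(unitInterval, ℂ)) (η : ℝ) :
    Prop :=
  ∀ᶠ n : ℕ in atTop, ∀ (z : ℂ) (s : ℝ) (ω : Conf), curve n ω ∈ N z s →
    ∀ (v : Vtx) (a b : ℕ) (ρ : ℤ), Cond n z s η v a b ρ → Cx v a b (cut ω ρ)

/-- Position of the points of the configurations. -/
theorem gp_near {n : ℕ} (hn : 0 < n) {x : ℂ} {r : ℝ} {W : ℕ}
    (hr : sc n * (8 * W + 30) ≤ r) {q : ℤ × ℤ} (hq : b0 q ≤ W) :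
    dist (gp x r q) (zv n (vq (vz (sc n) 0 x) (⌊r / sc n⌋₊ / 4) q)) + 4 * r + 4 * sc n ≤
      sc n * ((⌊r / sc n⌋₊ / 4 * 20 : ℕ) : ℝ) := by
  have hδ := sc_pos hn
  set δ := sc n with hδdef
  have hW : (0:ℝ) ≤ W := Nat.cast_nonneg W
  have hrd : 8 * (W : ℝ) + 30 ≤ r / δ := by rw [le_div_iff₀ hδ]; linarith
  set m := ⌊r / δ⌋₊ with hm
  have hN1 : (m : ℝ) ≤ r / δ := Nat.floor_le (by linarith)
  have hN2 : r / δ < m + 1 := Nat.lt_floor_add_one _
  obtain ⟨L, hLd⟩ : ∃ L, L = m / 4 := ⟨_, rfl⟩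
  rw [← hLd]
  have hL : (m : ℝ) ≤ 4 * (L : ℝ) + 3 := by
    have : m ≤ 4 * L + 3 := by omega
    exact_mod_cast this
  have hL2 : 4 * (L : ℝ) ≤ m := by
    have : 4 * L ≤ m := by omega
    exact_mod_cast this
  have hq1 : |(q.1 : ℝ)| ≤ W := by
    have h1 : |q.1 - 0| ≤ b0 q := le_max_left _ _
    rw [sub_zero] at h1
    have : |q.1| ≤ (W : ℤ) := h1.trans hq
    exact_mod_cast this
  have hq2 : |(q.2 : ℝ)| ≤ W := by
    have h1 : |q.2 - 0| ≤ b0 q := le_max_right _ _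
    rw [sub_zero] at h1
    have : |q.2| ≤ (W : ℤ) := h1.trans hq
    exact_mod_cast this
  have gen : ∀ (y : ℝ) (t : ℤ), |(t:ℝ)| ≤ W →
      |(y + r * t) - δ * ((⌊(y - 0) / δ⌋ + 4 * L * t : ℤ) : ℝ)| ≤ δ + 4 * δ * W := by
    intro y t ht
    rw [sub_zero]
    have hv1 : (⌊y / δ⌋ : ℝ) ≤ y / δ := Int.floor_le _
    have hv2 : y / δ < ⌊y / δ⌋ + 1 := Int.lt_floor_add_one _
    have e1 : |r / δ * t - 4 * L * t| ≤ 4 * W := by
      rw [← sub_mul, abs_mul]
      have a1 : |r / δ - 4 * L| ≤ 4 := by rw [abs_le]; constructor <;> linarith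
      exact mul_le_mul a1 ht (abs_nonneg _) (by norm_num)
    rw [abs_le] at e1
    have e2 : (y + r * t) - δ * ((⌊y / δ⌋ + 4 * L * t : ℤ) : ℝ) =
        δ * ((y / δ - ⌊y / δ⌋) + (r / δ * t - 4 * L * t)) := by
      push_cast
      field_simp
      ring
    rw [e2, abs_mul, abs_of_pos hδ]
    have e3 : |(y / δ - ⌊y / δ⌋) + (r / δ * t - 4 * L * t)| ≤ 1 + 4 * W := by
      rw [abs_le]
      constructor <;> linarith
    calc δ * |(y / δ - ⌊y / δ⌋) + (r / δ * t - 4 * L * t)| ≤ δ * (1 + 4 * W) :=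
          mul_le_mul_of_nonneg_left e3 hδ.le
      _ = _ := by ring
  have hdist : dist (gp x r q) (zv n (vq (vz δ 0 x) L q)) ≤ 2 * (δ + 4 * δ * W) := by
    rw [dist_eq_norm]
    refine (norm_le_abs _).trans ?_
    rw [Complex.sub_re, Complex.sub_im, zv_re, zv_im, ← hδdef]
    have h1 := gen x.re q.1 hq1
    have h2 := gen x.im q.2 hq2
    have h3 : |(gp x r q).re - δ * ((vq (vz δ 0 x) L q).1 : ℝ)| ≤ δ + 4 * δ * W := h1
    have h4 : |(gp x r q).im - δ * ((vq (vz δ 0 x) L q).2 : ℝ)| ≤ δ + 4 * δ * W := h2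
    linarith
  push_cast
  have h5 : r ≤ δ * (4 * L + 4) := by
    have : r / δ ≤ 4 * L + 4 := by linarith
    rw [div_le_iff₀ hδ] at this
    linarith
  nlinarith

/-- The mesh estimate. -/
theorem meshH {α C : ℝ} (hα : 0 ≤ α) (hα2 : α ≤ 2) (hC : 0 < C)
    {Cx : Vtx → ℕ → ℕ → Finset Edg → Prop} (hA : ArmSys α C Cx)
    {N : ℕ → ℂ → ℝ → Set C(unitInterval, ℂ)} {η : ℝ}
    (hopen : ∀ i z s, IsOpen (N i z s)) (hmono : ∀ z s, Monotone fun i => N i z s)
    (harm : ∀ i, Arm Cx (N i) η) {φ : ℕ → ℕ} (hφ : Tendsto φ atTop atTop)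
    {μ : ProbabilityMeasure C(unitInterval, ℂ)} (hμ : Tendsto (fun i => lawH (φ i)) atTop (𝓝 μ)) :
    MeshB (μ : Measure C(unitInterval, ℂ)) (fun z s => ⋃ i, N i z s) (fun x => x.im) η α C := by
  intro x J M h0 W k G r hr hch hh0 hW hM hD hη 𝒬 q hq hG H hH hQ p hp m
  have e : {f : C(unitInterval, ℂ) | m ≤ nbad (fun z s => ⋃ i, N i z s) f x r 𝒬 G J} =
      ⋃ i, {f : C(unitInterval, ℂ) | m ≤ nbad (N i) f x r 𝒬 G J} := by
    ext f
    rw [Set.mem_iUnion]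
    exact nbad_iUnion hmono f x r 𝒬 G J m
  have hmono2 : Monotone fun i => {f : C(unitInterval, ℂ) | m ≤ nbad (N i) f x r 𝒬 G J} := by
    intro i i' hi f hf
    exact le_trans hf (nbad_mono fun j _ Q _ q _ h => hmono _ _ hi h)
  rw [e, hmono2.measure_iUnion]
  refine iSup_le fun i => ?_
  have ho := open_nbad (hopen i) x r 𝒬 G J m
  refine (ProbabilityMeasure.le_liminf_measure_open_of_tendsto hμ ho).trans ?_
  refine liminf_le_of_frequently_le (Eventually.frequently ?_)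
  have hsc := sc_tendsto hφ
  have hall : ∀ᶠ l in atTop, ∀ j ∈ Finset.range J, sc (φ l) * (8 * W + 30) ≤ r j := by
    rw [Filter.eventually_all_finset]
    intro j hj
    have h1 : Tendsto (fun l => sc (φ l) * (8 * (W:ℝ) + 30)) atTop (𝓝 0) := by
      have := hsc.mul_const (8 * (W:ℝ) + 30)
      rwa [zero_mul] at this
    exact h1.eventually (ge_mem_nhds (hr j (Finset.mem_range.mp hj)))
  filter_upwards [hall, hφ.eventually (harm i), tendsto_atTop.mp hφ 1] with l hl hl2 hl3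
  set n := φ l with hndef
  have hn : 0 < n := hl3
  have hδ := sc_pos hn
  have hrδ : ∀ j < J, sc n * (8 * W + 30) ≤ r j := fun j hj => hl j (Finset.mem_range.mpr hj)
  set L : ℕ → ℕ := fun j => ⌊r j / sc n⌋₊ / 4 with hLdef
  set V : Vtx := vz (sc n) 0 x with hV
  have hWR : (1:ℝ) ≤ W := by exact_mod_cast hW
  have hfl : ∀ j < J, 8 * W + 30 ≤ ⌊r j / sc n⌋₊ := fun j hj => by
    apply Nat.le_floor
    push_cast
    rw [le_div_iff₀ hδ]
    linarith [hrδ j hj]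
  have hflu : ∀ j < J, (⌊r j / sc n⌋₊ : ℝ) ≤ r j / sc n := fun j hj =>
    Nat.floor_le (div_nonneg (hr j hj).le hδ.le)
  have hL1 : ∀ j < J, 1 ≤ L j := fun j hj => by
    have := hfl j hj
    show 1 ≤ ⌊r j / sc n⌋₊ / 4
    omega
  have hL4 : ∀ j < J, sc n * (4 * (L j : ℝ)) ≤ r j := by
    intro j hj
    have h1 : (4:ℝ) * (L j : ℝ) ≤ ⌊r j / sc n⌋₊ := by
      have : 4 * L j ≤ ⌊r j / sc n⌋₊ := by
        show 4 * (⌊r j / sc n⌋₊ / 4) ≤ _
        omega
      exact_mod_cast this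
    have h2 := h1.trans (hflu j hj)
    rw [le_div_iff₀ hδ] at h2
    linarith
  -- the height
  have hV2 : ∀ j < J, 36 * L j * W ≤ V.2 := by
    intro j hj
    have h1 := hD j hj
    have h2 := hL4 j hj
    have h3 : sc n * ((36 * L j * W : ℕ) : ℝ) ≤ x.im := by
      push_cast
      have : sc n * (4 * (L j : ℝ)) * (9 * W) ≤ r j * (9 * W) :=
        mul_le_mul_of_nonneg_right h2 (by positivity)
      nlinarith
    have h4 : (((36 * L j * W : ℕ) : ℤ) : ℝ) ≤ (x.im - 0) / sc n := by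
      rw [le_div_iff₀ hδ, Int.cast_natCast]
      linarith
    have h5 : ((36 * L j * W : ℕ) : ℤ) ≤ ⌊(x.im - 0) / sc n⌋ := Int.le_floor.mpr h4
    have h6 : V.2 = ⌊(x.im - 0) / sc n⌋ := rfl
    rw [h6]
    push_cast at h5 ⊢
    exact h5
  -- the box
  set Lm : ℕ := ∑ j ∈ Finset.range J, L j with hLm
  have hLm' : ∀ j < J, L j * W ≤ Lm * W := fun j hj => by
    apply Nat.mul_le_mul_right
    exact Finset.single_le_sum (f := L) (fun _ _ => Nat.zero_le _) (Finset.mem_range.mpr hj)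
  set ρ : ℤ := n + 20 + |V.1| + |V.2| + 10 * ((Lm * W : ℕ) : ℤ) with hρ
  have hV1a := neg_abs_le V.1
  have hV1b := le_abs_self V.1
  have hV2b := le_abs_self V.2
  have hV1c := abs_nonneg V.1
  have hV2c := abs_nonneg V.2
  have hsub : ∀ j < J, H443P.bxe V ((8 * L j * W : ℕ) : ℤ) ⊆ (H984H.bx ρ).edges := by
    intro j hj
    have h1 := hLm' j hj
    have h2 := hV2 j hj
    have h3 : (1:ℤ) ≤ ((L j * W : ℕ) : ℤ) := by
      exact_mod_cast Nat.one_le_iff_ne_zero.mpr (Nat.mul_ne_zero (by have := hL1 j hj; omega)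
        (by omega))
    have h4 : ((L j * W : ℕ) : ℤ) ≤ ((Lm * W : ℕ) : ℤ) := by exact_mod_cast h1
    have e1 : ((8 * L j * W : ℕ) : ℤ) = 8 * ((L j * W : ℕ) : ℤ) := by push_cast; ring
    have e2 : 36 * (L j : ℤ) * W = 36 * ((L j * W : ℕ) : ℤ) := by push_cast; ring
    rw [e2] at h2
    have h5 := blk_sub (ρ := ρ) (c := V) (K := 8 * L j * W) (k := 8 * L j * W)
      (by rw [e1]; omega) (by rw [e1]; omega) (by rw [e1]; omega) (by rw [e1]; omega) le_rfl
    exact h5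
  refine law_le ho (ρ := ρ)
    (A := fun F => m ≤ nP J (fun j => ∃ Q ∈ 𝒬 j, Ev Cx V (L j) Q k G F)) (fun ω hω => ?_) ?_
  · refine le_trans hω (nP_mono fun j hj hB => ?_)
    obtain ⟨Q, hQ1, hQ2⟩ := hB
    refine ⟨Q, hQ1, ?_⟩
    have hLW := hLm' j hj
    have hVj := hV2 j hj
    have hLj1 := hL1 j hj
    refine Ev_of_nh (W := W) (Ht := fun q _ => curve n ω ∈ N i (gp x (r j) q) (4 * r j)) ?_
      (fun v hv => ((hQ j hj Q hQ1).1 v hv).2) hQ2
    intro q hq hN s t hs hst ht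
    refine hl2 _ _ ω hN (vq V (L j) q) (L j * s) (L j * t) ρ ⟨?_, ?_, ?_, ?_, ?_⟩
    · have h1 := gp_near hn (x := x) (hrδ j hj) hq
      refine h1.trans ?_
      apply mul_le_mul_of_nonneg_left _ hδ.le
      exact_mod_cast Nat.mul_le_mul_left (L j) hs
    · nlinarith
    · have h1 := hη j hj
      have h2 := hL4 j hj
      have h3 : ((L j * t : ℕ) : ℝ) ≤ L j * W := by
        exact_mod_cast Nat.mul_le_mul_left (L j) ht
      have h4 : sc n * (4 * (L j : ℝ)) * (16 * W) ≤ r j * (16 * W) :=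
        mul_le_mul_of_nonneg_right h2 (by positivity)
      have h5 : 64 * sc n * ((L j * t : ℕ) : ℝ) ≤ 64 * sc n * (L j * W) :=
        mul_le_mul_of_nonneg_left h3 (by positivity)
      have h6 : 0 < r j * W := mul_pos (hr j hj) (by linarith)
      nlinarith
    · have h3 : ((L j * t : ℕ) : ℤ) ≤ ((L j * W : ℕ) : ℤ) := by
        exact_mod_cast Nat.mul_le_mul_left (L j) ht
      have h4 : -(W:ℤ) ≤ q.2 := by
        have h5 : |q.2 - 0| ≤ b0 q := le_max_right _ _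
        rw [sub_zero] at h5
        exact (abs_le.mp (h5.trans hq)).1
      have h5 : (L j : ℤ) * (-(W:ℤ)) ≤ L j * q.2 :=
        mul_le_mul_of_nonneg_left h4 (by positivity)
      show 32 * ((L j * t : ℕ) : ℤ) ≤ V.2 + 4 * L j * q.2
      push_cast at h3 ⊢
      nlinarith
    · have h3 : ((L j * t : ℕ) : ℤ) ≤ ((Lm * W : ℕ) : ℤ) := by
        exact_mod_cast (Nat.mul_le_mul_left (L j) ht).trans hLW
      have hq1 : |q.1| ≤ W := by
        have h5 : |q.1 - 0| ≤ b0 q := le_max_left _ _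
        rw [sub_zero] at h5
        exact h5.trans hq
      have hq2 : |q.2| ≤ W := by
        have h5 : |q.2 - 0| ≤ b0 q := le_max_right _ _
        rw [sub_zero] at h5
        exact h5.trans hq
      have hbd : ∀ y : ℤ, |y| ≤ W → |4 * (L j : ℤ) * y| ≤ 4 * ((Lm * W : ℕ) : ℤ) := by
        intro y hy
        rw [abs_mul, abs_of_nonneg (by positivity : (0:ℤ) ≤ 4 * L j)]
        have h6 : (4 * (L j:ℤ)) * |y| ≤ 4 * L j * W :=
          mul_le_mul_of_nonneg_left hy (by positivity)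
        have h7 : ((L j * W : ℕ) : ℤ) ≤ ((Lm * W : ℕ) : ℤ) := by exact_mod_cast hLW
        push_cast at h7 ⊢
        linarith
      have g1 := abs_le.mp (hbd q.1 hq1)
      have g2 := abs_le.mp (hbd q.2 hq2)
      have e1 : ((5 * (L j * t) + 9 : ℕ) : ℤ) = 5 * ((L j * t : ℕ) : ℤ) + 9 := by push_cast; ring
      refine ⟨by omega, ?_, ?_, ?_⟩
      · show -ρ < V.1 + 4 * L j * q.1 - ((5 * (L j * t) + 9 : ℕ) : ℤ)
        rw [e1]
        omega
      · show V.1 + 4 * L j * q.1 + ((5 * (L j * t) + 9 : ℕ) : ℤ) < ρ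
        rw [e1]
        omega
      · show V.2 + 4 * L j * q.2 + ((5 * (L j * t) + 9 : ℕ) : ℤ) < ρ
        rw [e1]
        omega
  · refine multi hα hα2 hC hA (S := (H984H.bx ρ).edges) (V := V) (n := J) (m := m) (h0 := h0)
      (W := W) (k := k) (G := G) L hL1 hh0 hsub ?_ 𝒬 hq hG hH hQ hp
    intro i j hij hj
    show 8 * (⌊r j / sc n⌋₊ / 4) * W ≤ 4 * (⌊r i / sc n⌋₊ / 4) * h0
    have h2 : ⌊r j / sc n⌋₊ * M ≤ ⌊r i / sc n⌋₊ := by
      apply Nat.le_floor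
      push_cast
      calc (⌊r j / sc n⌋₊ : ℝ) * M ≤ r j / sc n * M :=
            mul_le_mul_of_nonneg_right (hflu j hj) (Nat.cast_nonneg M)
        _ = r j * M / sc n := by ring
        _ ≤ r i / sc n := div_le_div_of_nonneg_right (hch i j hij hj) hδ.le
    have h3 : (⌊r j / sc n⌋₊ / 4) * M ≤ ⌊r i / sc n⌋₊ / 4 := by
      rw [Nat.le_div_iff_mul_le (by norm_num)]
      calc ⌊r j / sc n⌋₊ / 4 * M * 4 = (⌊r j / sc n⌋₊ / 4 * 4) * M := by ring
        _ ≤ ⌊r j / sc n⌋₊ * M := Nat.mul_le_mul_right _ (Nat.div_mul_le_self _ _)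
        _ ≤ _ := h2
    calc 8 * (⌊r j / sc n⌋₊ / 4) * W = 4 * ((⌊r j / sc n⌋₊ / 4) * (2 * W)) := by ring
      _ ≤ 4 * ((⌊r j / sc n⌋₊ / 4) * (h0 * M)) :=
          Nat.mul_le_mul_left _ (Nat.mul_le_mul_left _ hM)
      _ = 4 * (((⌊r j / sc n⌋₊ / 4) * M) * h0) := by ring
      _ ≤ 4 * ((⌊r i / sc n⌋₊ / 4) * h0) :=
          Nat.mul_le_mul_left _ (Nat.mul_le_mul_right _ h3)
      _ = 4 * (⌊r i / sc n⌋₊ / 4) * h0 := by ring

end K93G
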