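import Pool.Agent.K3h93.UG.Gen
import Pool.Agent.K3h93.UR.Par

/-!
Sums over configurations with polynomial growth; the families of configurations.
-/

namespace K93G

open H974 Finset H342P H984P H984N H443P H443U K93U Filter Topology

theorem wt_pow_le {α : ℝ} (hα : 0 ≤ α) {m : ℤ} {i : ℕ} (h : (2 ^ i : ℤ) ≤ m) :
    wt α m ≤ ((2 : ℝ) ^ (-α)) ^ i := by
  have h1 := wt_anti hα h
  refine h1.trans (le_of_eq ?_)
  have h2 : (0 : ℤ) < 2 ^ i := by positivity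
  unfold wt
  rw [if_neg (by omega)]
  push_cast
  rw [← Real.rpow_natCast ((2:ℝ) ^ (-α)), ← Real.rpow_natCast (2:ℝ),
    ← Real.rpow_mul (by norm_num), ← Real.rpow_mul (by norm_num)]
  ring_nf

theorem gr_sum {α a : ℝ} (hα : 0 ≤ α) (hγ : α < a) : ∃ C1 : ℝ, 1 ≤ C1 ∧
    ∀ (Q : Finset (ℤ × ℤ)) (B : ℝ), 0 ≤ B → Gr Q B a → ∀ (u : ℤ × ℤ) (n : ℕ),
      ∑ v ∈ Q.filter (fun v => H443U.sd v u ≤ 2 ^ n), wt α (H443U.sd v u) ≤
        C1 * B * ((2:ℝ) ^ n) ^ (a - α) := by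
  set lam : ℝ := (2:ℝ) ^ (a - α) with hlam
  have hlam1 : 1 < lam := by
    rw [hlam]
    exact Real.one_lt_rpow (by norm_num) (by linarith)
  have h2a : (0:ℝ) < (2:ℝ) ^ a := Real.rpow_pos_of_pos (by norm_num) _
  have hq : 0 ≤ (2:ℝ) ^ a / (lam - 1) := by
    have : 0 < lam - 1 := by linarith
    positivity
  refine ⟨1 + (2:ℝ) ^ a / (lam - 1), by linarith, ?_⟩
  intro Q B hB hQ u n
  have e : ∀ n : ℕ, ((2:ℝ) ^ n) ^ (a - α) = lam ^ n := by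
    intro n
    rw [hlam, ← Real.rpow_natCast, ← Real.rpow_mul (by norm_num), ← Real.rpow_natCast,
      ← Real.rpow_mul (by norm_num)]
    ring_nf
  rw [e]
  induction n with
  | zero =>
    have h1 := hQ u 1 le_rfl
    simp only [Nat.cast_one, Real.one_rpow, mul_one] at h1
    calc ∑ v ∈ Q.filter (fun v => H443U.sd v u ≤ 2 ^ 0), wt α (H443U.sd v u)
        ≤ ∑ v ∈ Q.filter (fun v => H443U.sd v u ≤ 2 ^ 0), (1:ℝ) := by
          refine Finset.sum_le_sum fun v _ => ?_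
          exact wt_le_one hα _
      _ = ((Q.filter (fun v => H443U.sd v u ≤ 1)).card : ℝ) := by simp
      _ ≤ B := h1
      _ ≤ (1 + (2:ℝ) ^ a / (lam - 1)) * B * lam ^ 0 := by
          rw [pow_zero, mul_one]
          nlinarith
  | succ n ih =>
    have hsplit : ∑ v ∈ Q.filter (fun v => H443U.sd v u ≤ 2 ^ (n + 1)), wt α (H443U.sd v u) ≤
        ∑ v ∈ Q.filter (fun v => H443U.sd v u ≤ 2 ^ n), wt α (H443U.sd v u) +
        ∑ v ∈ Q.filter (fun v => H443U.sd v u ≤ ((2 ^ (n + 1) : ℕ) : ℤ)),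
          ((2 : ℝ) ^ (-α)) ^ n := by
      have h1 : Q.filter (fun v => H443U.sd v u ≤ 2 ^ (n + 1)) =
          Q.filter (fun v => H443U.sd v u ≤ 2 ^ n) ∪
            (Q.filter (fun v => H443U.sd v u ≤ 2 ^ (n + 1))).filter
              (fun v => 2 ^ n < H443U.sd v u) := by
        ext v
        simp only [Finset.mem_union, Finset.mem_filter]
        have : (2:ℤ) ^ n ≤ 2 ^ (n + 1) := pow_le_pow_right₀ (by norm_num) (by omega)
        constructor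
        · rintro ⟨h2, h3⟩
          rcases le_or_gt (H443U.sd v u) (2 ^ n) with h4 | h4
          · exact Or.inl ⟨h2, h4⟩
          · exact Or.inr ⟨⟨h2, h3⟩, h4⟩
        · rintro (⟨h2, h3⟩ | ⟨⟨h2, h3⟩, -⟩)
          · exact ⟨h2, h3.trans this⟩
          · exact ⟨h2, h3⟩
      have hdis : Disjoint (Q.filter (fun v => H443U.sd v u ≤ 2 ^ n))
          ((Q.filter (fun v => H443U.sd v u ≤ 2 ^ (n + 1))).filter
              (fun v => 2 ^ n < H443U.sd v u)) := by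
        rw [Finset.disjoint_left]
        intro v hv hv'
        rw [Finset.mem_filter] at hv hv'
        exact absurd hv.2 (not_le.mpr hv'.2)
      rw [h1, Finset.sum_union hdis]
      apply add_le_add le_rfl
      refine (Finset.sum_le_sum (f := fun v => wt α (H443U.sd v u))
        (g := fun _ => ((2 : ℝ) ^ (-α)) ^ n) fun v hv => ?_).trans ?_
      · rw [Finset.mem_filter] at hv
        exact wt_pow_le hα hv.2.le
      · refine Finset.sum_le_sum_of_subset_of_nonneg ?_ fun _ _ _ => by positivity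
        intro v hv
        rw [Finset.mem_filter, Finset.mem_filter] at hv
        rw [Finset.mem_filter]
        exact ⟨hv.1.1, by push_cast; exact hv.1.2⟩
    refine hsplit.trans ?_
    rw [Finset.sum_const, nsmul_eq_mul]
    have h2 := hQ u (2 ^ (n + 1)) Nat.one_le_two_pow
    have e1 : ((2 ^ (n + 1) : ℕ) : ℝ) ^ a = (2:ℝ) ^ a * ((2:ℝ) ^ a) ^ n := by
      push_cast
      rw [← Real.rpow_natCast 2 (n + 1), ← Real.rpow_mul (by norm_num), ← Real.rpow_natCast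
        ((2:ℝ) ^ a), ← Real.rpow_mul (by norm_num), ← Real.rpow_add (by norm_num)]
      push_cast
      ring_nf
    have e2 : ((2:ℝ) ^ a) ^ n * ((2 : ℝ) ^ (-α)) ^ n = lam ^ n := by
      rw [hlam, ← mul_pow, ← Real.rpow_add (by norm_num)]
      ring_nf
    rw [e1] at h2
    have h3 : (0:ℝ) ≤ ((2 : ℝ) ^ (-α)) ^ n := by positivity
    have h4 : ((Q.filter (fun v => H443U.sd v u ≤ ((2 ^ (n + 1) : ℕ) : ℤ))).card : ℝ) *
        ((2 : ℝ) ^ (-α)) ^ n ≤ B * (2:ℝ) ^ a * lam ^ n := by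
      calc _ ≤ (B * ((2:ℝ) ^ a * ((2:ℝ) ^ a) ^ n)) * ((2 : ℝ) ^ (-α)) ^ n :=
            mul_le_mul_of_nonneg_right h2 h3
        _ = B * (2:ℝ) ^ a * (((2:ℝ) ^ a) ^ n * ((2 : ℝ) ^ (-α)) ^ n) := by ring
        _ = _ := by rw [e2]
    have h5 : (1 + (2:ℝ) ^ a / (lam - 1)) * B * lam ^ n + B * (2:ℝ) ^ a * lam ^ n ≤
        (1 + (2:ℝ) ^ a / (lam - 1)) * B * lam ^ (n + 1) := by
      have h6 : (1 + (2:ℝ) ^ a / (lam - 1)) * lam - (1 + (2:ℝ) ^ a / (lam - 1)) - (2:ℝ) ^ a =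
          lam - 1 := by
        have : lam - 1 ≠ 0 := by linarith
        field_simp
        ring
      have h7 : 0 ≤ B * lam ^ n * (lam - 1) := by
        have : 0 ≤ lam ^ n := by positivity
        have h8 : 0 ≤ lam - 1 := by linarith
        positivity
      rw [pow_succ]
      nlinarith
    linarith

/-- The sums over the configurations. -/
theorem cf_sums {α s : ℝ} (hα : 0 ≤ α) (hs : α < s) : ∃ C1 : ℝ, 1 ≤ C1 ∧
    ∀ (Q : Finset (ℤ × ℤ)) (B : ℝ), 0 ≤ B → Gr Q B s → ∀ W : ℕ, 1 ≤ W → (∀ q ∈ Q, b0 q ≤ W) →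
      (∑ v ∈ Q, wt α (b0 v) ≤ C1 * B * (4 * (W:ℝ)) ^ (s - α)) ∧
      ∀ u ∈ Q, ∑ v ∈ Q, wt α (H443U.sd v u) ≤ C1 * B * (4 * (W:ℝ)) ^ (s - α) := by
  classical
  obtain ⟨C1, hC1, h⟩ := gr_sum hα hs
  refine ⟨C1, hC1, fun Q B hB hQ W hW hb => ?_⟩
  have gen : ∀ u : ℤ × ℤ, (∀ v ∈ Q, H443U.sd v u ≤ 2 * W) →
      ∑ v ∈ Q, wt α (H443U.sd v u) ≤ C1 * B * (4 * (W:ℝ)) ^ (s - α) := by
    intro u hu
    set n := Nat.clog 2 (2 * W) with hn
    have h1 : 2 * W ≤ 2 ^ n := Nat.le_pow_clog (by norm_num) _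
    have h2 : (2:ℝ) ^ n ≤ 4 * W := by
      have h3 : n - 1 < n := by
        have : 0 < n := Nat.clog_pos (by norm_num) (by omega)
        omega
      have h4 : 2 ^ (n - 1) < 2 * W := by
        have := (Nat.lt_clog_iff_pow_lt (b := 2) (by norm_num) (y := n - 1)
          (x := 2 * W)).mp (by rw [← hn]; exact h3)
        exact this
      have h5 : 2 ^ n = 2 * 2 ^ (n - 1) := by
        conv_lhs => rw [show n = (n - 1) + 1 by omega]
        rw [pow_succ]; ring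
      have h6 : 2 ^ n ≤ 4 * W := by omega
      exact_mod_cast h6
    have e : Q.filter (fun v => H443U.sd v u ≤ 2 ^ n) = Q := by
      rw [Finset.filter_eq_self]
      intro v hv
      refine (hu v hv).trans ?_
      exact_mod_cast h1
    have h7 := h Q B hB hQ u n
    rw [e] at h7
    refine h7.trans ?_
    apply mul_le_mul_of_nonneg_left _ (by positivity)
    exact Real.rpow_le_rpow (by positivity) h2 (by linarith)
  constructor
  · exact gen (0, 0) (fun v hv => by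
      have := hb v hv
      have h4 : H443U.sd v (0, 0) = b0 v := rfl
      rw [h4]
      omega)
  · intro u hu
    refine gen u fun v hv => ?_
    have h1 := Sum.sd_tri v (0, 0) u
    have h2 := hb v hv
    have h3 := hb u hu
    rw [Sum.sd_comm (0, 0) u] at h1
    unfold b0 at h2 h3
    omega

/-- The families have small sums. -/
theorem fam_ok {α : ℝ} (hα : 0 ≤ α) {K : Set ℂ} {s : ℝ} (hs : α < s) (hK : Hom K s) {Λ : ℕ}
    (hΛ : 1 ≤ Λ) :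
    ∃ C2 : ℝ, 0 < C2 ∧ ∀ (M : ℕ) (r : ℝ) (k : ℂ), 1 ≤ M → 0 < r → 420 * Λ * r * M ≤ 1 →
      OkF α (fam K Λ M r k) 20 (10 * M) (C2 * (M : ℝ) ^ (s - α)) := by
  obtain ⟨CK0, hK0⟩ := hK
  obtain ⟨C1, hC1, hsum⟩ := cf_sums hα hs
  set CK : ℝ := |CK0| + 1 with hCK
  have hCK0 : 0 < CK := by positivity
  have hΛ' : (1:ℝ) ≤ Λ := by exact_mod_cast hΛ
  have hK1 : ∀ (z : ℂ) (ρ R : ℝ), 0 < ρ → ρ ≤ R → R ≤ 1 →
      ∃ t : Finset ℂ, (t.card : ℝ) ≤ CK * (R / ρ) ^ s ∧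
        K ∩ Metric.ball z R ⊆ ⋃ y ∈ t, Metric.ball y ρ := by
    intro z ρ R h1 h2 h3
    obtain ⟨t, h4, h5⟩ := hK0 z ρ R h1 h2 h3
    refine ⟨t, h4.trans ?_, h5⟩
    apply mul_le_mul_of_nonneg_right
    · have := le_abs_self CK0
      linarith
    · have : 0 ≤ R / ρ := div_nonneg (h1.le.trans h2) h1.le
      positivity
  set B : ℝ := 289 * CK * (42 * (Λ:ℝ) ^ 2) ^ s with hB
  have hB0 : 0 < B := by positivity
  refine ⟨C1 * B * 40 ^ (s - α), by positivity, ?_⟩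
  intro M r k hM hr hMr Q hQ
  have hM' : (1:ℝ) ≤ M := by exact_mod_cast hM
  obtain ⟨a, b, v, -, -, -, h4, rfl⟩ := mem_fam.mp hQ
  have hg := cf_gr (K := K) (s := s) (CK := CK) (by linarith) hCK0.le hK1 (Λ := Λ) hΛ'
    (a := 10 * Λ * M * r) (r := r) hr (W := 10 * M) (by omega) (by push_cast; linarith)
    (k := k) (v := qc v) h4
  have hb : ∀ q ∈ cf K (10 * Λ * M * r) r (10 * M) k (qc a / (60 * Λ * M : ℕ))
        (qc b / (60 * Λ * M : ℕ)) (qc v), b0 q ≤ (10 * M : ℕ) := fun q hq => (mem_cf.mp hq).1.1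
  have e : C1 * B * (4 * ((10 * M : ℕ) : ℝ)) ^ (s - α) =
      C1 * B * 40 ^ (s - α) * (M : ℝ) ^ (s - α) := by
    push_cast
    rw [show (4:ℝ) * (10 * M) = 40 * M by ring, Real.mul_rpow (by norm_num) (by positivity)]
    ring
  have h5 := hsum _ B hB0.le hg (10 * M) (by omega) hb
  rw [e] at h5
  refine ⟨fun q hq => ?_, h5.1, h5.2⟩
  have h6 := mem_cf.mp hq
  exact ⟨by push_cast; exact h6.1.2, h6.1.1⟩

/-- The conditions for the scale ratio `M`. -/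
structure Par (c C2 γ ε : ℝ) (Λ k M : ℕ) : Prop where
  two : 2 ≤ M
  pr : (qM Λ M : ℝ) * (484 * c * ((k + 1) * (C2 * (M:ℝ) ^ γ)) / ⌈(M:ℝ) ^ (γ + ε)⌉₊) ^ k ≤
    (M:ℝ) ^ (-(6 / ε))
  gd : ((⌈(M:ℝ) ^ (γ + ε)⌉₊ + 6241 : ℕ) : ℝ) ≤ (M:ℝ) ^ (γ + 2 * ε)
  bd : (((20 * M + 1) ^ 2 : ℕ) : ℝ) ≤ (M:ℝ) ^ (3 : ℝ)

theorem exists_par {c : ℕ → ℝ} (hc : ∀ k, 0 < c k) {C2 : ℝ} (hC2 : 0 < C2) {γ ε : ℝ}
    (hγ : 0 < γ) (hε : 0 < ε) (Λ : ℕ) : ∃ k M : ℕ, Par (c k) C2 γ ε Λ k M := by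
  obtain ⟨k, hk⟩ := exists_nat_ge ((4 + 12 / ε) / ε)
  have hkε : 4 + 12 / ε ≤ ε * k := by
    rw [div_le_iff₀ hε] at hk
    linarith
  have hcc := hc k
  set c5 : ℝ := 484 * c k * ((k + 1) * C2) with hc5
  have hc5' : 0 < c5 := by positivity
  set c6 : ℝ := ((241 * (Λ:ℝ) ^ 2) ^ 4 * (9 * Λ) ^ 2) * c5 ^ k with hc6
  have hc6' : 0 ≤ c6 := by positivity
  have e1 : ∀ᶠ M : ℕ in atTop, c6 ≤ (M:ℝ) ^ (6 / ε) := ev_rpow (by positivity) _
  have e2 : ∀ᶠ M : ℕ in atTop, (6243:ℝ) ≤ (M:ℝ) ^ ε := ev_rpow hε _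
  have e3 : ∀ᶠ M : ℕ in atTop, (441:ℝ) ≤ (M:ℝ) ^ (1:ℝ) := ev_rpow one_pos _
  obtain ⟨M, h1, h2, h3, h4⟩ := (e1.and (e2.and (e3.and (eventually_ge_atTop 2)))).exists
  refine ⟨k, M, ?_⟩
  have hM0 : (0:ℝ) < M := by exact_mod_cast (by omega : 0 < M)
  have hM1 : (1:ℝ) ≤ M := by exact_mod_cast (by omega : 1 ≤ M)
  have hG : (M:ℝ) ^ (γ + ε) ≤ ⌈(M:ℝ) ^ (γ + ε)⌉₊ := Nat.le_ceil _
  have hp0 : 0 < (M:ℝ) ^ (γ + ε) := by positivity
  refine ⟨h4, ?_, ?_, ?_⟩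
  · have a1 : 484 * c k * ((k + 1) * (C2 * (M:ℝ) ^ γ)) / ⌈(M:ℝ) ^ (γ + ε)⌉₊ ≤
        c5 * (M:ℝ) ^ (-ε) := by
      have a2 : 484 * c k * ((k + 1) * (C2 * (M:ℝ) ^ γ)) = c5 * (M:ℝ) ^ γ := by
        rw [hc5]; ring
      rw [a2]
      calc c5 * (M:ℝ) ^ γ / ⌈(M:ℝ) ^ (γ + ε)⌉₊ ≤ c5 * (M:ℝ) ^ γ / (M:ℝ) ^ (γ + ε) :=
            div_le_div_of_nonneg_left (by positivity) hp0 hG
        _ = c5 * (M:ℝ) ^ (-ε) := by
            rw [mul_div_assoc, ← Real.rpow_sub hM0]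
            ring_nf
    have a3 : (qM Λ M : ℝ) = ((241 * (Λ:ℝ) ^ 2) ^ 4 * (9 * Λ) ^ 2) * (M:ℝ) ^ (4:ℕ) := by
      unfold qM
      push_cast
      ring
    calc (qM Λ M : ℝ) * (484 * c k * ((k + 1) * (C2 * (M:ℝ) ^ γ)) / ⌈(M:ℝ) ^ (γ + ε)⌉₊) ^ k
        ≤ (qM Λ M : ℝ) * (c5 * (M:ℝ) ^ (-ε)) ^ k := by
          apply mul_le_mul_of_nonneg_left _ (Nat.cast_nonneg _)
          exact pow_le_pow_left₀ (by positivity) a1 k
      _ = c6 * ((M:ℝ) ^ (4:ℝ) * (M:ℝ) ^ (-(ε * k))) := by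
          have a4 : (c5 * (M:ℝ) ^ (-ε)) ^ k = c5 ^ k * (M:ℝ) ^ (-(ε * k)) := by
            rw [mul_pow]
            congr 1
            rw [← Real.rpow_natCast ((M:ℝ) ^ (-ε)), ← Real.rpow_mul hM0.le]
            congr 1
            ring
          have a5 : (M:ℝ) ^ (4:ℕ) = (M:ℝ) ^ (4:ℝ) := by
            rw [← Real.rpow_natCast (M:ℝ) 4]; norm_num
          rw [a3, a4, a5, hc6]
          ring
      _ ≤ (M:ℝ) ^ (6 / ε) * (M:ℝ) ^ (-(12 / ε)) := by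
          apply mul_le_mul h1 _ (by positivity) (by positivity)
          rw [← Real.rpow_add hM0]
          exact Real.rpow_le_rpow_of_exponent_le hM1 (by linarith)
      _ = (M:ℝ) ^ (-(6 / ε)) := by
          rw [← Real.rpow_add hM0]
          congr 1
          ring
  · have b1 : (⌈(M:ℝ) ^ (γ + ε)⌉₊ : ℝ) < (M:ℝ) ^ (γ + ε) + 1 := Nat.ceil_lt_add_one hp0.le
    have b2 : 1 ≤ (M:ℝ) ^ (γ + ε) := Real.one_le_rpow hM1 (by linarith)
    have b3 : (M:ℝ) ^ (γ + 2 * ε) = (M:ℝ) ^ (γ + ε) * (M:ℝ) ^ ε := by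
      rw [← Real.rpow_add hM0]; congr 1; ring
    rw [b3]
    push_cast
    nlinarith
  · rw [Real.rpow_one] at h3
    have : (M:ℝ) ^ (3:ℝ) = (M:ℝ) ^ 3 := by
      rw [← Real.rpow_natCast]; norm_num
    rw [this]
    push_cast
    have c1 : (20 * (M:ℝ) + 1) ^ 2 ≤ (21 * M) ^ 2 := by
      apply pow_le_pow_left₀ (by positivity)
      linarith
    have c2 : (21 * (M:ℝ)) ^ 2 = 441 * (M:ℝ) ^ 2 := by ring
    have c3 : 441 * (M:ℝ) ^ 2 ≤ M * (M:ℝ) ^ 2 := mul_le_mul_of_nonneg_right h3 (by positivity)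
    calc (20 * (M:ℝ) + 1) ^ 2 ≤ M * (M:ℝ) ^ 2 := by linarith
      _ = (M:ℝ) ^ 3 := by ring

end K93G
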