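import Pool.Agent.K3h93.UG.Gen
import Pool.Agent.TH990.FU.Dual
import Pool.Agent.W347.DPAA
import Pool.Agent.W424.KI.Fin
import Pool.Agent.H985R3.TA.Main
import Pool.Agent.H985R3.TA.STA

/-!
Two, three and four arms as types of arms.
-/

set_option autoImplicit false

namespace K93G

open H974 H12S Finset H342P H984P H984N H443P H443U K93U H389NS
open Pool.Agent.W92.DP Pool.Agent.W424.OD Pool.Agent.TH990.FU

/-- From arms with a margin to a type of arms. -/
theorem armsys_of {α C1 : ℝ} (hα : 0 ≤ α) (hα2 : α ≤ 2) (hC1 : 0 ≤ C1)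
    (A : Vtx → ℕ → ℕ → Finset Edg → Prop)
    (hloc : ∀ (v : Vtx) (a b : ℕ) (F : Finset Edg), 4 ≤ b →
      (A v (a + 2) (b - 2) F ↔ A v (a + 2) (b - 2) (F ∩ sh v a b)))
    (hpr : ∀ (v : Vtx) (a b : ℕ), a + 4 ≤ b →
      P (bxe v b) (A v (a + 2) (b - 2)) ≤ C1 * (((a + 2 : ℕ) : ℝ) / (b - 2 : ℕ)) ^ α) :
    ArmSys α (1024 * (C1 + 1)) (fun v a b F => 32 * a ≤ b → 4 ≤ b → A v (a + 2) (b - 2) F) := by
  constructor
  · intro v a b F
    refine forall_congr' fun _ => forall_congr' fun hb => hloc v a b F hb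
  · intro S v a b hab hS
    have hb0 : (0:ℝ) < b := by exact_mod_cast (by omega : 0 < b)
    have ha0 : (0:ℝ) ≤ a := Nat.cast_nonneg a
    have hx : 0 < ((a:ℝ) + 1) / b := by positivity
    by_cases h : 32 * a ≤ b ∧ 4 ≤ b
    · have e1 : P S (fun F => 32 * a ≤ b → 4 ≤ b → A v (a + 2) (b - 2) F) =
          P (sh v a b) (A v (a + 2) (b - 2)) := by
        have h1 : P S (fun F => 32 * a ≤ b → 4 ≤ b → A v (a + 2) (b - 2) F) =
            P S (A v (a + 2) (b - 2)) := by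
          apply Pr_congr
          intro F _
          exact ⟨fun hF => hF h.1 h.2, fun hF _ _ => hF⟩
        rw [h1]
        exact Pr_local hS (fun F _ => hloc v a b F h.2)
      have e2 : P (bxe v b) (A v (a + 2) (b - 2)) = P (sh v a b) (A v (a + 2) (b - 2)) :=
        Pr_local Finset.sdiff_subset (fun F _ => hloc v a b F h.2)
      rw [e1, ← e2]
      by_cases h4 : a + 4 ≤ b
      · refine (hpr v a b h4).trans ?_
        have hk : (((b - 2 : ℕ)) : ℝ) = (b:ℝ) - 2 := by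
          rw [Nat.cast_sub (by omega)]; norm_num
        have hb4 : (4:ℝ) ≤ b := by exact_mod_cast h.2
        have h5 : (((a + 2 : ℕ) : ℝ) / (b - 2 : ℕ)) ≤ 4 * (((a:ℝ) + 1) / b) := by
          rw [hk]
          push_cast
          rw [div_le_iff₀ (by linarith)]
          have : 4 * (((a:ℝ) + 1) / b) * (b - 2) = 4 * (a + 1) * ((b - 2) / b) := by field_simp
          rw [this]
          have h6 : (1:ℝ) / 2 ≤ (b - 2) / b := by
            rw [div_le_div_iff₀ (by norm_num) hb0]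
            linarith
          nlinarith
        have h7 : (((a + 2 : ℕ) : ℝ) / (b - 2 : ℕ)) ^ α ≤ 16 * (((a:ℝ) + 1) / b) ^ α := by
          calc (((a + 2 : ℕ) : ℝ) / (b - 2 : ℕ)) ^ α ≤ (4 * (((a:ℝ) + 1) / b)) ^ α :=
                Real.rpow_le_rpow (by positivity) h5 hα
            _ = 4 ^ α * (((a:ℝ) + 1) / b) ^ α := Real.mul_rpow (by norm_num) hx.le
            _ ≤ 16 * (((a:ℝ) + 1) / b) ^ α := by
                apply mul_le_mul_of_nonneg_right _ (by positivity)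
                calc (4:ℝ) ^ α ≤ 4 ^ (2:ℝ) := Real.rpow_le_rpow_of_exponent_le (by norm_num) hα2
                  _ = 16 := by norm_num
        have h8 : 0 ≤ (((a:ℝ) + 1) / b) ^ α := by positivity
        calc C1 * (((a + 2 : ℕ) : ℝ) / (b - 2 : ℕ)) ^ α ≤ C1 * (16 * (((a:ℝ) + 1) / b) ^ α) :=
              mul_le_mul_of_nonneg_left h7 hC1
          _ ≤ 1024 * (C1 + 1) * (((a:ℝ) + 1) / b) ^ α := by nlinarith
      · refine (Pr_le_one okh _ _).trans ?_
        have hba : (b:ℝ) ≤ 4 * (a + 1) := by exact_mod_cast (by omega : b ≤ 4 * (a + 1))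
        have h5 : 1 ≤ (4 * (((a:ℝ) + 1) / b)) ^ α := by
          apply Real.one_le_rpow _ hα
          rw [← mul_div_assoc, le_div_iff₀ hb0, one_mul]
          exact hba
        rw [Real.mul_rpow (by norm_num) hx.le] at h5
        have h6 : (4:ℝ) ^ α ≤ 16 := by
          calc (4:ℝ) ^ α ≤ 4 ^ (2:ℝ) := Real.rpow_le_rpow_of_exponent_le (by norm_num) hα2
            _ = 16 := by norm_num
        have h8 : 0 ≤ (((a:ℝ) + 1) / b) ^ α := by positivity
        have h9 : (1:ℝ) ≤ 16 * (((a:ℝ) + 1) / b) ^ α :=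
          h5.trans (mul_le_mul_of_nonneg_right h6 h8)
        nlinarith
    · refine (Pr_le_one okh _ _).trans ?_
      have hba : (b:ℝ) ≤ 32 * (a + 1) := by exact_mod_cast (by omega : b ≤ 32 * (a + 1))
      have h5 : 1 ≤ (32 * (((a:ℝ) + 1) / b)) ^ α := by
        apply Real.one_le_rpow _ hα
        rw [← mul_div_assoc, le_div_iff₀ hb0, one_mul]
        exact hba
      rw [Real.mul_rpow (by norm_num) hx.le] at h5
      have h6 : (32:ℝ) ^ α ≤ 1024 := by
        calc (32:ℝ) ^ α ≤ 32 ^ (2:ℝ) := Real.rpow_le_rpow_of_exponent_le (by norm_num) hα2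
          _ = 1024 := by norm_num
      have h8 : 0 ≤ (((a:ℝ) + 1) / b) ^ α := by positivity
      have h9 : (1:ℝ) ≤ 1024 * (((a:ℝ) + 1) / b) ^ α :=
        h5.trans (mul_le_mul_of_nonneg_right h6 h8)
      nlinarith

/-- Two arms. -/
theorem armsys2 {C : ℝ} (hA : AnnUp C) : ArmSys (1/4) C Cx := by
  constructor
  · intro v a b F
    exact two_loc _ v _ _ F
  · intro S v a b hab hS
    have h := two_pr hA hS v (r := a + 1) (R := b) (by omega) (by omega)
    push_cast at h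
    exact h

theorem reg_sub {v : Vtx} {a b : ℕ} (hb : 4 ≤ b) {e : Edg}
    (he : e ∈ blk v (b - 2) \ blk v (a + 2)) : e ∈ sh v a b := by
  rw [Finset.mem_sdiff] at he
  unfold sh
  rw [Finset.mem_sdiff]
  obtain ⟨x, y, _ | _⟩ := e
  · unfold blk at he
    unfold bxe
    rw [mem_RE_false, mem_RE_false] at he
    rw [mem_RE_false, mem_RE_false]
    omega
  · unfold blk at he
    unfold bxe
    rw [mem_RE_true, mem_RE_true] at he
    rw [mem_RE_true, mem_RE_true]
    omega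

theorem reg_sub_dl {v : Vtx} {a b : ℕ} (hb : 4 ≤ b) {e : Edg}
    (he : dl e ∈ blk v (b - 2) \ blk v (a + 2)) : e ∈ sh v a b := by
  rw [Finset.mem_sdiff] at he
  unfold sh
  rw [Finset.mem_sdiff]
  obtain ⟨x, y, _ | _⟩ := e
  · have e1 : dl (x, y, false) = (x - 1, y, true) := rfl
    rw [e1] at he
    unfold blk at he
    unfold bxe
    rw [mem_RE_true, mem_RE_true] at he
    rw [mem_RE_false, mem_RE_false]
    omega
  · have e1 : dl (x, y, true) = (x, y - 1, false) := rfl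
    rw [e1] at he
    unfold blk at he
    unfold bxe
    rw [mem_RE_false, mem_RE_false] at he
    rw [mem_RE_true, mem_RE_true]
    omega

theorem inter_reg {v : Vtx} {a b : ℕ} (hb : 4 ≤ b) (F : Finset Edg) :
    (↑F : Set Edg) ∩ ↑(blk v (b - 2) \ blk v (a + 2)) =
      (↑(F ∩ sh v a b) : Set Edg) ∩ ↑(blk v (b - 2) \ blk v (a + 2)) := by
  ext e
  rw [Set.mem_inter_iff, Set.mem_inter_iff, Finset.mem_coe, Finset.mem_coe, Finset.mem_coe,
    Finset.mem_inter]
  constructor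
  · rintro ⟨h1, h2⟩
    exact ⟨⟨h1, reg_sub hb h2⟩, h2⟩
  · rintro ⟨⟨h1, -⟩, h2⟩
    exact ⟨h1, h2⟩

theorem inter_reg_dl {v : Vtx} {a b : ℕ} (hb : 4 ≤ b) (F : Finset Edg) :
    (dl '' (↑F : Set Edg)ᶜ) ∩ ↑(blk v (b - 2) \ blk v (a + 2)) =
      (dl '' (↑(F ∩ sh v a b) : Set Edg)ᶜ) ∩ ↑(blk v (b - 2) \ blk v (a + 2)) := by
  ext e'
  constructor
  · rintro ⟨⟨e, h1, rfl⟩, h2⟩
    refine ⟨⟨e, ?_, rfl⟩, h2⟩
    intro h3
    rw [Finset.mem_coe, Finset.mem_inter] at h3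
    exact h1 h3.1
  · rintro ⟨⟨e, h1, rfl⟩, h2⟩
    refine ⟨⟨e, ?_, rfl⟩, h2⟩
    intro h3
    apply h1
    rw [Finset.mem_coe, Finset.mem_inter]
    exact ⟨h3, reg_sub_dl hb h2⟩

theorem A4a_of_eq {v : Vtx} {d k : ℕ} {F G : Set Edg}
    (h : F ∩ ↑(blk v k \ blk v d) = G ∩ ↑(blk v k \ blk v d)) : A4a v d k F ↔ A4a v d k G := by
  unfold A4a
  rw [h]

theorem A3v_of_eq {v : Vtx} {d k : ℕ} {F G : Set Edg}
    (h : F ∩ ↑(blk v k \ blk v d) = G ∩ ↑(blk v k \ blk v d)) : A3v v d k F ↔ A3v v d k G := by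
  have e : F ∩ AE v d k = G ∩ AE v d k := h
  unfold A3v Pool.Agent.W424.OD.Cl
  rw [e]

/-- Four arms. -/
def A4 (v : Vtx) (d k : ℕ) (F : Finset Edg) : Prop := A4a v d k ↑F ∨ A4d v d k ↑F

/-- Three arms. -/
def A3 (v : Vtx) (d k : ℕ) (F : Finset Edg) : Prop :=
  A3v v d k ↑F ∨ A3v v d k (dl '' (↑F : Set Edg)ᶜ)

/-- Four arms across an annulus with margins. -/
def C4 (v : Vtx) (a b : ℕ) (F : Finset Edg) : Prop := 32 * a ≤ b → 4 ≤ b → A4 v (a + 2) (b - 2) F

/-- Three arms across an annulus with margins. -/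
def C3 (v : Vtx) (a b : ℕ) (F : Finset Edg) : Prop := 32 * a ≤ b → 4 ≤ b → A3 v (a + 2) (b - 2) F

theorem blk_bxe (v : Vtx) (k : ℕ) : blk v k = bxe v k := rfl

theorem armsys4 : ∃ C : ℝ, 0 < C ∧ ArmSys (5/4) C C4 := by
  obtain ⟨Ca, hCa, hA'⟩ := Pool.Agent.W347.DPAA.aa
  obtain ⟨Cd, hCd, hD'⟩ := Pool.Agent.W571.DPad.ad Pool.Agent.W347.DPAA.aa
  refine ⟨1024 * ((Ca + Cd) + 1), by positivity, armsys_of (by norm_num) (by norm_num)
    (by positivity) A4 ?_ ?_⟩
  · intro v a b F hb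
    unfold A4 A4d
    rw [A4a_of_eq (inter_reg (a := a) hb F), A4a_of_eq (inter_reg_dl (a := a) hb F)]
  · intro v a b hab
    have h1 := hA' v (a + 2) (b - 2) (by omega) (by omega) (bxe v b)
      (by rw [blk_bxe]; exact bxe_mono (by exact_mod_cast (by omega : b - 2 ≤ b)))
    have h2 := hD' v (a + 2) (b - 2) (by omega) (by omega) (bxe v b)
      (by rw [blk_bxe]; exact bxe_mono (by exact_mod_cast (by omega : b - 2 + 1 ≤ b)))
    have hor := Pr_or_le okh (bxe v b) (fun F => A4a v (a + 2) (b - 2) ↑F)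
      (fun F => A4d v (a + 2) (b - 2) ↑F)
    refine (hor.trans (add_le_add h1 h2)).trans (le_of_eq ?_)
    ring

theorem armsys3 : ∃ C : ℝ, 0 < C ∧ ArmSys (2/3) C C3 := by
  obtain ⟨Cd, hCd, hD'⟩ := u3d Pool.Agent.W424.KI.u3
  obtain ⟨Ca, hCa, hA'⟩ := Pool.Agent.W424.KI.u3
  refine ⟨1024 * ((Ca + Cd) + 1), by positivity, armsys_of (by norm_num) (by norm_num)
    (by positivity) A3 ?_ ?_⟩
  · intro v a b F hb
    unfold A3
    rw [A3v_of_eq (inter_reg (a := a) hb F), A3v_of_eq (inter_reg_dl (a := a) hb F)]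
  · intro v a b hab
    have h1 := hA' v (a + 2) (b - 2) (by omega) (by omega) (bxe v b)
      (by rw [blk_bxe]; exact bxe_mono (by exact_mod_cast (by omega : b - 2 ≤ b)))
    have h2 := hD' v (a + 2) (b - 2) (by omega) (by omega) (bxe v b)
      (by rw [blk_bxe]; exact bxe_mono (by exact_mod_cast (by omega : b - 2 + 1 ≤ b)))
    have hor := Pr_or_le okh (bxe v b) (fun F => A3v v (a + 2) (b - 2) ↑F)
      (fun F => A3v v (a + 2) (b - 2) (dl '' (↑F : Set Edg)ᶜ))
    refine (hor.trans (add_le_add h1 h2)).trans (le_of_eq ?_)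
    ring

end K93G
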